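import Pool.Agent.Lib.MP_235cc9_lc.RotComplete

/-!
# Sending a vertex to infinity
-/

set_option linter.unusedSimpArgs false

namespace Pool.Agent.Lib.MP_235cc9_lc

open Complex ComplexConjugate Filter Topology

theorem chart_rel {w0 A B a b : ℂ} (hA : A ≠ 0) (hB : B ≠ 0) (h0 : w0 * conj w0 = 1)
    (h : a * b * conj (B - A) = -(B - A)) :
    (-(w0 * a * conj A / A)) * (-(w0 * b * conj B / B)) * conj (w0 / B - w0 / A) =
      -(w0 / B - w0 / A) := by
  have hA' : conj A ≠ 0 := by rwa [Ne, map_eq_zero]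
  have hB' : conj B ≠ 0 := by rwa [Ne, map_eq_zero]
  simp only [map_sub, map_div₀] at h ⊢
  field_simp
  linear_combination (-w0 * (w0 * conj w0)) * h + w0 * (B - A) * h0

/-- The chart in which the vertex `0` is at infinity. -/
theorem chart_sound {n : ℕ} {E : List Link} {z w : ℕ → ℂ} (hn : 0 < n)
    (hw : ∀ u, ‖w u‖ = 1) (hz : ∀ u v, u < n → v < n → z u = z v → u = v)
    (hb : ∀ p q : Port, (p, q) ∈ E → p.1 < n ∧ q.1 < n)
    (hrel : ∀ u k v l, ((u, k), (v, l)) ∈ E →
      (w u * zt ^ k) * (w v * zt ^ l) * conj (z v - z u) = -(z v - z u)) :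
    ∃ Z W : ℕ → ℂ, (∀ u v, 0 < u → 0 < v → u < n → v < n → Z u = Z v → u = v) ∧
      (∀ u k v l, ((u, k), (v, l)) ∈ E → 0 < u → 0 < v →
        (W u * zt ^ k) * (W v * zt ^ l) * conj (Z v - Z u) = -(Z v - Z u)) ∧
      (∀ u k l, ((u, k), (0, l)) ∈ E → 0 < u → zt ^ k * zt ^ l = 1 → W u = 1) := by
  have h0 : w 0 * conj (w 0) = 1 := by
    rw [Complex.mul_conj, Complex.normSq_eq_norm_sq, hw]; norm_num
  have hw0 : w 0 ≠ 0 := by rw [← norm_ne_zero_iff, hw]; exact one_ne_zero
  have hne : ∀ u, 0 < u → u < n → z u - z 0 ≠ 0 := fun u h1 h2 h3 => by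
    have := hz u 0 h2 hn (sub_eq_zero.mp h3)
    omega
  refine ⟨fun v => w 0 / (z v - z 0), fun v => -(w 0 * w v * conj (z v - z 0) / (z v - z 0)),
    ?_, ?_, ?_⟩
  · intro u v hu hv hun hvn he
    simp only at he
    have h1 := hne u hu hun
    have h2 := hne v hv hvn
    rw [div_eq_div_iff h1 h2] at he
    have h3 := mul_left_cancel₀ hw0 he
    exact hz u v hun hvn (by linear_combination -h3)
  · intro u k v l he hu hv
    obtain ⟨b1, b2⟩ := hb _ _ he
    have h1 := hne u hu b1
    have h2 := hne v hv b2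
    have h3 : (w u * zt ^ k) * (w v * zt ^ l) * conj ((z v - z 0) - (z u - z 0)) =
        -((z v - z 0) - (z u - z 0)) := by
      have := hrel u k v l he
      rw [sub_sub_sub_cancel_right]
      exact this
    have h4 := chart_rel h1 h2 h0 h3
    simp only
    rw [← h4]
    ring
  · intro u k l he hu hkl
    obtain ⟨b1, -⟩ := hb _ _ he
    have h1 := hne u hu b1
    have h2 := hrel u k 0 l he
    simp only
    rw [neg_eq_iff_eq_neg, div_eq_iff h1]
    simp only [map_sub] at h2 ⊢
    linear_combination -h2 - (w 0 * w u * (conj (z u) - conj (z 0))) * hkl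

theorem curv_inv {A P σ : ℂ} (hA : A ≠ 0) (hP : P ≠ 0) (hne : P ≠ A) :
    curv (A⁻¹) (-(σ * conj A / A)) (P⁻¹) =
      normSq A * (((P - A) * conj σ).im / normSq (P - A)) + (A * conj σ).im := by
  have hA' : conj A ≠ 0 := by rwa [Ne, map_eq_zero]
  have hP' : conj P ≠ 0 := by rwa [Ne, map_eq_zero]
  have hPA : P - A ≠ 0 := sub_ne_zero.mpr hne
  have hPA' : conj P - conj A ≠ 0 := by
    rw [← map_sub]; rwa [Ne, map_eq_zero]
  have h2 : (2 * I : ℂ) ≠ 0 := by simp
  have key : ((curv (A⁻¹) (-(σ * conj A / A)) (P⁻¹) : ℝ) : ℂ) =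
      ((normSq A * (((P - A) * conj σ).im / normSq (P - A)) + (A * conj σ).im : ℝ) : ℂ) := by
    rw [curv]
    push_cast
    rw [Complex.im_eq_sub_conj, Complex.im_eq_sub_conj, Complex.im_eq_sub_conj]
    simp only [Complex.normSq_eq_conj_mul_self, map_sub, map_mul, map_neg, map_div₀, map_inv₀,
      Complex.conj_conj]
    have e1 : (P⁻¹ - A⁻¹) ≠ 0 := by
      rw [sub_ne_zero]; exact fun h => hne (inv_injective h)
    have e2 : ((conj P)⁻¹ - (conj A)⁻¹) ≠ 0 := by
      rw [sub_ne_zero]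
      intro h
      exact hPA' (sub_eq_zero.mpr (inv_injective h))
    have e3 : (P⁻¹ - A⁻¹) = -(P - A) / (P * A) := by field_simp; ring
    have e4 : ((conj P)⁻¹ - (conj A)⁻¹) = -(conj P - conj A) / (conj P * conj A) := by
      field_simp; ring
    rw [e3, e4]
    field_simp
    ring
  exact_mod_cast key

theorem curv_inv_zero {A σ : ℂ} (hA : A ≠ 0) :
    curv (A⁻¹) (-(σ * conj A / A)) 0 = (A * conj σ).im := by
  have hA' : conj A ≠ 0 := by rwa [Ne, map_eq_zero]
  have key : ((curv (A⁻¹) (-(σ * conj A / A)) 0 : ℝ) : ℂ) = (((A * conj σ).im : ℝ) : ℂ) := by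
    rw [curv]
    push_cast
    rw [Complex.im_eq_sub_conj, Complex.im_eq_sub_conj]
    simp only [Complex.normSq_eq_conj_mul_self, map_sub, map_mul, map_neg, map_div₀, map_inv₀,
      Complex.conj_conj, map_zero, zero_sub]
    field_simp
  exact_mod_cast key

/-- From a configuration with the vertex `0` at infinity to a finite one. -/
theorem chart_complete {n : ℕ} {E : List Link} (h : PortGraph n E) {Z W : ℕ → ℂ}
    (hW : ∀ u, ‖W u‖ = 1)
    (hZ : ∀ u v, 0 < u → 0 < v → u < n → v < n → Z u = Z v → u = v)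
    (hfirst : ∀ u k v l, ((u, k), (v, l)) ∈ E → 0 < u)
    (hrel : ∀ u k v l, ((u, k), (v, l)) ∈ E → 0 < v →
      (W u * zt ^ k) * (W v * zt ^ l) * conj (Z v - Z u) = -(Z v - Z u))
    (hk : ∀ u k v l, ((u, k), (v, l)) ∈ E → 0 < v → curv (Z u) (W u * zt ^ k) (Z v) ≠ 0)
    (ha : ∀ u k v l, ((u, k), (v, l)) ∈ E → 0 < v → ∀ x < n, 0 < x → x ≠ u → x ≠ v →
      curv (Z u) (W u * zt ^ k) (Z x) ≠ curv (Z u) (W u * zt ^ k) (Z v))
    (hrel0 : ∀ u k l, ((u, k), (0, l)) ∈ E → W u * zt ^ k * zt ^ l = 1)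
    (hk0 : ∀ u k l, ((u, k), (0, l)) ∈ E → (W u * zt ^ k).im ≠ 0)
    (ha0 : ∀ u k l, ((u, k), (0, l)) ∈ E → ∀ x < n, 0 < x → x ≠ u →
      curv (Z u) (W u * zt ^ k) (Z x) ≠ 0) :
    HasLombardiDrawing (rot n E) := by
  have hlt : ∀ u k v l, ((u, k), (v, l)) ∈ E → u < n ∧ v < n ∧ u ≠ v := fun u k v l he => by
    have hE : ((u, k), (v, l)) ∈ symE E := mem_symE.mpr (Or.inl he)
    exact ⟨(h.bd _ _ hE).1, (h.bd _ _ (symE_symm hE)).1, h.loop _ _ hE⟩
  -- the choice of `q`
  obtain ⟨q, hq1, hq2, hq3⟩ : ∃ q : ℂ, (∀ u < n, Z u ≠ q) ∧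
      (∀ u k v l, ((u, k), (v, l)) ∈ E → 0 < v →
        curv (Z u) (W u * zt ^ k) q ≠ curv (Z u) (W u * zt ^ k) (Z v)) ∧
      (∀ u k l, ((u, k), (0, l)) ∈ E → curv (Z u) (W u * zt ^ k) q ≠ 0) := by
    have f1 : (⋃ u ∈ Finset.range n, {t : ℝ | Z u = t}).Finite := by
      refine Set.Finite.biUnion (Finset.finite_toSet _) (fun u _ => ?_)
      refine (Set.finite_singleton (Z u).re).subset (fun t ht => ?_)
      simp only [Set.mem_ofPred_eq] at ht
      rw [Set.mem_singleton_iff, ht, Complex.ofReal_re]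
    have f2 : (⋃ e ∈ E.toFinset, {t : ℝ | (0 < e.2.1 ∧ ((t - Z e.1.1) *
        conj (W e.1.1 * zt ^ e.1.2)).im =
        curv (Z e.1.1) (W e.1.1 * zt ^ e.1.2) (Z e.2.1) * normSq (t - Z e.1.1)) ∨
        (0 = e.2.1 ∧ ((t - Z e.1.1) * conj (W e.1.1 * zt ^ e.1.2)).im = 0)}).Finite := by
      refine Set.Finite.biUnion (Finset.finite_toSet _) (fun e he => ?_)
      obtain ⟨⟨u, k⟩, v, l⟩ := e
      have he' : ((u, k), (v, l)) ∈ E := List.mem_toFinset.mp he
      simp only
      set σ := W u * zt ^ k with hσ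
      rcases Nat.eq_zero_or_pos v with rfl | hv
      · have h1 := hk0 u k l he'
        refine (quad_finite 0 (σ.im) (((Z u) * conj σ).im) (Or.inr (Or.inl h1))).subset
          (fun t ht => ?_)
        simp only [Set.mem_ofPred_eq, lt_irrefl, false_and, true_and, false_or] at ht ⊢
        simp only [Complex.mul_im, Complex.sub_re, Complex.sub_im, Complex.ofReal_re,
          Complex.ofReal_im, Complex.conj_re, Complex.conj_im] at ht ⊢
        linear_combination -ht
      · have h1 := hk u k v l he' hv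
        set κ := curv (Z u) σ (Z v)
        refine (quad_finite κ (σ.im - 2 * κ * (Z u).re) (κ * normSq (Z u) +
          ((Z u) * conj σ).im) (Or.inl h1)).subset (fun t ht => ?_)
        simp only [Set.mem_ofPred_eq, hv, true_and, hv.ne, false_and, or_false] at ht ⊢
        simp only [Complex.mul_im, Complex.sub_re, Complex.sub_im, Complex.ofReal_re,
          Complex.ofReal_im, Complex.conj_re, Complex.conj_im, Complex.normSq_apply] at ht ⊢
        linear_combination -ht
    obtain ⟨t, -, ht⟩ := (Set.infinite_univ.sdiff (f1.union f2)).nonempty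
    simp only [Set.mem_union, not_or, Set.mem_iUnion, not_exists, Finset.mem_range,
      List.mem_toFinset, Set.mem_ofPred_eq] at ht
    obtain ⟨t1, t2⟩ := ht
    have t3 : ∀ u < n, (t : ℂ) ≠ Z u := fun u hu he => t1 u hu he.symm
    refine ⟨t, fun u hu he => t1 u hu he, fun u k v l he hv hcon => ?_, fun u k l he hcon => ?_⟩
    · rw [curv_eq_iff (t3 u (hlt u k v l he).1)] at hcon
      exact (t2 _ he).1 ⟨hv, hcon⟩
    · rw [curv_eq_iff (t3 u (hlt u k 0 l he).1), zero_mul] at hcon
      exact (t2 _ he).2 ⟨rfl, hcon⟩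
  set z : ℕ → ℂ := fun u => if u = 0 then 0 else (Z u - q)⁻¹ with hz
  set w : ℕ → ℂ := fun u => if u = 0 then 1 else -(W u * conj (Z u - q) / (Z u - q)) with hw
  have z0 : z 0 = 0 := by simp [hz]
  have z1 : ∀ u, 0 < u → z u = (Z u - q)⁻¹ := fun u hu => by simp [hz, hu.ne']
  have w0 : w 0 = 1 := by simp [hw]
  have w1 : ∀ u, 0 < u → w u = -(W u * conj (Z u - q) / (Z u - q)) := fun u hu => by
    simp [hw, hu.ne']
  have hqn : ∀ u < n, Z u - q ≠ 0 := fun u hu => sub_ne_zero.mpr (hq1 u hu)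
  -- outside of the range the direction does not matter
  set w' : ℕ → ℂ := fun u => if u < n then w u else 1 with hw'
  have hw'n : ∀ u < n, w' u = w u := fun u hu => by simp [hw', hu]
  have hcv : ∀ u k x, 0 < u → u < n → 0 < x → x < n → x ≠ u →
      curv (z u) (w' u * zt ^ k) (z x) = normSq (Z u - q) * curv (Z u) (W u * zt ^ k) (Z x) +
        ((Z u - q) * conj (W u * zt ^ k)).im := by
    intro u k x hu hun hx hxn hxu
    have hne : Z x - q ≠ Z u - q := fun h' => hxu (hZ x u hx hu hxn hun (sub_left_injective h'))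
    have h1 := curv_inv (σ := W u * zt ^ k) (hqn u hun) (hqn x hxn) hne
    rw [hw'n u hun, z1 u hu, z1 x hx, w1 u hu]
    have e1 : -(W u * conj (Z u - q) / (Z u - q)) * zt ^ k =
        -(W u * zt ^ k * conj (Z u - q) / (Z u - q)) := by ring
    rw [e1, h1, sub_sub_sub_cancel_right]
    rfl
  have hcv0 : ∀ u k, 0 < u → u < n →
      curv (z u) (w' u * zt ^ k) (z 0) = ((Z u - q) * conj (W u * zt ^ k)).im := by
    intro u k hu hun
    have h1 := curv_inv_zero (σ := W u * zt ^ k) (hqn u hun)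
    rw [hw'n u hun, z1 u hu, z0, w1 u hu]
    have e1 : -(W u * conj (Z u - q) / (Z u - q)) * zt ^ k =
        -(W u * zt ^ k * conj (Z u - q) / (Z u - q)) := by ring
    rw [e1, h1]
  have hns : ∀ u < n, normSq (Z u - q) ≠ 0 := fun u hu =>
    (Complex.normSq_pos.mpr (hqn u hu)).ne'
  have hcq : ∀ u k, u < n → curv (Z u) (W u * zt ^ k) q * normSq (Z u - q) =
      -((Z u - q) * conj (W u * zt ^ k)).im := by
    intro u k hu
    have h1 := (curv_eq_iff (σ := W u * zt ^ k) (hq1 u hu).symm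
      (curv (Z u) (W u * zt ^ k) q)).mp rfl
    have h2 : normSq (q - Z u) = normSq (Z u - q) := by
      rw [← Complex.normSq_neg]; congr 1; ring
    rw [h2] at h1
    rw [← h1]
    simp only [Complex.mul_im, Complex.sub_re, Complex.sub_im]
    ring
  refine rot_complete h (z := z) (w := w') ?_ ?_ ?_ ?_ ?_
  · intro u
    simp only [hw']
    split_ifs with hu
    · rcases Nat.eq_zero_or_pos u with rfl | hu0
      · rw [w0, norm_one]
      · rw [w1 u hu0, norm_neg, norm_div, norm_mul, hW, one_mul, Complex.norm_conj,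
          div_self (norm_ne_zero_iff.mpr (hqn u hu))]
    · exact norm_one
  · intro u v hu hv he
    rcases Nat.eq_zero_or_pos u with rfl | hu0 <;> rcases Nat.eq_zero_or_pos v with rfl | hv0
    · rfl
    · rw [z0, z1 v hv0] at he
      exact absurd he.symm (inv_ne_zero (hqn v hv))
    · rw [z0, z1 u hu0] at he
      exact absurd he (inv_ne_zero (hqn u hu))
    · rw [z1 u hu0, z1 v hv0] at he
      exact hZ u v hu0 hv0 hu hv (sub_left_injective (inv_injective he))
  · intro u k v l he
    have hu0 := hfirst u k v l he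
    obtain ⟨hun, hvn, -⟩ := hlt u k v l he
    rw [hw'n u hun, hw'n v hvn]
    rcases Nat.eq_zero_or_pos v with rfl | hv0
    · have h1 := hrel0 u k l he
      have hA := hqn u hun
      have hA' : conj (Z u - q) ≠ 0 := by rwa [Ne, map_eq_zero]
      rw [z0, w0, z1 u hu0, w1 u hu0, zero_sub, map_neg, map_inv₀]
      field_simp
      linear_combination h1
    · have h1 := hrel u k v l he hv0
      have h2 := chart_rel (w0 := 1) (hqn u hun) (hqn v hvn) (by simp)
        (a := W u * zt ^ k) (b := W v * zt ^ l) (by rw [sub_sub_sub_cancel_right]; exact h1)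
      rw [z1 u hu0, z1 v hv0, w1 u hu0, w1 v hv0]
      simp only [one_div, one_mul] at h2
      rw [← h2]
      ring
  · intro u k v l he
    have hu0 := hfirst u k v l he
    obtain ⟨hun, hvn, huv⟩ := hlt u k v l he
    rcases Nat.eq_zero_or_pos v with rfl | hv0
    · rw [hcv0 u k hu0 hun]
      intro hcon
      apply hq3 u k l he
      have := hcq u k hun
      rw [hcon, neg_zero] at this
      exact (mul_eq_zero.mp this).resolve_right (hns u hun)
    · rw [hcv u k v hu0 hun hv0 hvn huv.symm]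
      intro hcon
      apply hq2 u k v l he hv0
      have := hcq u k hun
      have h3 : (curv (Z u) (W u * zt ^ k) q - curv (Z u) (W u * zt ^ k) (Z v)) *
          normSq (Z u - q) = 0 := by linear_combination this - hcon
      exact sub_eq_zero.mp ((mul_eq_zero.mp h3).resolve_right (hns u hun))
  · intro u k v l he x hx hxu hxv
    have hu0 := hfirst u k v l he
    obtain ⟨hun, hvn, huv⟩ := hlt u k v l he
    rcases Nat.eq_zero_or_pos v with rfl | hv0
    · have hx0 : 0 < x := Nat.pos_of_ne_zero hxv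
      rw [hcv0 u k hu0 hun, hcv u k x hu0 hun hx0 hx hxu]
      intro hcon
      have h3 : normSq (Z u - q) * curv (Z u) (W u * zt ^ k) (Z x) = 0 := by
        linear_combination hcon
      exact ha0 u k l he x hx hx0 hxu ((mul_eq_zero.mp h3).resolve_left (hns u hun))
    · rw [hcv u k v hu0 hun hv0 hvn huv.symm]
      rcases Nat.eq_zero_or_pos x with rfl | hx0
      · rw [hcv0 u k hu0 hun]
        intro hcon
        have h3 : normSq (Z u - q) * curv (Z u) (W u * zt ^ k) (Z v) = 0 := by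
          linear_combination -hcon
        exact hk u k v l he hv0 ((mul_eq_zero.mp h3).resolve_left (hns u hun))
      · rw [hcv u k x hu0 hun hx0 hx hxu]
        intro hcon
        have h3 : normSq (Z u - q) * (curv (Z u) (W u * zt ^ k) (Z x) -
            curv (Z u) (W u * zt ^ k) (Z v)) = 0 := by linear_combination hcon
        exact ha u k v l he hv0 x hx hx0 hxu hxv
          (sub_eq_zero.mp ((mul_eq_zero.mp h3).resolve_left (hns u hun)))

end Pool.Agent.Lib.MP_235cc9_lc
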