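import Pool.Agent.Lib.MP_235cc9_lc.Defs

/-!
# Which pairs of tangent directions are joined by an arc
-/

namespace Pool.Agent.Lib.MP_235cc9_lc

open Complex ComplexConjugate

theorem IsCurve.ne {a b σ τ : ℂ} {S : Set ℂ} (h : IsCurve a b σ τ S) : a ≠ b := by
  induction h with
  | segment a b h => exact h
  | arc c r α β hr h h' =>
    intro he
    have h1 : (r : ℂ) ≠ 0 := by exact_mod_cast hr.ne'
    have h2 : exp (α * I) = exp (β * I) := by
      have := add_left_cancel he
      exact mul_left_cancel₀ h1 this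
    rw [Complex.exp_eq_exp_iff_exists_int] at h2
    obtain ⟨n, hn⟩ := h2
    have h3 : (α : ℂ) = β + n * (2 * Real.pi) := by
      have h4 : (α : ℂ) * I = (β + n * (2 * Real.pi)) * I := by rw [hn]; ring
      exact mul_right_cancel₀ I_ne_zero h4
    have h5 : α = β + n * (2 * Real.pi) := by exact_mod_cast h3
    have hpi := Real.pi_pos
    have h6 : (n : ℝ) < 0 := by
      by_contra hcon
      push Not at hcon
      nlinarith
    have h7 : (-1 : ℝ) < n := by
      by_contra hcon
      push Not at hcon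
      nlinarith
    have h8 : n < 0 := by exact_mod_cast h6
    have h9 : -1 < n := by exact_mod_cast h7
    omega
  | symm h ih => exact ih.symm

theorem IsCurve.rel {a b σ τ : ℂ} {S : Set ℂ} (h : IsCurve a b σ τ S) :
    ‖σ‖ = 1 ∧ ‖τ‖ = 1 ∧ σ * τ * conj (b - a) = -(b - a) := by
  induction h with
  | segment a b h =>
    have h1 : b - a ≠ 0 := sub_ne_zero.mpr h.symm
    have h2 : (‖b - a‖ : ℂ) ≠ 0 := by exact_mod_cast norm_ne_zero_iff.mpr h1
    have h3 : ‖a - b‖ = ‖b - a‖ := norm_sub_rev a b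
    refine ⟨?_, ?_, ?_⟩
    · rw [norm_div, Complex.norm_real, norm_norm, div_self (norm_ne_zero_iff.mpr h1)]
    · rw [norm_div, Complex.norm_real, norm_norm, div_self (by rw [h3]; exact norm_ne_zero_iff.mpr h1)]
    · rw [h3]
      have h4 : (b - a) * conj (b - a) = (‖b - a‖ : ℂ) ^ 2 := by
        rw [Complex.mul_conj, Complex.normSq_eq_norm_sq]
        push_cast
        ring
      rw [div_mul_div_comm, div_mul_eq_mul_div, div_eq_iff (mul_ne_zero h2 h2)]
      linear_combination (-(b - a)) * h4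
  | arc c r α β hr h h' =>
    have hn : ∀ x : ℝ, ‖exp (x * I)‖ = 1 := Complex.norm_exp_ofReal_mul_I
    refine ⟨?_, ?_, ?_⟩
    · rw [norm_mul, hn, Complex.norm_I, one_mul]
    · rw [norm_neg, norm_mul, hn, Complex.norm_I, one_mul]
    · have hc : ∀ x : ℝ, exp (x * I) * conj (exp (x * I)) = 1 := by
        intro x
        rw [Complex.mul_conj, Complex.normSq_eq_norm_sq, hn]
        norm_num
      have h1 := hc α
      have h2 := hc β
      have h3 : (c + r * exp (β * I) - (c + r * exp (α * I))) =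
          r * (exp (β * I) - exp (α * I)) := by ring
      rw [h3]
      simp only [map_mul, map_sub, Complex.conj_ofReal]
      have hI := Complex.I_mul_I
      linear_combination (r * exp (α * I)) * h2 - (r * exp (β * I)) * h1 -
        (exp (α * I) * exp (β * I) * r * (conj (exp (β * I)) - conj (exp (α * I)))) * hI
  | symm h ih =>
    obtain ⟨h1, h2, h3⟩ := ih
    refine ⟨h2, h1, ?_⟩
    simp only [map_sub] at h3 ⊢
    linear_combination -h3

/-- The signed curvature of the circle through `w` that leaves `a` in the direction `σ`. -/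
noncomputable def curv (a σ w : ℂ) : ℝ := ((w - a) * conj σ).im / normSq (w - a)

theorem curv_eq_iff {a σ w : ℂ} (hw : w ≠ a) (κ : ℝ) :
    curv a σ w = κ ↔ ((w - a) * conj σ).im = κ * normSq (w - a) := by
  rw [curv, div_eq_iff]
  exact (Complex.normSq_pos.mpr (sub_ne_zero.mpr hw)).ne'

theorem normSq_center {a σ w : ℂ} {κ : ℝ} (hσ : ‖σ‖ = 1) (hκ : κ ≠ 0) :
    normSq (w - (a + I * σ / (2 * κ))) = (1 / (2 * κ)) ^ 2 ↔
      ((w - a) * conj σ).im = κ * normSq (w - a) := by
  have h1 : σ.re ^ 2 + σ.im ^ 2 = 1 := by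
    have := Complex.normSq_eq_norm_sq σ
    rw [hσ, Complex.normSq_apply] at this
    nlinarith
  have e1 : (a + I * σ / (2 * κ)).re = a.re - σ.im / (2 * κ) := by
    have : I * σ / (2 * κ) = ((1 / (2 * κ) : ℝ) : ℂ) * (I * σ) := by
      push_cast
      field_simp
    rw [Complex.add_re, this, Complex.re_ofReal_mul]
    simp
    ring
  have e2 : (a + I * σ / (2 * κ)).im = a.im + σ.re / (2 * κ) := by
    have : I * σ / (2 * κ) = ((1 / (2 * κ) : ℝ) : ℂ) * (I * σ) := by
      push_cast
      field_simp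
    rw [Complex.add_im, this, Complex.im_ofReal_mul]
    simp
    ring
  rw [Complex.normSq_apply, Complex.normSq_apply, Complex.sub_re, Complex.sub_im, e1, e2,
    Complex.mul_im, Complex.conj_re, Complex.conj_im, Complex.sub_re, Complex.sub_im]
  have h2 : (2 * κ) ≠ 0 := by positivity
  constructor
  · intro h
    field_simp at h
    have h3 : (4 * κ) * ((w.re - a.re) * -σ.im + (w.im - a.im) * σ.re) = (4 * κ) *
        (κ * ((w.re - a.re) * (w.re - a.re) + (w.im - a.im) * (w.im - a.im))) := by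
      linear_combination h1 - h
    exact mul_left_cancel₀ (by positivity) h3
  · intro h
    field_simp
    linear_combination h1 - 4 * κ * h

theorem two_curv {a b σ τ : ℂ} (hab : a ≠ b) (hσ : ‖σ‖ = 1)
    (hrel : σ * τ * conj (b - a) = -(b - a)) :
    2 * (curv a σ b : ℂ) * (b - a) = I * (σ + τ) := by
  have hc : b - a ≠ 0 := sub_ne_zero.mpr hab.symm
  have hc' : conj (b - a) ≠ 0 := by rwa [Ne, map_eq_zero]
  have h1 : σ * conj σ = 1 := by
    rw [Complex.mul_conj, Complex.normSq_eq_norm_sq, hσ]; norm_num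
  have h2 := (curv_eq_iff hab.symm (curv a σ b)).mp rfl
  have h3 : (curv a σ b : ℂ) * ((b - a) * conj (b - a)) =
      ((b - a) * conj σ - conj (b - a) * σ) / (2 * I) := by
    have h4 : (((b - a) * conj σ).im : ℂ) = ((b - a) * conj σ - conj (b - a) * σ) / (2 * I) := by
      rw [Complex.im_eq_sub_conj]
      simp only [map_mul, Complex.conj_conj]
    rw [← h4, h2, Complex.mul_conj]
    push_cast
    ring
  have h5 : τ * conj (b - a) = -(b - a) * conj σ := by
    linear_combination (conj σ) * hrel - (τ * conj (b - a)) * h1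
  have hI := Complex.I_mul_I
  have h6 : 2 * (curv a σ b : ℂ) * (b - a) * conj (b - a) = I * (σ + τ) * conj (b - a) := by
    have h7 : (2 : ℂ) * I ≠ 0 := by simp
    have h8 : (curv a σ b : ℂ) * ((b - a) * conj (b - a)) * (2 * I) =
      ((b - a) * conj σ - conj (b - a) * σ) := by
      rw [h3]; field_simp
    linear_combination (-I) * h8 - I * h5 + 2 * (curv a σ b : ℂ) * (b - a) * conj (b - a) * hI
  exact mul_right_cancel₀ hc' h6

theorem curv_swap {a b σ τ : ℂ} (hab : a ≠ b) (hσ : ‖σ‖ = 1)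
    (hrel : σ * τ * conj (b - a) = -(b - a)) (hτ : ‖τ‖ = 1) : curv b τ a = -curv a σ b := by
  have h1 := two_curv hab hσ hrel
  have hrel' : τ * σ * conj (a - b) = -(a - b) := by
    simp only [map_sub] at hrel ⊢
    linear_combination -hrel
  have h2 := two_curv hab.symm hτ hrel'
  have hc : b - a ≠ 0 := sub_ne_zero.mpr hab.symm
  have h3 : ((curv b τ a : ℝ) : ℂ) = -(curv a σ b : ℂ) := by
    have : (2 * (b - a)) * ((curv b τ a : ℝ) : ℂ) = (2 * (b - a)) * (-(curv a σ b : ℂ)) := by
      linear_combination h1 - h2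
    exact mul_left_cancel₀ (mul_ne_zero two_ne_zero hc) this
  exact_mod_cast h3

theorem curv_swap_iff {a b σ τ z : ℂ} (hab : a ≠ b) (hσ : ‖σ‖ = 1) (hτ : ‖τ‖ = 1)
    (hrel : σ * τ * conj (b - a) = -(b - a)) (hk : curv a σ b ≠ 0) (hza : z ≠ a) (hzb : z ≠ b) :
    curv a σ z = curv a σ b ↔ curv b τ z = curv b τ a := by
  have h1 := two_curv hab hσ hrel
  have h2 := curv_swap hab hσ hrel hτ
  have hk' : ((curv a σ b : ℝ) : ℂ) ≠ 0 := by exact_mod_cast hk
  rw [curv_eq_iff hza, curv_eq_iff hzb, ← normSq_center hσ hk,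
    ← normSq_center hτ (by rw [h2]; exact neg_ne_zero.mpr hk)]
  have h3 : a + I * σ / (2 * (curv a σ b : ℝ)) = b + I * τ / (2 * (curv b τ a : ℝ)) := by
    rw [h2]
    push_cast
    field_simp
    linear_combination -h1
  rw [h3, h2]
  have : (1 / (2 * -curv a σ b)) ^ 2 = (1 / (2 * curv a σ b)) ^ 2 := by
    rw [mul_neg, one_div, one_div, inv_neg, neg_sq]
  rw [this]

theorem norm_of_rel {a b σ τ : ℂ} (hab : a ≠ b) (hσ : ‖σ‖ = 1)
    (hrel : σ * τ * conj (b - a) = -(b - a)) : ‖τ‖ = 1 := by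
  have h1 : ‖b - a‖ ≠ 0 := norm_ne_zero_iff.mpr (sub_ne_zero.mpr hab.symm)
  have h2 := congrArg norm hrel
  rw [norm_mul, norm_mul, hσ, one_mul, norm_neg, Complex.norm_conj] at h2
  exact mul_right_cancel₀ h1 (by rw [h2, one_mul])

theorem exists_curve_pos {a b σ τ : ℂ} (hab : a ≠ b) (hσ : ‖σ‖ = 1)
    (hrel : σ * τ * conj (b - a) = -(b - a)) (hk : 0 < curv a σ b) :
    ∃ S, IsCurve a b σ τ S ∧ ∀ z ∈ S, z ≠ a → curv a σ z = curv a σ b := by
  set κ := curv a σ b with hκ
  set R : ℝ := 1 / (2 * κ) with hR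
  have hR0 : 0 < R := by positivity
  have hRC : (R : ℂ) ≠ 0 := by exact_mod_cast hR0.ne'
  set C : ℂ := a + I * σ / (2 * κ) with hC
  have hC' : C = a + R * (I * σ) := by
    rw [hC, hR]; push_cast; ring
  set α : ℝ := arg (-I * σ) with hα
  have hα1 : exp (α * I) = -I * σ := by
    have h := Complex.norm_mul_exp_arg_mul_I (-I * σ)
    rwa [norm_mul, norm_neg, Complex.norm_I, hσ, one_mul, Complex.ofReal_one, one_mul] at h
  have hI := Complex.I_mul_I
  have ha : C + R * exp (α * I) = a := by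
    rw [hC', hα1]; ring
  have hσ' : I * exp (α * I) = σ := by
    rw [hα1]; linear_combination (-σ) * hI
  have hbC : ‖b - C‖ = R := by
    have h1 := (normSq_center (w := b) (a := a) hσ hk.ne').mpr
      ((curv_eq_iff hab.symm κ).mp hκ.symm)
    rw [Complex.normSq_eq_norm_sq, ← hC, ← hR] at h1
    exact (pow_left_inj₀ (norm_nonneg _) hR0.le two_ne_zero).mp h1
  set ρ : ℂ := (b - C) / (R * exp (α * I)) with hρ
  have hexp : exp (α * I) ≠ 0 := Complex.exp_ne_zero _
  have hρn : ‖ρ‖ = 1 := by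
    rw [hρ, norm_div, norm_mul, hbC, Complex.norm_exp_ofReal_mul_I, mul_one, Complex.norm_real,
      Real.norm_eq_abs, abs_of_pos hR0, div_self hR0.ne']
  have hρb : b = C + R * (exp (α * I) * ρ) := by
    rw [hρ]; field_simp; ring
  have hρ1 : arg ρ ≠ 0 := by
    intro h0
    have h := Complex.norm_mul_exp_arg_mul_I ρ
    rw [hρn, h0] at h
    simp only [Complex.ofReal_one, one_mul, Complex.ofReal_zero, zero_mul, Complex.exp_zero] at h
    apply hab
    rw [hρb, ← h, mul_one, ha]
  have hargexp : exp (arg ρ * I) = ρ := by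
    have h := Complex.norm_mul_exp_arg_mul_I ρ
    rwa [hρn, Complex.ofReal_one, one_mul] at h
  have hpi := Real.pi_pos
  obtain ⟨φ, h1, h2, h3⟩ : ∃ φ : ℝ, 0 < φ ∧ φ < 2 * Real.pi ∧ exp (φ * I) = ρ := by
    rcases lt_or_gt_of_ne hρ1 with h | h
    · refine ⟨arg ρ + 2 * Real.pi, ?_, by linarith, ?_⟩
      · have := Complex.neg_pi_lt_arg ρ
        linarith
      · push_cast
        rw [add_mul, Complex.exp_add, hargexp, Complex.exp_two_pi_mul_I, mul_one]
    · exact ⟨arg ρ, h, by have := Complex.arg_le_pi ρ; linarith, hargexp⟩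
  have hb : C + R * exp (((α + φ : ℝ) : ℂ) * I) = b := by
    push_cast
    rw [add_mul, Complex.exp_add, h3, ← hρb]
  have hcur := IsCurve.arc C R α (α + φ) hR0 (by linarith) (by linarith)
  rw [ha, hb, hσ'] at hcur
  have hrel2 := hcur.rel.2.2
  have hc : conj (b - a) ≠ 0 := by
    rw [Ne, map_eq_zero]; exact sub_ne_zero.mpr hab.symm
  have hσ0 : σ ≠ 0 := by
    rw [← norm_ne_zero_iff, hσ]; exact one_ne_zero
  have hτ : -(I * exp (((α + φ : ℝ) : ℂ) * I)) = τ := by
    have h5 : σ * conj (b - a) * (-(I * exp (((α + φ : ℝ) : ℂ) * I))) = σ * conj (b - a) * τ := by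
      linear_combination hrel2 - hrel
    exact mul_left_cancel₀ (mul_ne_zero hσ0 hc) h5
  rw [hτ] at hcur
  refine ⟨_, hcur, ?_⟩
  rintro z ⟨θ, -, -, rfl⟩ hz
  rw [curv_eq_iff hz, ← normSq_center hσ hk.ne', ← hC, add_sub_cancel_left, map_mul,
    Complex.normSq_ofReal, Complex.normSq_eq_norm_sq, Complex.norm_exp_ofReal_mul_I]
  ring

/-- Two points with compatible directions are joined by a circular arc. -/
theorem exists_curve {a b σ τ : ℂ} (hab : a ≠ b) (hσ : ‖σ‖ = 1)
    (hrel : σ * τ * conj (b - a) = -(b - a)) (hk : curv a σ b ≠ 0) :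
    ∃ S, IsCurve a b σ τ S ∧ ∀ z ∈ S, z ≠ a → curv a σ z = curv a σ b := by
  rcases lt_or_gt_of_ne hk with h | h
  · have hτ := norm_of_rel hab hσ hrel
    have hs := curv_swap hab hσ hrel hτ
    have hrel' : τ * σ * conj (a - b) = -(a - b) := by
      simp only [map_sub] at hrel ⊢
      linear_combination -hrel
    obtain ⟨S, h1, h2⟩ := exists_curve_pos hab.symm hτ hrel' (by rw [hs]; linarith)
    refine ⟨S, h1.symm, fun z hz hza => ?_⟩
    by_cases hzb : z = b
    · rw [hzb]
    · exact (curv_swap_iff hab hσ hτ hrel hk hza hzb).mpr (h2 z hz hzb)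
  · exact exists_curve_pos hab hσ hrel h

end Pool.Agent.Lib.MP_235cc9_lc
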