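import Pool.Agent.Lib.MP_0f8b55_lc.Defs
import Mathlib.Analysis.SpecialFunctions.Complex.Circle
import Mathlib.Analysis.Complex.Norm

/-!
# Lombardi drawings

All definitions used in the statement of the result are in this file and in
`Pool.Agent.Lib.MP_0f8b55_lc.Defs` (decision problems, polynomial time reductions, the existential
theory of the reals).
-/

namespace Pool.Agent.Lib.MP_235cc9_lc

open Complex Pool.Agent.Lib.MP_0f8b55_lc

/-! ### Segments and circular arcs -/

/-- `IsCurve a b σ τ S`: the set `S` is a straight segment or a circular arc joining the points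
`a ≠ b` of the plane, without its two end points; `σ` is the unit tangent vector of the curve at
`a` and `τ` is the unit tangent vector at `b`, both pointing into the curve.
The arcs are `c + r e^{iθ}`, `α < θ < β`, with `r > 0` and `α < β < α + 2π`. -/
inductive IsCurve : ℂ → ℂ → ℂ → ℂ → Set ℂ → Prop
  | segment (a b : ℂ) (h : a ≠ b) :
      IsCurve a b ((b - a) / (‖b - a‖ : ℂ)) ((a - b) / (‖a - b‖ : ℂ))
        {z | ∃ t : ℝ, 0 < t ∧ t < 1 ∧ z = a + t * (b - a)}
  | arc (c : ℂ) (r α β : ℝ) (hr : 0 < r) (h : α < β) (h' : β < α + 2 * Real.pi) :
      IsCurve (c + r * exp (α * I)) (c + r * exp (β * I)) (I * exp (α * I)) (-(I * exp (β * I)))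
        {z | ∃ θ : ℝ, α < θ ∧ θ < β ∧ z = c + r * exp (θ * I)}
  | symm {a b σ τ : ℂ} {S : Set ℂ} (h : IsCurve a b σ τ S) : IsCurve b a τ σ S

/-! ### Graphs with a rotation system -/

/-- A finite simple graph with a rotation system, given by the list of its rotations: the vertices
are `0, …, L.length - 1`, and the entry of the list `L` at `u` is the list of the neighbours of `u`
in (counterclockwise) cyclic order. -/
def IsRotationSystem (L : List (List ℕ)) : Prop :=
  ∀ (u : ℕ) (l : List ℕ), L[u]? = some l → l.Nodup ∧ ∀ v ∈ l, v ≠ u ∧ ∃ l', L[v]? = some l' ∧ u ∈ l'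

/-- The neighbours of `u` in cyclic order. -/
def nbrs (L : List (List ℕ)) (u : ℕ) : List ℕ := L.getD u []

/-- The direction in which the edge `uv` leaves the vertex `u`, when the neighbour of `u` that comes
first in the list is seen in the direction `θ u`: the edges at `u` leave in the equally
spaced directions `θ u + 2π k / d`, where `d` is the degree of `u`, in the counterclockwise cyclic
order of the rotation system. -/
noncomputable def edgeDir (L : List (List ℕ)) (θ : ℕ → ℝ) (u v : ℕ) : ℂ :=
  exp (((θ u + 2 * Real.pi * ((nbrs L u).idxOf v : ℝ) / ((nbrs L u).length : ℝ) : ℝ) : ℂ) * I)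

/-- The graph with the given rotation system has a Lombardi drawing that respects the rotation
system: the vertices are distinct points `z u` of the plane, every edge `uv` is a circular arc or a
straight segment, the edges at a vertex `u` leave `u` in equally spaced directions in the
prescribed counterclockwise cyclic order, and no edge passes through a vertex other than its
end points. Edges may cross. -/
def HasLombardiDrawing (L : List (List ℕ)) : Prop :=
  ∃ (z : ℕ → ℂ) (θ : ℕ → ℝ),
    (∀ u v, u < L.length → v < L.length → z u = z v → u = v) ∧
    ∀ u v, u < v → v < L.length → v ∈ nbrs L u →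
      ∃ S : Set ℂ, IsCurve (z u) (z v) (edgeDir L θ u v) (edgeDir L θ v u) S ∧
        ∀ w, w < L.length → w ≠ u → w ≠ v → z w ∉ S

/-- The degree-`Δ` restriction of Lombardi drawability with rotation system: the instances are the
finite simple graphs of maximum degree at most `Δ` with a rotation system. -/
def lombardi (Δ : ℕ) : Problem where
  Inst := {L : List (List ℕ) // IsRotationSystem L ∧ ∀ l ∈ L, l.length ≤ Δ}
  Letter := Bool
  fin := inferInstance
  enc := fun L => codeList (codeList codeNat) L.1
  inj := fun _ _ h => Subtype.ext (selfDelimiting_nat.list.list.injective h)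
  Yes := fun L => HasLombardiDrawing L.1

/-- A problem is `∃ℝ`-hard: every problem in `∃ℝ` reduces to it in polynomial time. -/
def ERHard (P : Problem) : Prop := ∀ Q, InER Q → Reduces Q P

end Pool.Agent.Lib.MP_235cc9_lc
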