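import Pool.Agent.Lib.MP_235cc9_lc.Geo

/-!
# Groups of vertices at generic heights
-/

set_option linter.unusedSimpArgs false

namespace Pool.Agent.Lib.MP_235cc9_lc

open Complex ComplexConjugate

theorem cubic_finite (A B C D : ℝ) (h : A ≠ 0 ∨ B ≠ 0 ∨ C ≠ 0 ∨ D ≠ 0) :
    {t : ℝ | A * t ^ 3 + B * t ^ 2 + C * t + D = 0}.Finite := by
  set p : Polynomial ℝ := Polynomial.C A * Polynomial.X ^ 3 + Polynomial.C B * Polynomial.X ^ 2 +
    Polynomial.C C * Polynomial.X + Polynomial.C D with hp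
  have hp0 : p ≠ 0 := by
    intro h0
    have c3 : p.coeff 3 = A := by simp [hp, Polynomial.coeff_X, Polynomial.coeff_C,
      Polynomial.coeff_X_pow]
    have c2 : p.coeff 2 = B := by simp [hp, Polynomial.coeff_X, Polynomial.coeff_C,
      Polynomial.coeff_X_pow]
    have c1 : p.coeff 1 = C := by simp [hp, Polynomial.coeff_X_pow, Polynomial.coeff_C]
    have c0 : p.coeff 0 = D := by simp [hp]
    rw [h0] at c3 c2 c1 c0
    simp only [Polynomial.coeff_zero] at c3 c2 c1 c0
    rcases h with h | h | h | h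
    · exact h c3.symm
    · exact h c2.symm
    · exact h c1.symm
    · exact h c0.symm
  refine (Polynomial.finite_setOfPred_isRoot hp0).subset (fun t ht => ?_)
  simp only [Set.mem_ofPred_eq, hp, Polynomial.IsRoot.def, Polynomial.eval_add, Polynomial.eval_mul,
    Polynomial.eval_C, Polynomial.eval_pow, Polynomial.eval_X] at ht ⊢
  exact ht

theorem avoid_finite {a1 b1 n1 a2 b2 n2 c s : ℝ} (hc : c ≠ 0) (hn : ¬ (n1 = 0 ∧ n2 = 0))
    (h2 : n2 = 0 → b2 * c - a2 * s ≠ 0) (h1 : n1 = 0 → a1 ≠ 0 ∨ b1 ≠ 0)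
    (h12 : n1 = n2 → a2 = 0 ∧ (a1 ≠ 0 ∨ b1 ≠ b2)) :
    {t : ℝ | ((b1 + n1 * t) * c - a1 * s) * (a2 ^ 2 + (b2 + n2 * t) ^ 2) =
      ((b2 + n2 * t) * c - a2 * s) * (a1 ^ 2 + (b1 + n1 * t) ^ 2)}.Finite := by
  have key := cubic_finite (c * n1 * n2 * (n2 - n1))
    ((b1 * c - a1 * s) * n2 ^ 2 + 2 * n1 * c * b2 * n2 - ((b2 * c - a2 * s) * n1 ^ 2 +
      2 * n2 * c * b1 * n1))
    ((b1 * c - a1 * s) * 2 * b2 * n2 + n1 * c * (a2 ^ 2 + b2 ^ 2) -
      ((b2 * c - a2 * s) * 2 * b1 * n1 + n2 * c * (a1 ^ 2 + b1 ^ 2)))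
    ((b1 * c - a1 * s) * (a2 ^ 2 + b2 ^ 2) - (b2 * c - a2 * s) * (a1 ^ 2 + b1 ^ 2)) ?_
  · refine key.subset (fun t ht => ?_)
    simp only [Set.mem_ofPred_eq] at ht ⊢
    linear_combination ht
  · by_cases e2 : n2 = 0
    · have e1 : n1 ≠ 0 := fun h => hn ⟨h, e2⟩
      right; left
      rw [e2]
      have : (b1 * c - a1 * s) * 0 ^ 2 + 2 * n1 * c * b2 * 0 - ((b2 * c - a2 * s) * n1 ^ 2 +
        2 * 0 * c * b1 * n1) = -((b2 * c - a2 * s) * n1 ^ 2) := by ring
      rw [this]
      exact neg_ne_zero.mpr (mul_ne_zero (h2 e2) (pow_ne_zero 2 e1))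
    · by_cases e1 : n1 = 0
      · by_cases e3 : b1 * c - a1 * s = 0
        · right; right; left
          rw [e1, e3]
          have h3 : a1 ^ 2 + b1 ^ 2 ≠ 0 := by
            rcases h1 e1 with h | h
            · have := pow_pos (abs_pos.mpr h) 2
              rw [sq_abs] at this
              positivity
            · have := pow_pos (abs_pos.mpr h) 2
              rw [sq_abs] at this
              positivity
          have : 0 * 2 * b2 * n2 + 0 * c * (a2 ^ 2 + b2 ^ 2) -
            ((b2 * c - a2 * s) * 2 * b1 * 0 + n2 * c * (a1 ^ 2 + b1 ^ 2)) =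
            -(n2 * c * (a1 ^ 2 + b1 ^ 2)) := by ring
          rw [this]
          exact neg_ne_zero.mpr (mul_ne_zero (mul_ne_zero e2 hc) h3)
        · right; left
          rw [e1]
          have : (b1 * c - a1 * s) * n2 ^ 2 + 2 * 0 * c * b2 * n2 - ((b2 * c - a2 * s) * 0 ^ 2 +
            2 * n2 * c * b1 * 0) = (b1 * c - a1 * s) * n2 ^ 2 := by ring
          rw [this]
          exact mul_ne_zero e3 (pow_ne_zero 2 e2)
      · by_cases e4 : n1 = n2
        · obtain ⟨ha2, hD⟩ := h12 e4
          by_cases e3 : (b2 - b1) * c - a1 * s = 0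
          · right; right; left
            rw [← e4, ha2]
            have h3 : a1 ^ 2 + (b1 - b2) ^ 2 ≠ 0 := by
              rcases hD with h | h
              · have := pow_pos (abs_pos.mpr h) 2
                rw [sq_abs] at this
                positivity
              · have := pow_pos (abs_pos.mpr (sub_ne_zero.mpr h)) 2
                rw [sq_abs] at this
                positivity
            have : (b1 * c - a1 * s) * 2 * b2 * n1 + n1 * c * (0 ^ 2 + b2 ^ 2) -
                ((b2 * c - 0 * s) * 2 * b1 * n1 + n1 * c * (a1 ^ 2 + b1 ^ 2)) =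
                -(n1 * c * (a1 ^ 2 + (b1 - b2) ^ 2)) := by
              linear_combination (2 * b2 * n1) * e3
            rw [this]
            exact neg_ne_zero.mpr (mul_ne_zero (mul_ne_zero e1 hc) h3)
          · right; left
            rw [← e4, ha2]
            have : (b1 * c - a1 * s) * n1 ^ 2 + 2 * n1 * c * b2 * n1 - ((b2 * c - 0 * s) * n1 ^ 2 +
                2 * n1 * c * b1 * n1) = ((b2 - b1) * c - a1 * s) * n1 ^ 2 := by ring
            rw [this]
            exact mul_ne_zero e3 (pow_ne_zero 2 e1)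
        · left
          exact mul_ne_zero (mul_ne_zero (mul_ne_zero hc e1) e2)
            (sub_ne_zero.mpr (fun h => e4 h.symm))

/-- The position at height parameter `t`. -/
noncomputable def lift (P : ℕ → ℂ) (γ : ℕ → ℕ) (t : ℝ) (u : ℕ) : ℂ := P u + ((γ u : ℝ) * t : ℝ) * I

theorem lift_re (P : ℕ → ℂ) (γ : ℕ → ℕ) (t : ℝ) (u : ℕ) : (lift P γ t u).re = (P u).re := by
  simp [lift]

theorem lift_im (P : ℕ → ℂ) (γ : ℕ → ℕ) (t : ℝ) (u : ℕ) :
    (lift P γ t u).im = (P u).im + γ u * t := by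
  simp [lift]

theorem lift_sub {P : ℕ → ℂ} {γ : ℕ → ℕ} {t : ℝ} {u v : ℕ} (h : γ u = γ v) :
    lift P γ t u - lift P γ t v = P u - P v := by
  simp [lift, h]

/-- What is needed about the positions inside the groups. -/
structure GroupData (n : ℕ) (E : List Link) (P W : ℕ → ℂ) (γ : ℕ → ℕ) : Prop where
  norm : ∀ u, ‖W u‖ = 1
  first : ∀ u k v l, ((u, k), (v, l)) ∈ E → 0 < u ∧ W u = 1 ∧ k % 2 = 1
  dist : ∀ u v, 0 < u → u < n → 0 < v → v < n → γ u = γ v → u ≠ v → P u ≠ P v
  rel : ∀ u k v l t, ((u, k), (v, l)) ∈ E → 0 < v →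
    W v * (zt ^ k * zt ^ l) * conj (lift P γ t v - lift P γ t u) =
      -(lift P γ t v - lift P γ t u)
  same : ∀ u k v l, ((u, k), (v, l)) ∈ E → 0 < v → γ u = γ v →
    ((P v - P u) * conj (zt ^ k)).im ≠ 0 ∧ ∀ x, 0 < x → x < n → γ x = γ u → x ≠ u → x ≠ v →
      ((P x - P u) * conj (zt ^ k)).im * normSq (P v - P u) ≠
        ((P v - P u) * conj (zt ^ k)).im * normSq (P x - P u)
  diff : ∀ u k v l, ((u, k), (v, l)) ∈ E → 0 < v → γ u ≠ γ v → (P v).re = (P u).re
  rel0 : ∀ u k l, ((u, k), (0, l)) ∈ E → zt ^ k * zt ^ l = 1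
  same0 : ∀ u k l, ((u, k), (0, l)) ∈ E → ∀ x, 0 < x → x < n → γ x = γ u → x ≠ u →
    ((P x - P u) * conj (zt ^ k)).im ≠ 0

theorem im_line_finite {P : ℕ → ℂ} {γ : ℕ → ℕ} {u v : ℕ} {σ : ℂ} (hσ : σ ^ 8 = -1)
    (h : γ v ≠ γ u) :
    {t : ℝ | ((lift P γ t v - lift P γ t u) * conj σ).im = 0}.Finite := by
  have hc := re_ne_of_odd hσ
  have hn : ((γ v : ℝ) - γ u) * σ.re ≠ 0 := by
    refine mul_ne_zero (sub_ne_zero.mpr ?_) hc
    exact_mod_cast h
  refine (quad_finite 0 (((γ v : ℝ) - γ u) * σ.re) (((P v - P u) * conj σ).im)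
    (Or.inr (Or.inl hn))).subset (fun t ht => ?_)
  simp only [Set.mem_ofPred_eq, Complex.mul_im, Complex.sub_re, Complex.sub_im, lift_re, lift_im,
    Complex.conj_re, Complex.conj_im] at ht ⊢
  linear_combination ht

/-- A configuration of groups gives a drawing. -/
theorem GroupData.drawing {n : ℕ} {E : List Link} (h : PortGraph n E) {P W : ℕ → ℂ} {γ : ℕ → ℕ}
    (D : GroupData n E P W γ) : HasLombardiDrawing (rot n E) := by
  have hodd : ∀ {u k v l}, ((u, k), (v, l)) ∈ E → (zt ^ k) ^ 8 = -1 := fun he =>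
    zt_odd (D.first _ _ _ _ he).2.2
  have hlt : ∀ u k v l, ((u, k), (v, l)) ∈ E → u < n ∧ v < n ∧ u ≠ v := fun u k v l he => by
    have hE : ((u, k), (v, l)) ∈ symE E := mem_symE.mpr (Or.inl he)
    exact ⟨(h.bd _ _ hE).1, (h.bd _ _ (symE_symm hE)).1, h.loop _ _ hE⟩
  -- the bad parameters
  have f1 : (⋃ u ∈ Finset.range n, ⋃ v ∈ Finset.range n,
      {t : ℝ | γ u ≠ γ v ∧ lift P γ t u = lift P γ t v}).Finite := by
    refine Set.Finite.biUnion (Finset.finite_toSet _) (fun u _ => ?_)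
    refine Set.Finite.biUnion (Finset.finite_toSet _) (fun v _ => ?_)
    by_cases hg : γ u = γ v
    · refine Set.finite_empty.subset (fun t ht => ?_)
      simp only [Set.mem_ofPred_eq] at ht
      exact absurd hg ht.1
    · have hn : ((γ u : ℝ) - γ v) ≠ 0 := sub_ne_zero.mpr (by exact_mod_cast hg)
      refine (quad_finite 0 ((γ u : ℝ) - γ v) ((P u).im - (P v).im)
        (Or.inr (Or.inl hn))).subset (fun t ht => ?_)
      simp only [Set.mem_ofPred_eq] at ht ⊢
      have := congrArg Complex.im ht.2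
      rw [lift_im, lift_im] at this
      linear_combination this
  have f2 : (⋃ e ∈ E.toFinset, {t : ℝ | γ e.1.1 ≠ γ e.2.1 ∧
      ((lift P γ t e.2.1 - lift P γ t e.1.1) * conj (zt ^ e.1.2)).im = 0}).Finite := by
    refine Set.Finite.biUnion (Finset.finite_toSet _) (fun e he => ?_)
    obtain ⟨⟨u, k⟩, v, l⟩ := e
    have he' : ((u, k), (v, l)) ∈ E := List.mem_toFinset.mp he
    by_cases hg : γ v = γ u
    · refine Set.finite_empty.subset (fun t ht => ?_)
      simp only [Set.mem_ofPred_eq] at ht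
      exact absurd hg.symm ht.1
    · exact (im_line_finite (P := P) (hodd he') hg).subset (fun t ht => ht.2)
  have f3 : (⋃ e ∈ E.toFinset, ⋃ x ∈ Finset.range n, {t : ℝ | γ x ≠ γ e.1.1 ∧
      ((lift P γ t x - lift P γ t e.1.1) * conj (zt ^ e.1.2)).im = 0}).Finite := by
    refine Set.Finite.biUnion (Finset.finite_toSet _) (fun e he => ?_)
    refine Set.Finite.biUnion (Finset.finite_toSet _) (fun x _ => ?_)
    obtain ⟨⟨u, k⟩, v, l⟩ := e
    have he' : ((u, k), (v, l)) ∈ E := List.mem_toFinset.mp he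
    by_cases hg : γ x = γ u
    · refine Set.finite_empty.subset (fun t ht => ?_)
      simp only [Set.mem_ofPred_eq] at ht
      exact absurd hg ht.1
    · exact (im_line_finite (P := P) (hodd he') hg).subset (fun t ht => ht.2)
  have f4 : (⋃ e ∈ E.toFinset, ⋃ x ∈ Finset.range n, {t : ℝ | 0 < e.2.1 ∧ 0 < x ∧ x ≠ e.1.1 ∧
      x ≠ e.2.1 ∧
      ((lift P γ t x - lift P γ t e.1.1) * conj (zt ^ e.1.2)).im *
        normSq (lift P γ t e.2.1 - lift P γ t e.1.1) =
      ((lift P γ t e.2.1 - lift P γ t e.1.1) * conj (zt ^ e.1.2)).im *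
        normSq (lift P γ t x - lift P γ t e.1.1)}).Finite := by
    refine Set.Finite.biUnion (Finset.finite_toSet _) (fun e he => ?_)
    refine Set.Finite.biUnion (Finset.finite_toSet _) (fun x hx => ?_)
    obtain ⟨⟨u, k⟩, v, l⟩ := e
    have he' : ((u, k), (v, l)) ∈ E := List.mem_toFinset.mp he
    have hxn : x < n := Finset.mem_range.mp hx
    obtain ⟨hun, hvn, huv⟩ := hlt u k v l he'
    have hu0 := (D.first _ _ _ _ he').1
    simp only
    by_cases hv : 0 < v
    swap
    · exact Set.finite_empty.subset (fun t ht => absurd ht.1 hv)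
    by_cases hx0 : 0 < x
    swap
    · exact Set.finite_empty.subset (fun t ht => absurd ht.2.1 hx0)
    by_cases hxu : x = u
    · exact Set.finite_empty.subset (fun t ht => absurd hxu ht.2.2.1)
    by_cases hxv : x = v
    · exact Set.finite_empty.subset (fun t ht => absurd hxv ht.2.2.2.1)
    by_cases hall : γ x = γ u ∧ γ v = γ u
    · refine Set.finite_empty.subset (fun t ht => ?_)
      simp only [Set.mem_ofPred_eq] at ht
      have h3 := (D.same u k v l he' hv hall.2.symm).2 x hx0 hxn hall.1 hxu hxv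
      rw [lift_sub hall.1, lift_sub hall.2] at ht
      exact h3 ht.2.2.2.2
    have hre : ∀ a b : ℕ, P a ≠ P b → ((P a).re - (P b).re ≠ 0 ∨ (P a).im - (P b).im ≠ 0) := by
      intro a b hab
      by_contra hcon
      push Not at hcon
      exact hab (Complex.ext (by linarith [hcon.1]) (by linarith [hcon.2]))
    have key := avoid_finite (a1 := (P x).re - (P u).re) (b1 := (P x).im - (P u).im)
      (n1 := (γ x : ℝ) - γ u) (a2 := (P v).re - (P u).re) (b2 := (P v).im - (P u).im)
      (n2 := (γ v : ℝ) - γ u) (c := (zt ^ k).re) (s := (zt ^ k).im) (re_ne_of_odd (hodd he')) ?_ ?_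
      ?_ ?_
    · refine key.subset (fun t ht => ?_)
      simp only [Set.mem_ofPred_eq] at ht ⊢
      have h4 := ht.2.2.2.2
      simp only [Complex.mul_im, Complex.sub_re, Complex.sub_im, lift_re, lift_im,
        Complex.conj_re, Complex.conj_im, Complex.normSq_apply] at h4
      linear_combination h4
    · rintro ⟨h1, h2⟩
      have e1 : (γ x : ℝ) = γ u := sub_eq_zero.mp h1
      have e2 : (γ v : ℝ) = γ u := sub_eq_zero.mp h2
      exact hall ⟨by exact_mod_cast e1, by exact_mod_cast e2⟩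
    · intro h2
      have e2 : (γ v : ℝ) = γ u := sub_eq_zero.mp h2
      have e2' : γ u = γ v := by exact_mod_cast e2.symm
      have h3 := (D.same u k v l he' hv e2').1
      intro h4
      apply h3
      simp only [Complex.mul_im, Complex.sub_re, Complex.sub_im, Complex.conj_re, Complex.conj_im]
      linear_combination h4
    · intro h1
      have e1 : (γ x : ℝ) = γ u := sub_eq_zero.mp h1
      have e1' : γ x = γ u := by exact_mod_cast e1
      exact hre x u (D.dist x u hx0 hxn hu0 hun e1' hxu)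
    · intro h12
      have e1 : (γ x : ℝ) = γ v := by linarith
      have e1' : γ x = γ v := by exact_mod_cast e1
      have e2 : γ u ≠ γ v := fun h5 => hall ⟨e1'.trans h5.symm, h5.symm⟩
      have h6 := D.diff u k v l he' hv e2
      refine ⟨by linarith, ?_⟩
      rcases hre x v (D.dist x v hx0 hxn hv hvn e1' hxv) with h7 | h7
      · left; rw [← h6]; exact h7
      · right
        intro h8
        exact h7 (by linarith)
  obtain ⟨t, -, ht⟩ := (Set.infinite_univ.sdiff (f1.union (f2.union (f3.union f4)))).nonempty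
  simp only [Set.mem_union, not_or, Set.mem_iUnion, not_exists, Finset.mem_range,
    List.mem_toFinset, Set.mem_ofPred_eq] at ht
  obtain ⟨t1, t2, t3, t4⟩ := ht
  have hinj : ∀ u v, 0 < u → 0 < v → u < n → v < n → lift P γ t u = lift P γ t v → u = v := by
    intro u v hu hv hun hvn he
    by_contra hne
    by_cases hg : γ u = γ v
    · apply D.dist u v hu hun hv hvn hg hne
      have := lift_sub (P := P) (t := t) hg
      rw [he, sub_self] at this
      exact (sub_eq_zero.mp this.symm)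
    · exact t1 u hun v hvn ⟨hg, he⟩
  have him : ∀ u k v l, ((u, k), (v, l)) ∈ E → 0 < v →
      ((lift P γ t v - lift P γ t u) * conj (zt ^ k)).im ≠ 0 := by
    intro u k v l he hv
    by_cases hg : γ v = γ u
    · rw [lift_sub hg]
      exact (D.same u k v l he hv hg.symm).1
    · intro h0
      exact t2 _ he ⟨fun h' => hg h'.symm, h0⟩
  have hw1 : ∀ {u k v l}, ((u, k), (v, l)) ∈ E → W u * zt ^ k = zt ^ k := fun he => by
    rw [(D.first _ _ _ _ he).2.1, one_mul]
  have hns : ∀ u v, 0 < u → 0 < v → u < n → v < n → u ≠ v →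
      normSq (lift P γ t v - lift P γ t u) ≠ 0 := fun u v hu hv hun hvn huv =>
    (Complex.normSq_pos.mpr (sub_ne_zero.mpr (fun h' => huv (hinj v u hv hu hvn hun h').symm))).ne'
  refine chart_complete h (Z := lift P γ t) (W := W) D.norm hinj
    (fun u k v l he => (D.first u k v l he).1) ?_ ?_ ?_ ?_ ?_ ?_
  · intro u k v l he hv
    have := D.rel u k v l t he hv
    rw [(D.first _ _ _ _ he).2.1]
    linear_combination this
  · intro u k v l he hv
    obtain ⟨hun, hvn, huv⟩ := hlt u k v l he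
    rw [hw1 he, curv]
    exact div_ne_zero (him u k v l he hv) (hns u v (D.first _ _ _ _ he).1 hv hun hvn huv)
  · intro u k v l he hv x hxn hx hxu hxv
    obtain ⟨hun, hvn, huv⟩ := hlt u k v l he
    have hu := (D.first _ _ _ _ he).1
    rw [hw1 he, curv, curv]
    intro h0
    rw [div_eq_div_iff (hns u x hu hx hun hxn (Ne.symm hxu)) (hns u v hu hv hun hvn huv)] at h0
    exact t4 _ he x hxn ⟨hv, hx, hxu, hxv, h0⟩
  · intro u k l he
    rw [(D.first _ _ _ _ he).2.1, one_mul]
    exact D.rel0 u k l he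
  · intro u k l he
    rw [hw1 he]
    exact im_ne_of_odd (hodd he)
  · intro u k l he x hxn hx hxu
    obtain ⟨hun, -, -⟩ := hlt u k 0 l he
    have hu := (D.first _ _ _ _ he).1
    rw [hw1 he, curv]
    refine div_ne_zero ?_ (hns u x hu hx hun hxn (Ne.symm hxu))
    by_cases hg : γ x = γ u
    · rw [lift_sub hg]
      exact D.same0 u k l he x hx hxn hg hxu
    · intro h0
      exact t3 _ he x hxn ⟨hg, h0⟩

end Pool.Agent.Lib.MP_235cc9_lc
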