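import Pool.Agent.Lib.MP_235cc9_lc.NetSound

/-!
# No coincidences: directions that are multiples of 45 degrees and tangents that are odd multiples
of 22.5 degrees
-/

set_option linter.unusedSimpArgs false

namespace Pool.Agent.Lib.MP_235cc9_lc

open Complex ComplexConjugate

/-- The eighth power is a positive real number. -/
def Pos8 (z : ℂ) : Prop := ∃ ρ : ℝ, 0 < ρ ∧ z ^ 8 = ρ

theorem Pos8.mul {a b : ℂ} (ha : Pos8 a) (hb : Pos8 b) : Pos8 (a * b) := by
  obtain ⟨r, hr, h1⟩ := ha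
  obtain ⟨s, hs, h2⟩ := hb
  exact ⟨r * s, mul_pos hr hs, by rw [mul_pow, h1, h2]; push_cast; ring⟩

theorem Pos8.ne {a : ℂ} (ha : Pos8 a) : a ≠ 0 := by
  rintro rfl
  obtain ⟨r, hr, h1⟩ := ha
  rw [zero_pow (by norm_num)] at h1
  have : (0 : ℝ) = r := by exact_mod_cast h1
  linarith

theorem Pos8.inv {a : ℂ} (ha : Pos8 a) : Pos8 (a⁻¹) := by
  obtain ⟨r, hr, h1⟩ := ha
  exact ⟨r⁻¹, inv_pos.mpr hr, by rw [inv_pow, h1]; push_cast; rfl⟩

theorem Pos8.div {a b : ℂ} (ha : Pos8 a) (hb : Pos8 b) : Pos8 (a / b) := by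
  rw [div_eq_mul_inv]; exact ha.mul hb.inv

theorem Pos8.neg {a : ℂ} (ha : Pos8 a) : Pos8 (-a) := by
  obtain ⟨r, hr, h1⟩ := ha
  exact ⟨r, hr, by rw [neg_pow, h1]; norm_num⟩

theorem pos8_real {r : ℝ} (hr : r ≠ 0) : Pos8 (r : ℂ) :=
  ⟨r ^ 8, by positivity, by push_cast; rfl⟩

theorem pos8_I : Pos8 I := ⟨1, one_pos, by
  have : I ^ 8 = (I ^ 2) ^ 4 := by ring
  rw [this, I_sq]; norm_num⟩

theorem pos8_one_add_I : Pos8 (1 + I) := ⟨16, by norm_num, by
  have : (1 + I) ^ 8 = ((1 + 2 * I + I ^ 2) ^ 2) ^ 2 := by ring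
  rw [this, I_sq]
  have : ((1 + 2 * I + -1) ^ 2) ^ 2 = 16 * (I ^ 2) ^ 2 := by ring
  rw [this, I_sq]; norm_num⟩

theorem pos8_I_sub_one : Pos8 (I - 1) := by
  have : I - 1 = I * (1 + I) := by linear_combination -I_mul_I
  rw [this]; exact pos8_I.mul pos8_one_add_I

theorem pos8_one_sub_I : Pos8 (1 - I) := by
  have : 1 - I = -(I - 1) := by ring
  rw [this]; exact pos8_I_sub_one.neg

theorem zt_odd {k : ℕ} (hk : k % 2 = 1) : (zt ^ k) ^ 8 = -1 := by
  rw [← pow_mul, mul_comm, pow_mul, zt_8, Odd.neg_one_pow (Nat.odd_iff.mpr hk)]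

theorem im_ne_of_pos8 {σ a : ℂ} (hσ : σ ^ 8 = -1) (ha : Pos8 a) : (a * σ).im ≠ 0 := by
  intro h0
  obtain ⟨r, hr, h1⟩ := ha
  have h2 : a * σ = ((a * σ).re : ℂ) := by
    apply Complex.ext <;> simp only [Complex.ofReal_re, Complex.ofReal_im, h0]
  have h3 : (a * σ) ^ 8 = -r := by rw [mul_pow, h1, hσ]; ring
  rw [h2] at h3
  have h4 : ((a * σ).re) ^ 8 = -r := by exact_mod_cast h3
  have h5 : 0 ≤ ((a * σ).re) ^ 8 := by positivity
  linarith

theorem conj_pow8 {σ : ℂ} (hσ : σ ^ 8 = -1) : (conj σ) ^ 8 = -1 := by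
  rw [← map_pow, hσ]; simp

theorem re_ne_of_odd {σ : ℂ} (hσ : σ ^ 8 = -1) : σ.re ≠ 0 := by
  have := im_ne_of_pos8 hσ pos8_I
  simpa using this

theorem im_ne_of_odd {σ : ℂ} (hσ : σ ^ 8 = -1) : σ.im ≠ 0 := by
  have := im_ne_of_pos8 hσ (pos8_real one_ne_zero)
  simpa using this

/-- The relation `x` is not on the circle. -/
theorem off_circle {σ A B : ℂ} (hσ : σ ^ 8 = -1) (hA : A ≠ 0) (hB : B ≠ 0)
    (h : Pos8 ((B - A) / (A * B))) :
    (A * conj σ).im * normSq B ≠ (B * conj σ).im * normSq A := by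
  intro heq
  have h1 := im_ne_of_pos8 hσ h
  apply h1
  have h2 : ((B - A) / (A * B) * σ).im * (normSq A * normSq B) =
      (B * conj σ).im * normSq A - (A * conj σ).im * normSq B := by
    have hA' : conj A ≠ 0 := by rwa [Ne, map_eq_zero]
    have hB' : conj B ≠ 0 := by rwa [Ne, map_eq_zero]
    have key : ((((B - A) / (A * B) * σ).im * (normSq A * normSq B) : ℝ) : ℂ) =
        (((B * conj σ).im * normSq A - (A * conj σ).im * normSq B : ℝ) : ℂ) := by
      push_cast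
      rw [Complex.im_eq_sub_conj, Complex.im_eq_sub_conj, Complex.im_eq_sub_conj]
      simp only [Complex.normSq_eq_conj_mul_self, map_sub, map_mul, map_div₀, Complex.conj_conj]
      field_simp
      ring
    exact_mod_cast key
  rw [← heq, sub_self] at h2
  have h3 : normSq A * normSq B ≠ 0 := mul_ne_zero (Complex.normSq_pos.mpr hA).ne'
    (Complex.normSq_pos.mpr hB).ne'
  exact (mul_eq_zero.mp h2).resolve_right h3

/-! ### The square gate -/

/-- The point from which the four points are seen under equal angles. -/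
noncomputable def apex (r : ℝ) : ℂ := I * r * (1 - I * r) / (1 + I * r)

/-- Its direction. -/
noncomputable def apexDir (r : ℝ) : ℂ := (1 - I * r) / (1 + I * r)

theorem den_ne (r : ℝ) : (1 + I * r : ℂ) ≠ 0 := by
  intro h
  have := congrArg Complex.re h
  simp at this

theorem den_ne' (r : ℝ) : (1 - I * r : ℂ) ≠ 0 := by
  intro h
  have := congrArg Complex.re h
  simp at this

theorem norm_apexDir (r : ℝ) : ‖apexDir r‖ = 1 := by
  have h1 : ‖(1 - I * r : ℂ)‖ = ‖(1 + I * r : ℂ)‖ := by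
    have : (1 - I * r : ℂ) = conj (1 + I * r) := by simp; ring
    rw [this, Complex.norm_conj]
  rw [apexDir, norm_div, h1, div_self (norm_ne_zero_iff.mpr (den_ne r))]

theorem apex_sub_one (r : ℝ) : apex r - 1 = ((r ^ 2 - 1 : ℝ) : ℂ) / (1 + I * r) := by
  have := den_ne r
  rw [apex]; push_cast; field_simp
  linear_combination (-(r : ℂ) ^ 2) * I_sq

theorem apex_sub_r (r : ℝ) : apex r - r = ((r * (1 - r) : ℝ) : ℂ) * (I - 1) / (1 + I * r) := by
  have := den_ne r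
  rw [apex]; push_cast; field_simp
  linear_combination (-(r : ℂ) ^ 2) * I_sq

theorem apex_sub_sq (r : ℝ) :
    apex r - ((r ^ 2 : ℝ) : ℂ) = ((r * (1 - r ^ 2) : ℝ) : ℂ) * I / (1 + I * r) := by
  have := den_ne r
  rw [apex]; push_cast; field_simp
  linear_combination (-(r : ℂ) ^ 2) * I_sq

theorem apex_add_r (r : ℝ) :
    apex r - ((-r : ℝ) : ℂ) = ((r * (1 + r) : ℝ) : ℂ) * (1 + I) / (1 + I * r) := by
  have := den_ne r
  rw [apex]; push_cast; field_simp
  linear_combination (-(r : ℂ) ^ 2) * I_sq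

/-- The relation of the apex with a point that is seen in the direction `ε / (1 + i r)`. -/
theorem apex_rel {r ρ : ℝ} {X ε s : ℂ} (h : apex r - X = ρ * ε / (1 + I * r))
    (hs : s * conj ε = -ε) :
    apexDir r * s * conj (apex r - X) = -(apex r - X) := by
  have h1 := den_ne r
  have h2 := den_ne' r
  have h3 : conj (1 + I * (r : ℂ)) = 1 - I * r := by simp; ring
  rw [h, apexDir]
  simp only [map_div₀, map_mul, Complex.conj_ofReal, h3]
  field_simp
  linear_combination (ρ : ℂ) * hs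

theorem apex_im_ne {r ρ : ℝ} {σ ε : ℂ} (hσ : σ ^ 8 = -1) (hρ : ρ ≠ 0) (hε : Pos8 ε)
    (hr : r ^ 4 - 6 * r ^ 2 + 1 ≠ 0) : ((ρ * ε / (1 + I * r)) * σ).im ≠ 0 := by
  intro h0
  set w : ℂ := (ρ * ε / (1 + I * r)) * σ with hw
  have h2 : w = (w.re : ℂ) := by
    apply Complex.ext <;> simp only [Complex.ofReal_re, Complex.ofReal_im, h0]
  obtain ⟨p, hp, h3⟩ := (pos8_real hρ).mul hε
  have hD := den_ne r
  have h4 : w ^ 8 * (1 + I * r) ^ 8 = -p := by
    rw [hw, mul_pow, hσ, div_pow, h3]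
    field_simp
  have hw0 : w.re ≠ 0 := by
    intro h
    rw [h] at h2
    rw [h2] at h4
    simp only [Complex.ofReal_zero, ne_eq, OfNat.ofNat_ne_zero, not_false_eq_true, zero_pow,
      zero_mul] at h4
    have : (0 : ℝ) = -p := by exact_mod_cast h4
    linarith
  have h5 : (1 + I * (r : ℂ)) ^ 4 = ((r ^ 4 - 6 * r ^ 2 + 1 : ℝ) : ℂ) +
      ((4 * r - 4 * r ^ 3 : ℝ) : ℂ) * I := by
    push_cast
    linear_combination (6 * (r : ℂ) ^ 2 + 4 * I * (r : ℂ) ^ 3 + (r : ℂ) ^ 4 * (I ^ 2 - 1)) * I_sq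
  have h6 : (1 + I * (r : ℂ)) ^ 8 = ((r ^ 4 - 6 * r ^ 2 + 1 : ℝ) + (4 * r - 4 * r ^ 3 : ℝ) * I : ℂ) ^ 2 := by
    rw [← h5]; ring
  rw [h2, h6] at h4
  set a := r ^ 4 - 6 * r ^ 2 + 1
  set b := 4 * r - 4 * r ^ 3
  set t := w.re
  have h7 : ((t ^ 8 * (a ^ 2 - b ^ 2) : ℝ) : ℂ) + ((2 * t ^ 8 * a * b : ℝ) : ℂ) * I = ((-p : ℝ) : ℂ) := by
    push_cast at h4 ⊢
    linear_combination h4 - (t : ℂ) ^ 8 * (b : ℂ) ^ 2 * I_sq
  have h8 := congrArg Complex.re h7
  have h9 := congrArg Complex.im h7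
  simp only [Complex.add_re, Complex.add_im, Complex.ofReal_re, Complex.ofReal_im, Complex.mul_re,
    Complex.mul_im, Complex.I_re, Complex.I_im, mul_zero, mul_one, zero_mul, sub_zero, add_zero,
    zero_add] at h8 h9
  have ht : 0 < t ^ 8 := by positivity
  have h10 : b = 0 := by
    have : (2 * t ^ 8 * a) * b = 0 := h9
    exact (mul_eq_zero.mp this).resolve_left (mul_ne_zero (by positivity) hr)
  rw [h10] at h8
  nlinarith [mul_nonneg ht.le (sq_nonneg a)]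

end Pool.Agent.Lib.MP_235cc9_lc
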