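import Pool.Agent.Lib.MP_235cc9_lc.Rot

/-!
# The links of a list of gates
-/

namespace Pool.Agent.Lib.MP_235cc9_lc

/-- A gate: `(false, a, m, b, _)` says that the column `m` is in the middle between the columns `a`
and `b`, `(true, i, r, s, n)` says that `s` is the square of `r` when `i` is the unit and `n` the
negative of `r`. -/
abbrev Gt : Type := Bool × (ℕ × (ℕ × (ℕ × ℕ)))

/-- The columns of a gate. -/
def Gt.col (g : Gt) (j : ℕ) : ℕ :=
  if j = 0 then g.2.1 else if j = 1 then g.2.2.1 else if j = 2 then g.2.2.2.1 else g.2.2.2.2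

/-- The vertices of the first reference line. -/
def vO (r : ℕ) : ℕ := 6 * r + 1
/-- The vertices of the second reference line. -/
def vE (r : ℕ) : ℕ := 6 * r + 2
/-- The vertices of the columns. -/
def vV (r : ℕ) : ℕ := 6 * r + 3
/-- The vertices of the gates that lie on columns. -/
def vP (k : ℕ) : ℕ := 6 * k + 4
/-- The additional vertices of the gates. -/
def vU (i : ℕ) : ℕ := 6 * i + 5

/-- The number of rows per column. -/
def rowsPer (Γ : List Gt) : ℕ := 4 * Γ.length + 1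

/-- The number of columns. -/
def colBound (Γ : List Gt) : ℕ :=
  (Γ.flatMap (fun g => List.range (g.2.1 + g.2.2.1 + g.2.2.2.1 + g.2.2.2.2 + 1))).length

/-- The number of rows. -/
def numRows (Γ : List Gt) : ℕ := colBound Γ * rowsPer Γ

def baseL : List Link :=
  [((vO 0, 9), (0, 7)), ((vE 0, 1), (0, 15)), ((vO 1, 11), (0, 5)), ((vE 1, 15), (0, 1))]

def rowL (r : ℕ) : List Link :=
  [((vO r, 5), (vE r, 3)), ((vO r, 7), (vV r, 1)), ((vE r, 13), (vV r, 11))]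

def ver1 (r : ℕ) : List Link :=
  [((vO r, 1), (vO (r + 1), 15)), ((vE r, 5), (vE (r + 1), 11))]

def ver2 (r : ℕ) : List Link :=
  [((vO r, 3), (vO (r + 2), 13)), ((vE r, 7), (vE (r + 2), 9))]

def colL (r : ℕ) : Link := ((vV r, 3), (vV (r + 1), 13))

def useL (K c k : ℕ) : List Link :=
  [((vV (c * K + k), 5), (vP k, 11)), ((vV (c * K + k + 1), 7), (vP k, 9))]

def gateL (x : Gt × ℕ) : List Link :=
  if x.1.1 = true then
    [((vP (4 * x.2), 3), (vP (4 * x.2 + 1), 5)), ((vP (4 * x.2 + 1), 1), (vP (4 * x.2 + 2), 7)),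
     ((vP (4 * x.2 + 2), 3), (vP (4 * x.2 + 3), 5)), ((vP (4 * x.2), 7), (vU x.2, 1)),
     ((vP (4 * x.2 + 3), 7), (vU x.2, 5)), ((vP (4 * x.2 + 2), 13), (vU x.2, 3)),
     ((vP (4 * x.2 + 1), 13), (vU x.2, 7))]
  else
    [((vP (4 * x.2), 5), (vP (4 * x.2 + 1), 7)), ((vP (4 * x.2 + 2), 1), (vP (4 * x.2 + 1), 3)),
     ((vP (4 * x.2), 3), (vP (4 * x.2 + 2), 5))]

/-- The links. -/
def net (Γ : List Gt) : List Link :=
  baseL ++ (List.range (numRows Γ)).flatMap rowL ++ (List.range (numRows Γ - 1)).flatMap ver1 ++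
    (List.range (numRows Γ - 2)).flatMap ver2 ++
    (List.range (colBound Γ)).flatMap (fun c =>
      (List.range (rowsPer Γ - 1)).map (fun k => colL (c * rowsPer Γ + k))) ++
    Γ.zipIdx.flatMap (fun x => (List.range 4).flatMap (fun j =>
      useL (rowsPer Γ) (x.1.col j) (4 * x.2 + j))) ++
    Γ.zipIdx.flatMap gateL

/-- The number of vertices. -/
def netN (Γ : List Gt) : ℕ := 6 * (numRows Γ + 4 * Γ.length + 2)

/-- The links, as a relation. -/
inductive Lk (Γ : List Gt) : Port → Port → Prop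
  | b1 : Lk Γ (vO 0, 9) (0, 7)
  | b2 : Lk Γ (vE 0, 1) (0, 15)
  | b3 : Lk Γ (vO 1, 11) (0, 5)
  | b4 : Lk Γ (vE 1, 15) (0, 1)
  | oe (r : ℕ) (h : r < numRows Γ) : Lk Γ (vO r, 5) (vE r, 3)
  | ov (r : ℕ) (h : r < numRows Γ) : Lk Γ (vO r, 7) (vV r, 1)
  | ev (r : ℕ) (h : r < numRows Γ) : Lk Γ (vE r, 13) (vV r, 11)
  | o1 (r : ℕ) (h : r + 1 < numRows Γ) : Lk Γ (vO r, 1) (vO (r + 1), 15)
  | e1 (r : ℕ) (h : r + 1 < numRows Γ) : Lk Γ (vE r, 5) (vE (r + 1), 11)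
  | o2 (r : ℕ) (h : r + 2 < numRows Γ) : Lk Γ (vO r, 3) (vO (r + 2), 13)
  | e2 (r : ℕ) (h : r + 2 < numRows Γ) : Lk Γ (vE r, 7) (vE (r + 2), 9)
  | vv (c k : ℕ) (hc : c < colBound Γ) (hk : k + 1 < rowsPer Γ) :
      Lk Γ (vV (c * rowsPer Γ + k), 3) (vV (c * rowsPer Γ + k + 1), 13)
  | vp (i j : ℕ) (g : Gt) (hg : Γ[i]? = some g) (hj : j < 4) :
      Lk Γ (vV (g.col j * rowsPer Γ + (4 * i + j)), 5) (vP (4 * i + j), 11)
  | vq (i j : ℕ) (g : Gt) (hg : Γ[i]? = some g) (hj : j < 4) :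
      Lk Γ (vV (g.col j * rowsPer Γ + (4 * i + j) + 1), 7) (vP (4 * i + j), 9)
  | s1 (i : ℕ) (g : Gt) (hg : Γ[i]? = some g) (hs : g.1 = true) :
      Lk Γ (vP (4 * i), 3) (vP (4 * i + 1), 5)
  | s2 (i : ℕ) (g : Gt) (hg : Γ[i]? = some g) (hs : g.1 = true) :
      Lk Γ (vP (4 * i + 1), 1) (vP (4 * i + 2), 7)
  | s3 (i : ℕ) (g : Gt) (hg : Γ[i]? = some g) (hs : g.1 = true) :
      Lk Γ (vP (4 * i + 2), 3) (vP (4 * i + 3), 5)
  | s4 (i : ℕ) (g : Gt) (hg : Γ[i]? = some g) (hs : g.1 = true) :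
      Lk Γ (vP (4 * i), 7) (vU i, 1)
  | s5 (i : ℕ) (g : Gt) (hg : Γ[i]? = some g) (hs : g.1 = true) :
      Lk Γ (vP (4 * i + 3), 7) (vU i, 5)
  | s6 (i : ℕ) (g : Gt) (hg : Γ[i]? = some g) (hs : g.1 = true) :
      Lk Γ (vP (4 * i + 2), 13) (vU i, 3)
  | s7 (i : ℕ) (g : Gt) (hg : Γ[i]? = some g) (hs : g.1 = true) :
      Lk Γ (vP (4 * i + 1), 13) (vU i, 7)
  | m1 (i : ℕ) (g : Gt) (hg : Γ[i]? = some g) (hs : g.1 = false) :
      Lk Γ (vP (4 * i), 5) (vP (4 * i + 1), 7)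
  | m2 (i : ℕ) (g : Gt) (hg : Γ[i]? = some g) (hs : g.1 = false) :
      Lk Γ (vP (4 * i + 2), 1) (vP (4 * i + 1), 3)
  | m3 (i : ℕ) (g : Gt) (hg : Γ[i]? = some g) (hs : g.1 = false) :
      Lk Γ (vP (4 * i), 3) (vP (4 * i + 2), 5)

theorem mem_net {Γ : List Gt} {p q : Port} : (p, q) ∈ net Γ ↔ Lk Γ p q := by
  simp only [net, List.mem_append, List.mem_flatMap, List.mem_map, List.mem_range]
  constructor
  · rintro ((((((h | ⟨r, hr, h⟩) | ⟨r, hr, h⟩) | ⟨r, hr, h⟩) | ⟨c, hc, k, hk, h⟩) |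
      ⟨⟨g, i⟩, hx, j, hj, h⟩) | ⟨⟨g, i⟩, hx, h⟩)
    · simp only [baseL, List.mem_cons, List.not_mem_nil, or_false, Prod.mk.injEq] at h
      rcases h with ⟨rfl, rfl⟩ | ⟨rfl, rfl⟩ | ⟨rfl, rfl⟩ | ⟨rfl, rfl⟩
      · exact .b1
      · exact .b2
      · exact .b3
      · exact .b4
    · simp only [rowL, List.mem_cons, List.not_mem_nil, or_false, Prod.mk.injEq] at h
      rcases h with ⟨rfl, rfl⟩ | ⟨rfl, rfl⟩ | ⟨rfl, rfl⟩
      · exact .oe r hr
      · exact .ov r hr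
      · exact .ev r hr
    · simp only [ver1, List.mem_cons, List.not_mem_nil, or_false, Prod.mk.injEq] at h
      rcases h with ⟨rfl, rfl⟩ | ⟨rfl, rfl⟩
      · exact .o1 r (by omega)
      · exact .e1 r (by omega)
    · simp only [ver2, List.mem_cons, List.not_mem_nil, or_false, Prod.mk.injEq] at h
      rcases h with ⟨rfl, rfl⟩ | ⟨rfl, rfl⟩
      · exact .o2 r (by omega)
      · exact .e2 r (by omega)
    · simp only [colL, Prod.mk.injEq] at h
      obtain ⟨rfl, rfl⟩ := h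
      exact .vv c k hc (by omega)
    · have hg := List.mk_mem_zipIdx_iff_getElem?.mp hx
      simp only [useL, List.mem_cons, List.not_mem_nil, or_false, Prod.mk.injEq] at h
      rcases h with ⟨rfl, rfl⟩ | ⟨rfl, rfl⟩
      · exact .vp i j g hg hj
      · exact .vq i j g hg hj
    · have hg := List.mk_mem_zipIdx_iff_getElem?.mp hx
      unfold gateL at h
      split_ifs at h with hs
      · simp only [List.mem_cons, List.not_mem_nil, or_false, Prod.mk.injEq] at h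
        rcases h with ⟨rfl, rfl⟩ | ⟨rfl, rfl⟩ | ⟨rfl, rfl⟩ | ⟨rfl, rfl⟩ | ⟨rfl, rfl⟩ | ⟨rfl, rfl⟩ |
          ⟨rfl, rfl⟩
        · exact .s1 i g hg hs
        · exact .s2 i g hg hs
        · exact .s3 i g hg hs
        · exact .s4 i g hg hs
        · exact .s5 i g hg hs
        · exact .s6 i g hg hs
        · exact .s7 i g hg hs
      · simp only [Bool.not_eq_true] at hs
        simp only [List.mem_cons, List.not_mem_nil, or_false, Prod.mk.injEq] at h
        rcases h with ⟨rfl, rfl⟩ | ⟨rfl, rfl⟩ | ⟨rfl, rfl⟩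
        · exact .m1 i g hg hs
        · exact .m2 i g hg hs
        · exact .m3 i g hg hs
  · intro h
    have hz : ∀ {i : ℕ} {g : Gt}, Γ[i]? = some g → (g, i) ∈ Γ.zipIdx := fun hg =>
      List.mk_mem_zipIdx_iff_getElem?.mpr hg
    cases h with
    | b1 => simp [baseL]
    | b2 => simp [baseL]
    | b3 => simp [baseL]
    | b4 => simp [baseL]
    | oe r h => exact .inl (.inl (.inl (.inl (.inl (.inr ⟨r, h, by simp [rowL]⟩)))))
    | ov r h => exact .inl (.inl (.inl (.inl (.inl (.inr ⟨r, h, by simp [rowL]⟩)))))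
    | ev r h => exact .inl (.inl (.inl (.inl (.inl (.inr ⟨r, h, by simp [rowL]⟩)))))
    | o1 r h => exact .inl (.inl (.inl (.inl (.inr ⟨r, by omega, by simp [ver1]⟩))))
    | e1 r h => exact .inl (.inl (.inl (.inl (.inr ⟨r, by omega, by simp [ver1]⟩))))
    | o2 r h => exact .inl (.inl (.inl (.inr ⟨r, by omega, by simp [ver2]⟩)))
    | e2 r h => exact .inl (.inl (.inl (.inr ⟨r, by omega, by simp [ver2]⟩)))
    | vv c k hc hk => exact .inl (.inl (.inr ⟨c, hc, k, by omega, rfl⟩))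
    | vp i j g hg hj => exact .inl (.inr ⟨(g, i), hz hg, j, hj, by simp [useL]⟩)
    | vq i j g hg hj => exact .inl (.inr ⟨(g, i), hz hg, j, hj, by simp [useL]⟩)
    | s1 i g hg hs => exact .inr ⟨(g, i), hz hg, by simp [gateL, hs]⟩
    | s2 i g hg hs => exact .inr ⟨(g, i), hz hg, by simp [gateL, hs]⟩
    | s3 i g hg hs => exact .inr ⟨(g, i), hz hg, by simp [gateL, hs]⟩
    | s4 i g hg hs => exact .inr ⟨(g, i), hz hg, by simp [gateL, hs]⟩
    | s5 i g hg hs => exact .inr ⟨(g, i), hz hg, by simp [gateL, hs]⟩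
    | s6 i g hg hs => exact .inr ⟨(g, i), hz hg, by simp [gateL, hs]⟩
    | s7 i g hg hs => exact .inr ⟨(g, i), hz hg, by simp [gateL, hs]⟩
    | m1 i g hg hs => exact .inr ⟨(g, i), hz hg, by simp [gateL, hs]⟩
    | m2 i g hg hs => exact .inr ⟨(g, i), hz hg, by simp [gateL, hs]⟩
    | m3 i g hg hs => exact .inr ⟨(g, i), hz hg, by simp [gateL, hs]⟩

theorem col_lt {Γ : List Gt} {i j : ℕ} {g : Gt} (hg : Γ[i]? = some g) :
    g.col j < colBound Γ := by
  have h1 : g ∈ Γ := List.mem_of_getElem? hg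
  have h2 : g.2.1 + g.2.2.1 + g.2.2.2.1 + g.2.2.2.2 + 1 ≤ colBound Γ := by
    unfold colBound
    rw [List.length_flatMap]
    simp only [List.length_range]
    exact List.single_le_sum (by simp) _ (List.mem_map.mpr ⟨g, h1, rfl⟩)
  unfold Gt.col
  split_ifs <;> omega

theorem row_lt {Γ : List Gt} {c k : ℕ} (hc : c < colBound Γ) (hk : k < rowsPer Γ) :
    c * rowsPer Γ + k < numRows Γ := by
  unfold numRows
  calc c * rowsPer Γ + k < c * rowsPer Γ + rowsPer Γ := by omega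
    _ = (c + 1) * rowsPer Γ := by ring
    _ ≤ colBound Γ * rowsPer Γ := Nat.mul_le_mul_right _ hc

theorem idx_lt {Γ : List Gt} {i : ℕ} {g : Gt} (hg : Γ[i]? = some g) : i < Γ.length := by
  obtain ⟨h, -⟩ := List.getElem?_eq_some_iff.mp hg
  exact h

end Pool.Agent.Lib.MP_235cc9_lc
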