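import Pool.Agent.Lib.MP_235cc9_lc.Generic

/-!
# From numbers to a drawing
-/

set_option linter.unusedSimpArgs false

namespace Pool.Agent.Lib.MP_235cc9_lc

open Complex ComplexConjugate

/-- The numbers satisfy the gates, and are in general position inside the gates. -/
structure GoodX (Γ : List Gt) (x : ℕ → ℝ) : Prop where
  mid : ∀ g ∈ Γ, g.1 = false →
    2 * x (g.col 1) = x (g.col 0) + x (g.col 2) ∧ x (g.col 0) ≠ x (g.col 2)
  sq : ∀ g ∈ Γ, g.1 = true → x (g.col 0) = 1 ∧ x (g.col 3) = -x (g.col 1) ∧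
    x (g.col 2) = x (g.col 1) ^ 2 ∧ x (g.col 1) ≠ 0 ∧ x (g.col 1) ^ 2 ≠ 1 ∧
    x (g.col 1) ^ 4 - 6 * x (g.col 1) ^ 2 + 1 ≠ 0

/-- The position of a vertex of a gate on a column. -/
noncomputable def gPos (x : ℕ → ℝ) (g : Gt) (j : ℕ) : ℂ :=
  if g.1 = false ∧ j = 1 then (x (g.col 1) : ℂ) + ((x (g.col 1) - x (g.col 0) : ℝ) : ℂ) * I
  else (x (g.col j) : ℂ)

/-- The positions. -/
noncomputable def pos (Γ : List Gt) (x : ℕ → ℝ) (α β : ℝ) (u : ℕ) : ℂ :=
  match u % 6 with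
  | 1 => (α : ℂ)
  | 2 => (β : ℂ)
  | 3 => (x (u / 6 / rowsPer Γ) : ℂ)
  | 4 => match Γ[u / 6 / 4]? with
    | some g => gPos x g (u / 6 % 4)
    | none => 0
  | 5 => match Γ[u / 6]? with
    | some g => if g.1 = true then apex (x (g.col 1)) else 0
    | none => 0
  | _ => 0

/-- The directions. -/
noncomputable def flag (Γ : List Gt) (x : ℕ → ℝ) (u : ℕ) : ℂ :=
  match u % 6 with
  | 5 => match Γ[u / 6]? with
    | some g => if g.1 = true then apexDir (x (g.col 1)) else 1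
    | none => 1
  | _ => 1

/-- The groups. -/
def grp (Γ : List Gt) (u : ℕ) : ℕ :=
  match u % 6 with
  | 1 => 4 * (u / 6)
  | 2 => 4 * (u / 6)
  | 3 => 4 * (u / 6)
  | 4 => match Γ[u / 6 / 4]? with
    | some g => if g.1 = false ∧ u / 6 % 4 = 3 then 4 * (u / 6) + 2 else 4 * (u / 6 / 4) + 1
    | none => 4 * (u / 6) + 2
  | 5 => match Γ[u / 6]? with
    | some g => if g.1 = true then 4 * (u / 6) + 1 else 4 * u + 3
    | none => 4 * u + 3
  | _ => 4 * u + 3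

section evals

variable {Γ : List Gt} {x : ℕ → ℝ} {α β : ℝ}

theorem pos_O (r : ℕ) : pos Γ x α β (vO r) = α := by simp [pos]
theorem pos_E (r : ℕ) : pos Γ x α β (vE r) = β := by simp [pos]
theorem pos_V (r : ℕ) : pos Γ x α β (vV r) = x (r / rowsPer Γ) := by simp [pos]
theorem pos_P {i j : ℕ} {g : Gt} (hg : Γ[i]? = some g) (hj : j < 4) :
    pos Γ x α β (vP (4 * i + j)) = gPos x g j := by
  have h1 : (4 * i + j) / 4 = i := by omega
  have h2 : (4 * i + j) % 4 = j := by omega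
  simp [pos, h1, h2, hg]
theorem pos_U {i : ℕ} {g : Gt} (hg : Γ[i]? = some g) (hs : g.1 = true) :
    pos Γ x α β (vU i) = apex (x (g.col 1)) := by
  simp [pos, hg, hs]

theorem flag_O (r : ℕ) : flag Γ x (vO r) = 1 := by simp [flag]
theorem flag_E (r : ℕ) : flag Γ x (vE r) = 1 := by simp [flag]
theorem flag_V (r : ℕ) : flag Γ x (vV r) = 1 := by simp [flag]
theorem flag_P (r : ℕ) : flag Γ x (vP r) = 1 := by simp [flag]
theorem flag_U {i : ℕ} {g : Gt} (hg : Γ[i]? = some g) (hs : g.1 = true) :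
    flag Γ x (vU i) = apexDir (x (g.col 1)) := by
  simp [flag, hg, hs]

theorem grp_O (r : ℕ) : grp Γ (vO r) = 4 * r := by simp [grp]
theorem grp_E (r : ℕ) : grp Γ (vE r) = 4 * r := by simp [grp]
theorem grp_V (r : ℕ) : grp Γ (vV r) = 4 * r := by simp [grp]
theorem grp_P {i j : ℕ} {g : Gt} (hg : Γ[i]? = some g) (hj : j < 4) :
    grp Γ (vP (4 * i + j)) = if g.1 = false ∧ j = 3 then 4 * (4 * i + j) + 2 else 4 * i + 1 := by
  have h1 : (4 * i + j) / 4 = i := by omega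
  have h2 : (4 * i + j) % 4 = j := by omega
  simp [grp, h1, h2, hg]
theorem grp_U {i : ℕ} {g : Gt} (hg : Γ[i]? = some g) (hs : g.1 = true) :
    grp Γ (vU i) = 4 * i + 1 := by
  simp [grp, hg, hs]

theorem norm_flag (u : ℕ) : ‖flag Γ x u‖ = 1 := by
  unfold flag
  split
  · split
    · split_ifs
      · exact norm_apexDir _
      · exact norm_one
    · exact norm_one
  · exact norm_one

theorem cases_mod (u : ℕ) : u % 6 = 0 ∨ (∃ r, u = vO r) ∨ (∃ r, u = vE r) ∨ (∃ r, u = vV r) ∨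
    (∃ r, u = vP r) ∨ (∃ r, u = vU r) := by
  unfold vO vE vV vP vU
  have : u % 6 = 0 ∨ u % 6 = 1 ∨ u % 6 = 2 ∨ u % 6 = 3 ∨ u % 6 = 4 ∨ u % 6 = 5 := by omega
  rcases this with h | h | h | h | h | h
  · left; exact h
  · right; left; exact ⟨u / 6, by omega⟩
  · right; right; left; exact ⟨u / 6, by omega⟩
  · right; right; right; left; exact ⟨u / 6, by omega⟩
  · right; right; right; right; left; exact ⟨u / 6, by omega⟩
  · right; right; right; right; right; exact ⟨u / 6, by omega⟩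

/-- The groups of the different kinds of vertices. -/
theorem grp_cases (u : ℕ) :
    (∃ r, grp Γ u = 4 * r ∧ (u = vO r ∨ u = vE r ∨ u = vV r)) ∨
    (∃ i g, grp Γ u = 4 * i + 1 ∧ Γ[i]? = some g ∧
      ((∃ j < 4, (g.1 = false → j < 3) ∧ u = vP (4 * i + j)) ∨ (g.1 = true ∧ u = vU i))) ∨
    (∃ k, grp Γ u = 4 * k + 2 ∧ u = vP k) ∨ grp Γ u = 4 * u + 3 := by
  rcases cases_mod u with h | ⟨r, rfl⟩ | ⟨r, rfl⟩ | ⟨r, rfl⟩ | ⟨r, rfl⟩ | ⟨r, rfl⟩
  · right; right; right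
    simp [grp, h]
  · left; exact ⟨r, grp_O r, Or.inl rfl⟩
  · left; exact ⟨r, grp_E r, Or.inr (Or.inl rfl)⟩
  · left; exact ⟨r, grp_V r, Or.inr (Or.inr rfl)⟩
  · rcases hg : Γ[r / 4]? with _ | g
    · right; right; left
      refine ⟨r, ?_, rfl⟩
      simp [grp, hg]
    · have hr : 4 * (r / 4) + r % 4 = r := by omega
      have h1 := grp_P hg (Nat.mod_lt r (by norm_num : 4 > 0))
      rw [hr] at h1
      split_ifs at h1 with h2
      · right; right; left
        exact ⟨r, h1, rfl⟩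
      · right; left
        refine ⟨r / 4, g, h1, hg, Or.inl ⟨r % 4, by omega, fun h3 => ?_, by rw [hr]⟩⟩
        have : r % 4 ≠ 3 := fun h4 => h2 ⟨h3, h4⟩
        omega
  · rcases hg : Γ[r]? with _ | g
    · right; right; right
      simp [grp, hg]
    · by_cases hs : g.1 = true
      · right; left
        exact ⟨r, g, grp_U hg hs, hg, Or.inr ⟨hs, rfl⟩⟩
      · right; right; right
        simp [grp, hg, hs]

theorem grp_row {u r : ℕ} (h : grp Γ u = 4 * r) : u = vO r ∨ u = vE r ∨ u = vV r := by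
  rcases grp_cases (Γ := Γ) u with ⟨r', h1, h2⟩ | ⟨i, g, h1, -⟩ | ⟨k, h1, -⟩ | h1
  · have : r' = r := by omega
    rw [← this]; exact h2
  all_goals omega

theorem grp_gate {u i : ℕ} {g : Gt} (hg : Γ[i]? = some g) (h : grp Γ u = 4 * i + 1) :
    (∃ j < 4, (g.1 = false → j < 3) ∧ u = vP (4 * i + j)) ∨ (g.1 = true ∧ u = vU i) := by
  rcases grp_cases (Γ := Γ) u with ⟨r', h1, h2⟩ | ⟨i', g', h1, h2, h3⟩ | ⟨k, h1, -⟩ | h1
  · omega
  · have : i' = i := by omega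
    subst this
    rw [hg] at h2
    simp only [Option.some.injEq] at h2
    subst h2
    exact h3
  all_goals omega

end evals

theorem sq_pt {x : ℕ → ℝ} {g : Gt} (h : x (g.col 0) = 1 ∧ x (g.col 3) = -x (g.col 1) ∧
    x (g.col 2) = x (g.col 1) ^ 2 ∧ x (g.col 1) ≠ 0 ∧ x (g.col 1) ^ 2 ≠ 1 ∧
    x (g.col 1) ^ 4 - 6 * x (g.col 1) ^ 2 + 1 ≠ 0) {j : ℕ} (hj : j < 4) :
    ∃ (ρ : ℝ) (ε : ℂ), ρ ≠ 0 ∧ Pos8 ε ∧
      apex (x (g.col 1)) - (x (g.col j) : ℂ) = ρ * ε / (1 + I * (x (g.col 1) : ℂ)) := by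
  obtain ⟨h0, h3, h2, hr, hr1, -⟩ := h
  set r := x (g.col 1) with hrd
  have hm : 1 - r ≠ 0 := fun h => hr1 (by rw [← sub_eq_zero.mp h]; norm_num)
  have hp : 1 + r ≠ 0 := fun h => hr1 (by
    have : r = -1 := by linarith
    rw [this]; norm_num)
  have hs : r ^ 2 - 1 ≠ 0 := sub_ne_zero.mpr hr1
  interval_cases j
  · refine ⟨r ^ 2 - 1, 1, hs, ⟨1, one_pos, by norm_num⟩, ?_⟩
    rw [h0, Complex.ofReal_one, mul_one]
    exact apex_sub_one r
  · refine ⟨r * (1 - r), I - 1, mul_ne_zero hr hm, pos8_I_sub_one, ?_⟩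
    exact apex_sub_r r
  · refine ⟨r * (1 - r ^ 2), I, mul_ne_zero hr (by intro h; exact hs (by linarith)), pos8_I, ?_⟩
    rw [h2]
    exact apex_sub_sq r
  · refine ⟨r * (1 + r), 1 + I, mul_ne_zero hr hp, pos8_one_add_I, ?_⟩
    rw [h3]
    exact apex_add_r r

theorem sq_ne {x : ℕ → ℝ} {g : Gt} (h : x (g.col 0) = 1 ∧ x (g.col 3) = -x (g.col 1) ∧
    x (g.col 2) = x (g.col 1) ^ 2 ∧ x (g.col 1) ≠ 0 ∧ x (g.col 1) ^ 2 ≠ 1 ∧
    x (g.col 1) ^ 4 - 6 * x (g.col 1) ^ 2 + 1 ≠ 0) {j j' : ℕ} (hj : j < 4) (hj' : j' < 4)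
    (hne : j ≠ j') : x (g.col j) ≠ x (g.col j') := by
  obtain ⟨h0, h3, h2, hr, hr1, -⟩ := h
  have key : ∀ a b : ℕ, a < b → b < 4 → x (g.col a) ≠ x (g.col b) := by
    intro a b hab hb
    interval_cases b <;> interval_cases a <;> simp only [h0, h2, h3]
    · intro h; exact hr1 (by rw [← h]; norm_num)
    · intro h; exact hr1 h.symm
    · intro h
      have : x (g.col 1) * (x (g.col 1) - 1) = 0 := by linear_combination -h
      rcases mul_eq_zero.mp this with h4 | h4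
      · exact hr h4
      · exact hr1 (by rw [sub_eq_zero.mp h4]; norm_num)
    · intro h
      have : x (g.col 1) = -1 := by linarith
      exact hr1 (by rw [this]; norm_num)
    · intro h
      exact hr (by linarith)
    · intro h
      have : x (g.col 1) * (x (g.col 1) + 1) = 0 := by linear_combination h
      rcases mul_eq_zero.mp this with h4 | h4
      · exact hr h4
      · have h5 : x (g.col 1) = -1 := by linarith
        exact hr1 (by rw [h5]; norm_num)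
  rcases lt_or_gt_of_ne hne with h | h
  · exact key j j' h hj'
  · exact (key j' j h hj).symm

theorem off_real {σ : ℂ} (hσ : σ ^ 8 = -1) {a b : ℝ} (ha : a ≠ 0) (hb : b ≠ 0) (hab : a ≠ b) :
    ((a : ℂ) * conj σ).im * normSq (b : ℂ) ≠ ((b : ℂ) * conj σ).im * normSq (a : ℂ) := by
  refine off_circle hσ (by exact_mod_cast ha) (by exact_mod_cast hb) ?_
  have h1 : ((b : ℂ) - a) / (a * b) = (((b - a) / (a * b) : ℝ) : ℂ) := by push_cast; rfl
  rw [h1]
  exact pos8_real (div_ne_zero (sub_ne_zero.mpr (Ne.symm hab)) (mul_ne_zero ha hb))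

theorem im_real_ne {σ : ℂ} (hσ : σ ^ 8 = -1) {a : ℝ} (ha : a ≠ 0) :
    ((a : ℂ) * conj σ).im ≠ 0 := im_ne_of_pos8 (conj_pow8 hσ) (pos8_real ha)

end Pool.Agent.Lib.MP_235cc9_lc
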