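import Pool.Agent.Lib.MP_235cc9_lc.NetComplete

/-!
# From numbers to a drawing: the proof
-/

set_option linter.unusedSimpArgs false

namespace Pool.Agent.Lib.MP_235cc9_lc

open Complex ComplexConjugate

theorem real_same {P : ℕ → ℂ} {u v : ℕ} {σ : ℂ} (hσ : σ ^ 8 = -1) {a b : ℝ}
    (hu : P u = a) (hv : P v = b) (hab : P u ≠ P v) :
    ((P v - P u) * conj σ).im ≠ 0 ∧ ∀ y (c : ℝ), P y = c → P y ≠ P u → P y ≠ P v →
      ((P y - P u) * conj σ).im * normSq (P v - P u) ≠
        ((P v - P u) * conj σ).im * normSq (P y - P u) := by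
  rw [hu, hv] at *
  have hab' : b - a ≠ 0 := fun h => hab (by rw [sub_eq_zero.mp h])
  constructor
  · rw [← Complex.ofReal_sub]
    exact im_real_ne hσ hab'
  · intro y c hy h1 h2
    rw [hy] at *
    rw [← Complex.ofReal_sub, ← Complex.ofReal_sub]
    refine off_real hσ (fun h => h1 ?_) hab' (fun h => h2 ?_)
    · rw [sub_eq_zero.mp h]
    · have : c = b := by linarith
      rw [this]

theorem groupData_net {Γ : List Gt} {x : ℕ → ℝ} {α β : ℝ} (hx : GoodX Γ x) (hαβ : α ≠ β)
    (hα : ∀ c < netN Γ, x c ≠ α ∧ x c ≠ β) :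
    GroupData (netN Γ) (net Γ) (pos Γ x α β) (flag Γ x) (grp Γ) := by
  have hmem : ∀ {i : ℕ} {g : Gt}, Γ[i]? = some g → g ∈ Γ := fun h => List.mem_of_getElem? h
  have eO := fun r => pos_O (Γ := Γ) (x := x) (α := α) (β := β) r
  have eE := fun r => pos_E (Γ := Γ) (x := x) (α := α) (β := β) r
  have eV := fun r => pos_V (Γ := Γ) (x := x) (α := α) (β := β) r
  have eP0 : ∀ {i : ℕ} {g : Gt} {j : ℕ}, Γ[i]? = some g → j < 4 →
      pos Γ x α β (vP (4 * i + j)) = gPos x g j := fun h1 h2 => pos_P h1 h2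
  have eU : ∀ {i : ℕ} {g : Gt}, Γ[i]? = some g → g.1 = true →
      pos Γ x α β (vU i) = apex (x (g.col 1)) := fun h1 h2 => pos_U h1 h2
  have eS : ∀ {i : ℕ} {g : Gt} {j : ℕ}, Γ[i]? = some g → g.1 = true → j < 4 →
      pos Γ x α β (vP (4 * i + j)) = (x (g.col j) : ℂ) := fun h1 h2 h3 => by
    rw [eP0 h1 h3, gPos, if_neg (by simp [h2])]
  have eM : ∀ {i : ℕ} {g : Gt} {j : ℕ}, Γ[i]? = some g → g.1 = false → j < 4 → j ≠ 1 →
      pos Γ x α β (vP (4 * i + j)) = (x (g.col j) : ℂ) := fun h1 h2 h3 h4 => by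
    rw [eP0 h1 h3, gPos, if_neg (by simp [h4])]
  have eM1 : ∀ {i : ℕ} {g : Gt}, Γ[i]? = some g → g.1 = false →
      pos Γ x α β (vP (4 * i + 1)) =
        (x (g.col 1) : ℂ) + ((x (g.col 1) - x (g.col 0) : ℝ) : ℂ) * I := fun h1 h2 => by
    rw [eP0 h1 (by norm_num), gPos, if_pos ⟨h2, rfl⟩]
  have eM0 : ∀ {i : ℕ} {g : Gt}, Γ[i]? = some g → g.1 = false →
      pos Γ x α β (vP (4 * i)) = (x (g.col 0) : ℂ) := fun h1 h2 => by
    have := eM h1 h2 (by norm_num : 0 < 4) (by norm_num)
    rwa [Nat.add_zero] at this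
  have eS0 : ∀ {i : ℕ} {g : Gt}, Γ[i]? = some g → g.1 = true →
      pos Γ x α β (vP (4 * i)) = (x (g.col 0) : ℂ) := fun h1 h2 => by
    have := eS h1 h2 (by norm_num : 0 < 4)
    rwa [Nat.add_zero] at this
  have gS : ∀ {i : ℕ} {g : Gt} {j : ℕ}, Γ[i]? = some g → g.1 = true → j < 4 →
      grp Γ (vP (4 * i + j)) = 4 * i + 1 := fun h1 h2 h3 => by
    rw [grp_P h1 h3, if_neg (by simp [h2])]
  have gS0 : ∀ {i : ℕ} {g : Gt}, Γ[i]? = some g → g.1 = true →
      grp Γ (vP (4 * i)) = 4 * i + 1 := fun h1 h2 => by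
    have := gS h1 h2 (by norm_num : 0 < 4)
    rwa [Nat.add_zero] at this
  have gM : ∀ {i : ℕ} {g : Gt} {j : ℕ}, Γ[i]? = some g → g.1 = false → j < 3 →
      grp Γ (vP (4 * i + j)) = 4 * i + 1 := fun h1 h2 h3 => by
    rw [grp_P h1 (by omega), if_neg (by omega)]
  have gM0 : ∀ {i : ℕ} {g : Gt}, Γ[i]? = some g → g.1 = false →
      grp Γ (vP (4 * i)) = 4 * i + 1 := fun h1 h2 => by
    have := gM h1 h2 (by norm_num : 0 < 3)
    rwa [Nat.add_zero] at this
  -- the positions inside the groups are distinct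
  have hrow : ∀ u r, (u = vO r ∨ u = vE r ∨ u = vV r) → ∃ a : ℝ, pos Γ x α β u = a := by
    rintro u r (rfl | rfl | rfl)
    · exact ⟨_, eO r⟩
    · exact ⟨_, eE r⟩
    · exact ⟨_, eV r⟩
  have hdist : ∀ u v, 0 < u → u < netN Γ → 0 < v → v < netN Γ → grp Γ u = grp Γ v → u ≠ v →
      pos Γ x α β u ≠ pos Γ x α β v := by
    intro u v hu hun hv hvn hg huv
    have key : ∀ u v, u < netN Γ → v < netN Γ → grp Γ u = grp Γ v → u < v →
        pos Γ x α β u ≠ pos Γ x α β v := by
      intro u v hun hvn hg huv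
      rcases grp_cases (Γ := Γ) u with ⟨r, h1, h2⟩ | ⟨i, g, h1, h2, h3⟩ | ⟨k, h1, h2⟩ | h1
      · have h3 := grp_row (hg.symm.trans h1)
        have hlt : ∀ r, vV r < netN Γ → x (r / rowsPer Γ) ≠ α ∧ x (r / rowsPer Γ) ≠ β := by
          intro r hr
          refine hα _ (lt_of_le_of_lt (Nat.div_le_self r _) ?_)
          unfold vV at hr
          omega
        rcases h2 with rfl | rfl | rfl <;> rcases h3 with rfl | rfl | rfl
        · exact absurd huv (lt_irrefl _)
        · rw [eO, eE]; exact_mod_cast hαβ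
        · rw [eO, eV]; exact_mod_cast (hlt r hvn).1.symm
        · rw [eE, eO]; exact_mod_cast hαβ.symm
        · exact absurd huv (lt_irrefl _)
        · rw [eE, eV]; exact_mod_cast (hlt r hvn).2.symm
        · rw [eV, eO]; exact_mod_cast (hlt r hun).1
        · rw [eV, eE]; exact_mod_cast (hlt r hun).2
        · exact absurd huv (lt_irrefl _)
      · have h4 := grp_gate h2 (hg.symm.trans h1)
        rcases h3 with ⟨j, hj, hj3, rfl⟩ | ⟨hs, rfl⟩ <;> rcases h4 with ⟨j', hj', hj3', rfl⟩ | ⟨hs', rfl⟩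
        · have hjj : j < j' := by unfold vP at huv; omega
          rcases hs : g.1 with _ | _
          · obtain ⟨m1, m2⟩ := hx.mid g (hmem h2) hs
            have hj1 := hj3 hs
            have hj2 := hj3' hs
            have h01 : x (g.col 1) - x (g.col 0) ≠ 0 := fun h => m2 (by linarith)
            interval_cases j' <;> interval_cases j
            · rw [eM h2 hs hj (by norm_num), eM1 h2 hs]
              intro h
              have := congrArg Complex.im h
              simp at this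
              exact h01 (by linarith)
            · rw [eM h2 hs hj (by norm_num), eM h2 hs hj' (by norm_num)]
              exact_mod_cast m2
            · rw [eM1 h2 hs, eM h2 hs hj' (by norm_num)]
              intro h
              have := congrArg Complex.im h
              simp at this
              exact h01 (by linarith)
          · rw [eS h2 hs hj, eS h2 hs hj']
            exact_mod_cast sq_ne (hx.sq g (hmem h2) hs) hj hj' hjj.ne
        · rw [eS h2 hs' hj, eU h2 hs']
          obtain ⟨ρ, ε, h5, h6, h7⟩ := sq_pt (hx.sq g (hmem h2) hs') hj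
          intro h
          rw [← h, sub_self] at h7
          have h8 := mul_ne_zero (Complex.ofReal_ne_zero.mpr h5) h6.ne
          exact div_ne_zero h8 (den_ne _) h7.symm
        · rw [eU h2 hs, eS h2 hs hj']
          obtain ⟨ρ, ε, h5, h6, h7⟩ := sq_pt (hx.sq g (hmem h2) hs) hj'
          intro h
          rw [h, sub_self] at h7
          have h8 := mul_ne_zero (Complex.ofReal_ne_zero.mpr h5) h6.ne
          exact div_ne_zero h8 (den_ne _) h7.symm
        · exact absurd huv (lt_irrefl _)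
      · rcases grp_cases (Γ := Γ) v with ⟨r', h1', h2'⟩ | ⟨i', g', h1', h2', h3'⟩ | ⟨k', h1', h2'⟩ | h1'
        · omega
        · omega
        · have : k = k' := by omega
          subst this
          rw [h2, h2'] at huv
          exact absurd huv (lt_irrefl _)
        · omega
      · rcases grp_cases (Γ := Γ) v with ⟨r', h1', h2'⟩ | ⟨i', g', h1', h2', h3'⟩ | ⟨k', h1', h2'⟩ | h1'
        · omega
        · omega
        · omega
        · omega
    rcases lt_or_gt_of_ne huv with h | h
    · exact key u v hun hvn hg h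
    · exact (key v u hvn hun hg.symm h).symm
  have hK : ∀ c k : ℕ, k < rowsPer Γ → (c * rowsPer Γ + k) / rowsPer Γ = c := fun c k hk => by
    rw [Nat.add_comm, Nat.add_mul_div_right _ _ (by omega), Nat.div_eq_of_lt hk, Nat.zero_add]
  have hfirst : ∀ u k v l, ((u, k), (v, l)) ∈ net Γ → 0 < u ∧ flag Γ x u = 1 ∧ k % 2 = 1 := by
    intro u k v l he
    rw [mem_net] at he
    have pO : ∀ r, 0 < vO r := fun r => by unfold vO; omega
    have pE : ∀ r, 0 < vE r := fun r => by unfold vE; omega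
    have pV : ∀ r, 0 < vV r := fun r => by unfold vV; omega
    have pP : ∀ r, 0 < vP r := fun r => by unfold vP; omega
    cases he <;> first
      | exact ⟨pO _, flag_O _, rfl⟩
      | exact ⟨pE _, flag_E _, rfl⟩
      | exact ⟨pV _, flag_V _, rfl⟩
      | exact ⟨pP _, flag_P _, rfl⟩
  -- horizontal and vertical relations
  have hor : ∀ {u v : ℕ} {k l : ℕ} {t : ℝ}, (k + l = 8 ∨ k + l = 24) → flag Γ x v = 1 →
      grp Γ u = grp Γ v → (∃ a b : ℝ, pos Γ x α β u = a ∧ pos Γ x α β v = b) →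
      flag Γ x v * (zt ^ k * zt ^ l) * conj (lift (pos Γ x α β) (grp Γ) t v -
        lift (pos Γ x α β) (grp Γ) t u) = -(lift (pos Γ x α β) (grp Γ) t v -
        lift (pos Γ x α β) (grp Γ) t u) := by
    rintro u v k l t h1 h2 h3 ⟨a, b, ha, hb⟩
    rw [lift_sub h3.symm, h2, zt_hor h1, ha, hb, ← Complex.ofReal_sub, Complex.conj_ofReal]
    ring
  have ver : ∀ {u v : ℕ} {k l : ℕ} {t : ℝ}, k + l = 16 → flag Γ x v = 1 →
      (pos Γ x α β v).re = (pos Γ x α β u).re →
      flag Γ x v * (zt ^ k * zt ^ l) * conj (lift (pos Γ x α β) (grp Γ) t v -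
        lift (pos Γ x α β) (grp Γ) t u) = -(lift (pos Γ x α β) (grp Γ) t v -
        lift (pos Γ x α β) (grp Γ) t u) := by
    intro u v k l t h1 h2 h3
    rw [h2, zt_ver h1]
    apply Complex.ext
    · simp [lift_re, h3]
    · simp [lift_im]
      ring
  have hreP : ∀ {i j : ℕ} {g : Gt}, Γ[i]? = some g → j < 4 →
      (pos Γ x α β (vP (4 * i + j))).re = x (g.col j) := by
    intro i j g hg hj
    rw [eP0 hg hj, gPos]
    split_ifs with h
    · simp [h.2]
    · simp
  have hreV : ∀ (r : ℕ), (pos Γ x α β (vV r)).re = x (r / rowsPer Γ) := fun r => by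
    rw [eV]; simp
  have hre : ∀ u k v l, Lk Γ (u, k) (v, l) → 0 < v → grp Γ u ≠ grp Γ v →
      (pos Γ x α β v).re = (pos Γ x α β u).re := by
    intro u k v l he hv hg
    cases he with
    | b1 => omega
    | b2 => omega
    | b3 => omega
    | b4 => omega
    | oe r h => rw [grp_O, grp_E] at hg; exact absurd rfl hg
    | ov r h => rw [grp_O, grp_V] at hg; exact absurd rfl hg
    | ev r h => rw [grp_E, grp_V] at hg; exact absurd rfl hg
    | o1 r h => rw [eO, eO]
    | e1 r h => rw [eE, eE]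
    | o2 r h => rw [eO, eO]
    | e2 r h => rw [eE, eE]
    | vv c k hc hk =>
      rw [hreV, hreV, hK c k (by omega), Nat.add_assoc, hK c (k + 1) hk]
    | vp i j g hg' hj =>
      have h1 : 4 * i + j < rowsPer Γ := by have := idx_lt hg'; unfold rowsPer; omega
      rw [hreP hg' hj, hreV, hK _ _ h1]
    | vq i j g hg' hj =>
      have h1 : 4 * i + j + 1 < rowsPer Γ := by have := idx_lt hg'; unfold rowsPer; omega
      rw [hreP hg' hj, hreV, Nat.add_assoc, hK _ _ h1]
    | s1 i g hg' hs => rw [gS0 hg' hs, gS hg' hs (by norm_num)] at hg; exact absurd rfl hg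
    | s2 i g hg' hs =>
      rw [gS hg' hs (by norm_num), gS hg' hs (by norm_num)] at hg; exact absurd rfl hg
    | s3 i g hg' hs =>
      rw [gS hg' hs (by norm_num), gS hg' hs (by norm_num)] at hg; exact absurd rfl hg
    | s4 i g hg' hs => rw [gS0 hg' hs, grp_U hg' hs] at hg; exact absurd rfl hg
    | s5 i g hg' hs => rw [gS hg' hs (by norm_num), grp_U hg' hs] at hg; exact absurd rfl hg
    | s6 i g hg' hs => rw [gS hg' hs (by norm_num), grp_U hg' hs] at hg; exact absurd rfl hg
    | s7 i g hg' hs => rw [gS hg' hs (by norm_num), grp_U hg' hs] at hg; exact absurd rfl hg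
    | m1 i g hg' hs => rw [gM0 hg' hs, gM hg' hs (by norm_num)] at hg; exact absurd rfl hg
    | m2 i g hg' hs =>
      rw [gM hg' hs (by norm_num), gM hg' hs (by norm_num)] at hg; exact absurd rfl hg
    | m3 i g hg' hs => rw [gM0 hg' hs, gM hg' hs (by norm_num)] at hg; exact absurd rfl hg
  -- the square gates
  have sqOff : ∀ {i : ℕ} {g : Gt} {j : ℕ} {σ : ℂ}, Γ[i]? = some g → g.1 = true → j < 4 →
      σ ^ 8 = -1 → ∀ v, grp Γ v = 4 * i + 1 → v ≠ vP (4 * i + j) →
      ((pos Γ x α β v - pos Γ x α β (vP (4 * i + j))) * conj σ).im ≠ 0 ∧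
      ∀ y, grp Γ y = 4 * i + 1 → y ≠ vP (4 * i + j) → y ≠ v →
        ((pos Γ x α β y - pos Γ x α β (vP (4 * i + j))) * conj σ).im *
          normSq (pos Γ x α β v - pos Γ x α β (vP (4 * i + j))) ≠
        ((pos Γ x α β v - pos Γ x α β (vP (4 * i + j))) * conj σ).im *
          normSq (pos Γ x α β y - pos Γ x α β (vP (4 * i + j))) := by
    intro i g j σ hg hs hj hσ v hv hvu
    have hsq := hx.sq g (hmem hg) hs
    set r := x (g.col 1) with hr
    obtain ⟨ρj, εj, hρj, hεj, hqj⟩ := sq_pt hsq hj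
    rw [← hr] at hqj
    rw [eS hg hs hj]
    have hD := den_ne r
    have hpj := (pos8_real hρj).mul hεj
    have hAj : apex r - (x (g.col j) : ℂ) ≠ 0 := by
      rw [hqj]; exact div_ne_zero hpj.ne hD
    have hsub : ∀ {m m' : ℕ}, m < 4 → m' < 4 → m ≠ m' → x (g.col m) - x (g.col m') ≠ 0 :=
      fun h1 h2 h3 => sub_ne_zero.mpr (sq_ne hsq h1 h2 h3)
    rcases grp_gate hg hv with ⟨m, hm, -, rfl⟩ | ⟨-, rfl⟩
    · have hmj : m ≠ j := fun h => hvu (by rw [h])
      rw [eS hg hs hm]
      refine ⟨?_, ?_⟩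
      · rw [← Complex.ofReal_sub]
        exact im_real_ne hσ (hsub hm hj hmj)
      · intro y hy hyu hyv
        rcases grp_gate hg hy with ⟨m', hm', -, rfl⟩ | ⟨-, rfl⟩
        · have hmj' : m' ≠ j := fun h => hyu (by rw [h])
          have hmm' : m' ≠ m := fun h => hyv (by rw [h])
          rw [eS hg hs hm', ← Complex.ofReal_sub, ← Complex.ofReal_sub]
          refine off_real hσ (hsub hm' hj hmj') (hsub hm hj hmj) (fun h => ?_)
          exact sq_ne hsq hm' hm hmm' (by linarith)
        · rw [eU hg hs]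
          obtain ⟨ρm, εm, hρm, hεm, hqm⟩ := sq_pt hsq hm
          rw [← hr] at hqm
          have hreal := hsub hm hj hmj
          have hrC : (x (g.col m) : ℂ) - (x (g.col j) : ℂ) ≠ 0 := by
            rw [← Complex.ofReal_sub]; exact_mod_cast hreal
          refine off_circle hσ hAj hrC ?_
          have hε0 := hεj.ne
          have hρC : (ρj : ℂ) ≠ 0 := by exact_mod_cast hρj
          have e1 : ((x (g.col m) : ℂ) - (x (g.col j) : ℂ) - (apex r - (x (g.col j) : ℂ))) /
              ((apex r - (x (g.col j) : ℂ)) * ((x (g.col m) : ℂ) - (x (g.col j) : ℂ))) =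
              -((ρm * εm) / ((ρj * εj) * ((x (g.col m) - x (g.col j) : ℝ) : ℂ))) := by
            have e2 : ((x (g.col m) : ℂ) - (x (g.col j) : ℂ) - (apex r - (x (g.col j) : ℂ))) =
                -(ρm * εm / (1 + I * r)) := by rw [← hqm]; ring
            rw [e2, hqj]
            push_cast
            field_simp
          rw [e1]
          exact (((pos8_real hρm).mul hεm).div (hpj.mul (pos8_real hreal))).neg
    · rw [eU hg hs]
      refine ⟨?_, ?_⟩
      · rw [hqj]
        exact apex_im_ne (conj_pow8 hσ) hρj hεj hsq.2.2.2.2.2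
      · intro y hy hyu hyv
        rcases grp_gate hg hy with ⟨m, hm, -, rfl⟩ | ⟨-, rfl⟩
        · have hmj : m ≠ j := fun h => hyu (by rw [h])
          rw [eS hg hs hm]
          obtain ⟨ρm, εm, hρm, hεm, hqm⟩ := sq_pt hsq hm
          rw [← hr] at hqm
          have hreal := hsub hm hj hmj
          have hrC : (x (g.col m) : ℂ) - (x (g.col j) : ℂ) ≠ 0 := by
            rw [← Complex.ofReal_sub]; exact_mod_cast hreal
          refine off_circle hσ hrC hAj ?_
          have hε0 := hεj.ne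
          have hρC : (ρj : ℂ) ≠ 0 := by exact_mod_cast hρj
          have e1 : ((apex r - (x (g.col j) : ℂ)) - ((x (g.col m) : ℂ) - (x (g.col j) : ℂ))) /
              (((x (g.col m) : ℂ) - (x (g.col j) : ℂ)) * (apex r - (x (g.col j) : ℂ))) =
              (ρm * εm) / ((ρj * εj) * ((x (g.col m) - x (g.col j) : ℝ) : ℂ)) := by
            have e2 : ((apex r - (x (g.col j) : ℂ)) - ((x (g.col m) : ℂ) - (x (g.col j) : ℂ))) =
                ρm * εm / (1 + I * r) := by rw [← hqm]; ring
            rw [e2, hqj]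
            push_cast
            field_simp
          rw [e1]
          exact ((pos8_real hρm).mul hεm).div (hpj.mul (pos8_real hreal))
        · exact absurd rfl hyv
  have sqOff0 : ∀ {i : ℕ} {g : Gt} {σ : ℂ}, Γ[i]? = some g → g.1 = true →
      σ ^ 8 = -1 → ∀ v, grp Γ v = 4 * i + 1 → v ≠ vP (4 * i) →
      ((pos Γ x α β v - pos Γ x α β (vP (4 * i))) * conj σ).im ≠ 0 ∧
      ∀ y, grp Γ y = 4 * i + 1 → y ≠ vP (4 * i) → y ≠ v →
        ((pos Γ x α β y - pos Γ x α β (vP (4 * i))) * conj σ).im *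
          normSq (pos Γ x α β v - pos Γ x α β (vP (4 * i))) ≠
        ((pos Γ x α β v - pos Γ x α β (vP (4 * i))) * conj σ).im *
          normSq (pos Γ x α β y - pos Γ x α β (vP (4 * i))) := by
    intro i g σ hg hs hσ
    have := sqOff hg hs (by norm_num : 0 < 4) hσ
    rwa [Nat.add_zero] at this
  -- the rows
  have rowOff : ∀ {r : ℕ} {σ : ℂ} {u : ℕ}, σ ^ 8 = -1 → grp Γ u = 4 * r → 0 < u → u < netN Γ →
      ∀ v, grp Γ v = 4 * r → 0 < v → v < netN Γ → v ≠ u →
      ((pos Γ x α β v - pos Γ x α β u) * conj σ).im ≠ 0 ∧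
      ∀ y, 0 < y → y < netN Γ → grp Γ y = 4 * r → y ≠ u → y ≠ v →
        ((pos Γ x α β y - pos Γ x α β u) * conj σ).im *
          normSq (pos Γ x α β v - pos Γ x α β u) ≠
        ((pos Γ x α β v - pos Γ x α β u) * conj σ).im *
          normSq (pos Γ x α β y - pos Γ x α β u) := by
    intro r σ u hσ hgu hu0 hun v hgv hv0 hvn hvu
    obtain ⟨a, ha⟩ := hrow u r (grp_row hgu)
    obtain ⟨b, hb⟩ := hrow v r (grp_row hgv)
    have h1 := real_same (P := pos Γ x α β) hσ ha hb
      (hdist u v hu0 hun hv0 hvn (hgu.trans hgv.symm) (Ne.symm hvu))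
    refine ⟨h1.1, fun y hy0 hyn hgy hyu hyv => ?_⟩
    obtain ⟨c, hc⟩ := hrow y r (grp_row hgy)
    exact h1.2 y c hc (hdist y u hy0 hyn hu0 hun (hgy.trans hgu.symm) hyu)
      (hdist y v hy0 hyn hv0 hvn (hgy.trans hgv.symm) hyv)
  refine ⟨norm_flag, hfirst, hdist, ?_, ?_, fun u k v l he hv hg => hre u k v l (mem_net.mp he) hv hg,
    ?_, ?_⟩
  · -- the relations
    intro u k v l t he hv
    rw [mem_net] at he
    have he' := he
    cases he with
    | b1 => omega
    | b2 => omega
    | b3 => omega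
    | b4 => omega
    | oe r h => exact hor (by norm_num) (flag_E r) ((grp_O r).trans (grp_E r).symm) ⟨_, _, eO r, eE r⟩
    | ov r h => exact hor (by norm_num) (flag_V r) ((grp_O r).trans (grp_V r).symm) ⟨_, _, eO r, eV r⟩
    | ev r h => exact hor (by norm_num) (flag_V r) ((grp_E r).trans (grp_V r).symm) ⟨_, _, eE r, eV r⟩
    | o1 r h => exact ver (by norm_num) (flag_O _) (by rw [eO, eO])
    | e1 r h => exact ver (by norm_num) (flag_E _) (by rw [eE, eE])
    | o2 r h => exact ver (by norm_num) (flag_O _) (by rw [eO, eO])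
    | e2 r h => exact ver (by norm_num) (flag_E _) (by rw [eE, eE])
    | vv c k hc hk =>
      refine ver (by norm_num) (flag_V _) (hre _ _ _ _ he' hv ?_)
      rw [grp_V, grp_V]; omega
    | vp i j g hg' hj =>
      refine ver (by norm_num) (flag_P _) (hre _ _ _ _ he' hv ?_)
      rw [grp_V, grp_P hg' hj]
      split_ifs <;> omega
    | vq i j g hg' hj =>
      refine ver (by norm_num) (flag_P _) (hre _ _ _ _ he' hv ?_)
      rw [grp_V, grp_P hg' hj]
      split_ifs <;> omega
    | s1 i g hg' hs =>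
      exact hor (by norm_num) (flag_P _) ((gS0 hg' hs).trans (gS hg' hs (by norm_num)).symm)
        ⟨_, _, eS0 hg' hs, eS hg' hs (by norm_num)⟩
    | s2 i g hg' hs =>
      exact hor (by norm_num) (flag_P _)
        ((gS hg' hs (by norm_num)).trans (gS hg' hs (by norm_num)).symm)
        ⟨_, _, eS hg' hs (by norm_num), eS hg' hs (by norm_num)⟩
    | s3 i g hg' hs =>
      exact hor (by norm_num) (flag_P _)
        ((gS hg' hs (by norm_num)).trans (gS hg' hs (by norm_num)).symm)
        ⟨_, _, eS hg' hs (by norm_num), eS hg' hs (by norm_num)⟩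
    | s4 i g hg' hs =>
      have hsq := hx.sq g (hmem hg') hs
      rw [lift_sub ((grp_U hg' hs).trans (gS0 hg' hs).symm), flag_U hg' hs, eU hg' hs, eS0 hg' hs,
        zt_hor (by norm_num), hsq.1]
      refine apex_rel (ρ := x (g.col 1) ^ 2 - 1) (ε := 1) ?_ (by simp)
      rw [mul_one, Complex.ofReal_one]
      exact apex_sub_one _
    | s5 i g hg' hs =>
      have hsq := hx.sq g (hmem hg') hs
      rw [lift_sub ((grp_U hg' hs).trans (gS hg' hs (by norm_num)).symm), flag_U hg' hs, eU hg' hs,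
        eS hg' hs (by norm_num), zt_up (by norm_num), hsq.2.1]
      refine apex_rel (apex_add_r _) ?_
      simp only [map_add, map_one, Complex.conj_I]
      linear_combination I_sq
    | s6 i g hg' hs =>
      have hsq := hx.sq g (hmem hg') hs
      rw [lift_sub ((grp_U hg' hs).trans (gS hg' hs (by norm_num)).symm), flag_U hg' hs, eU hg' hs,
        eS hg' hs (by norm_num), zt_ver (by norm_num), hsq.2.2.1]
      refine apex_rel (apex_sub_sq _) ?_
      simp only [Complex.conj_I, one_mul]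
    | s7 i g hg' hs =>
      rw [lift_sub ((grp_U hg' hs).trans (gS hg' hs (by norm_num)).symm), flag_U hg' hs, eU hg' hs,
        eS hg' hs (by norm_num), zt_down (by norm_num)]
      refine apex_rel (apex_sub_r _) ?_
      simp only [map_sub, map_one, Complex.conj_I]
      linear_combination -I_sq
    | m1 i g hg' hs =>
      obtain ⟨h1, -⟩ := hx.mid g (hmem hg') hs
      rw [lift_sub ((gM hg' hs (by norm_num)).trans (gM0 hg' hs).symm), flag_P, eM1 hg' hs,
        eM0 hg' hs, zt_up (by norm_num)]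
      simp only [map_sub, map_add, map_mul, Complex.conj_ofReal, Complex.conj_I]
      push_cast
      linear_combination ((x (g.col 1) : ℂ) - x (g.col 0)) * I_sq
    | m2 i g hg' hs =>
      obtain ⟨h1, -⟩ := hx.mid g (hmem hg') hs
      have h1C : 2 * (x (g.col 1) : ℂ) = x (g.col 0) + x (g.col 2) := by exact_mod_cast h1
      rw [lift_sub ((gM hg' hs (by norm_num)).trans (gM hg' hs (by norm_num)).symm), flag_P,
        eM1 hg' hs, eM hg' hs (by norm_num) (by norm_num), zt_down (by norm_num)]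
      simp only [map_sub, map_add, map_mul, Complex.conj_ofReal, Complex.conj_I]
      push_cast
      linear_combination (1 + I) * h1C - ((x (g.col 1) : ℂ) - x (g.col 0)) * I_sq
    | m3 i g hg' hs =>
      exact hor (by norm_num) (flag_P _) ((gM0 hg' hs).trans (gM hg' hs (by norm_num)).symm)
        ⟨_, _, eM0 hg' hs, eM hg' hs (by norm_num) (by norm_num)⟩
  · -- inside the groups
    intro u k v l he hv hg
    have hbd := lk_bd (mem_net.mp he)
    have hne := lk_ne (mem_net.mp he)
    have hσ : (zt ^ k) ^ 8 = -1 := zt_odd (hfirst _ _ _ _ he).2.2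
    have hu0 := (hfirst _ _ _ _ he).1
    simp only at hbd hne
    have hrow' : ∀ r, grp Γ u = 4 * r → ((pos Γ x α β v - pos Γ x α β u) * conj (zt ^ k)).im ≠ 0 ∧
        ∀ y, 0 < y → y < netN Γ → grp Γ y = grp Γ u → y ≠ u → y ≠ v →
        ((pos Γ x α β y - pos Γ x α β u) * conj (zt ^ k)).im *
          normSq (pos Γ x α β v - pos Γ x α β u) ≠
        ((pos Γ x α β v - pos Γ x α β u) * conj (zt ^ k)).im *
          normSq (pos Γ x α β y - pos Γ x α β u) := by
      intro r hr
      have h1 := rowOff hσ hr hu0 hbd.1 v (hg.symm.trans hr) hv hbd.2.2.1 (Ne.symm hne)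
      exact ⟨h1.1, fun y h2 h3 h4 h5 h6 => h1.2 y h2 h3 (h4.trans hr) h5 h6⟩
    rw [mem_net] at he
    cases he with
    | b1 => omega
    | b2 => omega
    | b3 => omega
    | b4 => omega
    | oe r h => exact hrow' r (grp_O r)
    | ov r h => exact hrow' r (grp_O r)
    | ev r h => exact hrow' r (grp_E r)
    | o1 r h => exact hrow' r (grp_O r)
    | e1 r h => exact hrow' r (grp_E r)
    | o2 r h => exact hrow' r (grp_O r)
    | e2 r h => exact hrow' r (grp_E r)
    | vv c k hc hk => exact hrow' _ (grp_V _)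
    | vp i j g hg' hj => exact hrow' _ (grp_V _)
    | vq i j g hg' hj => exact hrow' _ (grp_V _)
    | s1 i g hg' hs =>
      have h1 := sqOff0 hg' hs hσ _ (gS hg' hs (by norm_num : 1 < 4)) (Ne.symm hne)
      exact ⟨h1.1, fun y _ _ h4 h5 h6 => h1.2 y (h4.trans (gS0 hg' hs)) h5 h6⟩
    | s2 i g hg' hs =>
      have h1 := sqOff hg' hs (by norm_num : 1 < 4) hσ _ (gS hg' hs (by norm_num : 2 < 4))
        (Ne.symm hne)
      exact ⟨h1.1, fun y _ _ h4 h5 h6 => h1.2 y (h4.trans (gS hg' hs (by norm_num))) h5 h6⟩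
    | s3 i g hg' hs =>
      have h1 := sqOff hg' hs (by norm_num : 2 < 4) hσ _ (gS hg' hs (by norm_num : 3 < 4))
        (Ne.symm hne)
      exact ⟨h1.1, fun y _ _ h4 h5 h6 => h1.2 y (h4.trans (gS hg' hs (by norm_num))) h5 h6⟩
    | s4 i g hg' hs =>
      have h1 := sqOff0 hg' hs hσ _ (grp_U hg' hs) (Ne.symm hne)
      exact ⟨h1.1, fun y _ _ h4 h5 h6 => h1.2 y (h4.trans (gS0 hg' hs)) h5 h6⟩
    | s5 i g hg' hs =>
      have h1 := sqOff hg' hs (by norm_num : 3 < 4) hσ _ (grp_U hg' hs) (Ne.symm hne)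
      exact ⟨h1.1, fun y _ _ h4 h5 h6 => h1.2 y (h4.trans (gS hg' hs (by norm_num))) h5 h6⟩
    | s6 i g hg' hs =>
      have h1 := sqOff hg' hs (by norm_num : 2 < 4) hσ _ (grp_U hg' hs) (Ne.symm hne)
      exact ⟨h1.1, fun y _ _ h4 h5 h6 => h1.2 y (h4.trans (gS hg' hs (by norm_num))) h5 h6⟩
    | s7 i g hg' hs =>
      have h1 := sqOff hg' hs (by norm_num : 1 < 4) hσ _ (grp_U hg' hs) (Ne.symm hne)
      exact ⟨h1.1, fun y _ _ h4 h5 h6 => h1.2 y (h4.trans (gS hg' hs (by norm_num))) h5 h6⟩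
    | m1 i g hg' hs =>
      obtain ⟨h1, h2⟩ := hx.mid g (hmem hg') hs
      have hδ : x (g.col 1) - x (g.col 0) ≠ 0 := fun h => h2 (by linarith)
      have hP1 : pos Γ x α β (vP (4 * i + 1)) - pos Γ x α β (vP (4 * i)) =
          ((x (g.col 1) - x (g.col 0) : ℝ) : ℂ) * (1 + I) := by
        rw [eM1 hg' hs, eM0 hg' hs]; push_cast; ring
      have hA := (pos8_real hδ).mul pos8_one_add_I
      rw [hP1]
      refine ⟨im_ne_of_pos8 (conj_pow8 hσ) hA, fun y _ _ h4 h5 h6 => ?_⟩
      rcases grp_gate hg' (h4.trans (gM0 hg' hs)) with ⟨j, hj, hj3, rfl⟩ | ⟨hs', -⟩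
      · have hj2 : j = 2 := by
          have := hj3 hs
          have a1 : j ≠ 0 := fun h => h5 (by rw [h, Nat.add_zero])
          have a2 : j ≠ 1 := fun h => h6 (by rw [h])
          omega
        subst hj2
        have hP2 : pos Γ x α β (vP (4 * i + 2)) - pos Γ x α β (vP (4 * i)) =
            ((2 * (x (g.col 1) - x (g.col 0)) : ℝ) : ℂ) := by
          rw [eM hg' hs (by norm_num) (by norm_num), eM0 hg' hs, ← Complex.ofReal_sub]
          congr 1; linarith
        rw [hP2]
        have hB := pos8_real (mul_ne_zero two_ne_zero hδ)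
        refine off_circle hσ hB.ne hA.ne ?_
        have e1 : (((x (g.col 1) - x (g.col 0) : ℝ) : ℂ) * (1 + I) -
            ((2 * (x (g.col 1) - x (g.col 0)) : ℝ) : ℂ)) =
            ((x (g.col 1) - x (g.col 0) : ℝ) : ℂ) * (I - 1) := by push_cast; ring
        rw [e1]
        exact ((pos8_real hδ).mul pos8_I_sub_one).div (hB.mul hA)
      · rw [hs] at hs'; exact absurd hs' (by simp)
    | m2 i g hg' hs =>
      obtain ⟨h1, h2⟩ := hx.mid g (hmem hg') hs
      have hδ : x (g.col 1) - x (g.col 0) ≠ 0 := fun h => h2 (by linarith)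
      have hP1 : pos Γ x α β (vP (4 * i + 1)) - pos Γ x α β (vP (4 * i + 2)) =
          ((x (g.col 1) - x (g.col 0) : ℝ) : ℂ) * (I - 1) := by
        rw [eM1 hg' hs, eM hg' hs (by norm_num) (by norm_num)]
        have h1C : 2 * (x (g.col 1) : ℂ) = x (g.col 0) + x (g.col 2) := by exact_mod_cast h1
        push_cast; linear_combination h1C
      have hA := (pos8_real hδ).mul pos8_I_sub_one
      rw [hP1]
      refine ⟨im_ne_of_pos8 (conj_pow8 hσ) hA, fun y _ _ h4 h5 h6 => ?_⟩
      rcases grp_gate hg' (h4.trans (gM hg' hs (by norm_num))) with ⟨j, hj, hj3, rfl⟩ | ⟨hs', -⟩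
      · have hj2 : j = 0 := by
          have := hj3 hs
          have a1 : j ≠ 2 := fun h => h5 (by rw [h])
          have a2 : j ≠ 1 := fun h => h6 (by rw [h])
          omega
        subst hj2
        rw [Nat.add_zero]
        have hP2 : pos Γ x α β (vP (4 * i)) - pos Γ x α β (vP (4 * i + 2)) =
            ((-(2 * (x (g.col 1) - x (g.col 0))) : ℝ) : ℂ) := by
          rw [eM hg' hs (by norm_num) (by norm_num), eM0 hg' hs, ← Complex.ofReal_sub]
          congr 1; linarith
        rw [hP2]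
        have hB := pos8_real (neg_ne_zero.mpr (mul_ne_zero two_ne_zero hδ))
        refine off_circle hσ hB.ne hA.ne ?_
        have e1 : (((x (g.col 1) - x (g.col 0) : ℝ) : ℂ) * (I - 1) -
            ((-(2 * (x (g.col 1) - x (g.col 0))) : ℝ) : ℂ)) =
            ((x (g.col 1) - x (g.col 0) : ℝ) : ℂ) * (1 + I) := by push_cast; ring
        rw [e1]
        exact ((pos8_real hδ).mul pos8_one_add_I).div (hB.mul hA)
      · rw [hs] at hs'; exact absurd hs' (by simp)
    | m3 i g hg' hs =>
      obtain ⟨h1, h2⟩ := hx.mid g (hmem hg') hs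
      have hδ : x (g.col 1) - x (g.col 0) ≠ 0 := fun h => h2 (by linarith)
      have hP2 : pos Γ x α β (vP (4 * i + 2)) - pos Γ x α β (vP (4 * i)) =
          ((2 * (x (g.col 1) - x (g.col 0)) : ℝ) : ℂ) := by
        rw [eM hg' hs (by norm_num) (by norm_num), eM0 hg' hs, ← Complex.ofReal_sub]
        congr 1; linarith
      have hB := pos8_real (mul_ne_zero two_ne_zero hδ)
      rw [hP2]
      refine ⟨im_ne_of_pos8 (conj_pow8 hσ) hB, fun y _ _ h4 h5 h6 => ?_⟩
      rcases grp_gate hg' (h4.trans (gM0 hg' hs)) with ⟨j, hj, hj3, rfl⟩ | ⟨hs', -⟩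
      · have hj2 : j = 1 := by
          have := hj3 hs
          have a1 : j ≠ 0 := fun h => h5 (by rw [h, Nat.add_zero])
          have a2 : j ≠ 2 := fun h => h6 (by rw [h])
          omega
        subst hj2
        have hP1 : pos Γ x α β (vP (4 * i + 1)) - pos Γ x α β (vP (4 * i)) =
            ((x (g.col 1) - x (g.col 0) : ℝ) : ℂ) * (1 + I) := by
          rw [eM1 hg' hs, eM0 hg' hs]; push_cast; ring
        rw [hP1]
        have hA := (pos8_real hδ).mul pos8_one_add_I
        refine off_circle hσ hA.ne hB.ne ?_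
        have e1 : (((2 * (x (g.col 1) - x (g.col 0)) : ℝ) : ℂ) -
            ((x (g.col 1) - x (g.col 0) : ℝ) : ℂ) * (1 + I)) =
            ((x (g.col 1) - x (g.col 0) : ℝ) : ℂ) * (1 - I) := by push_cast; ring
        rw [e1]
        exact ((pos8_real hδ).mul pos8_one_sub_I).div (hA.mul hB)
      · rw [hs] at hs'; exact absurd hs' (by simp)
  · -- the links to infinity
    intro u k l he
    rw [mem_net] at he
    cases he <;> exact zt_ver (by norm_num)
  · intro u k l he y hy0 hyn hgy hyu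
    have hbd := lk_bd (mem_net.mp he)
    have hσ : (zt ^ k) ^ 8 = -1 := zt_odd (hfirst _ _ _ _ he).2.2
    have hu0 := (hfirst _ _ _ _ he).1
    simp only at hbd
    have key : ∀ r, grp Γ u = 4 * r →
        ((pos Γ x α β y - pos Γ x α β u) * conj (zt ^ k)).im ≠ 0 := fun r hr =>
      (rowOff hσ hr hu0 hbd.1 y (hgy.trans hr) hy0 hyn hyu).1
    rw [mem_net] at he
    cases he with
    | b1 => exact key 0 (grp_O 0)
    | b2 => exact key 0 (grp_E 0)
    | b3 => exact key 1 (grp_O 1)
    | b4 => exact key 1 (grp_E 1)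

/-- Numbers in general position give a drawing. -/
theorem net_complete {Γ : List Gt} {x : ℕ → ℝ} (hx : GoodX Γ x) :
    HasLombardiDrawing (rot (netN Γ) (net Γ)) := by
  have hf : (⋃ c ∈ Finset.range (netN Γ), {x c}).Finite :=
    Set.Finite.biUnion (Finset.finite_toSet _) (fun c _ => Set.finite_singleton _)
  obtain ⟨α, -, hα⟩ := (Set.infinite_univ.sdiff hf).nonempty
  obtain ⟨β, -, hβ⟩ := (Set.infinite_univ.sdiff (hf.union (Set.finite_singleton α))).nonempty
  simp only [Set.mem_iUnion, Finset.mem_range, Set.mem_singleton_iff, not_exists,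
    Set.mem_union, not_or] at hα hβ
  exact (groupData_net hx (Ne.symm hβ.2) (fun c hc =>
    ⟨fun h => hα c hc h.symm, fun h => hβ.1 c hc h.symm⟩)).drawing (portGraph_net Γ)

end Pool.Agent.Lib.MP_235cc9_lc
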