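import Pool.Agent.Lib.MP_235cc9_lc.NetValid
import Pool.Agent.Lib.MP_235cc9_lc.Chart

/-!
# From a drawing to numbers
-/

namespace Pool.Agent.Lib.MP_235cc9_lc

open Complex ComplexConjugate

theorem zt_4 : zt ^ 4 = I := by
  rw [zt_pow]
  have : ((2 * Real.pi * (4 : ℕ) / 16 : ℝ) : ℂ) * I = Real.pi / 2 * I := by push_cast; ring
  rw [this, Complex.exp_pi_div_two_mul_I]

theorem zt_8 : zt ^ 8 = -1 := by
  have : zt ^ 8 = (zt ^ 4) ^ 2 := by ring
  rw [this, zt_4, I_sq]

theorem zt_hor {k l : ℕ} (h : k + l = 8 ∨ k + l = 24) : zt ^ k * zt ^ l = -1 := by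
  rw [← pow_add]
  rcases h with h | h <;> rw [h]
  · exact zt_8
  · have : zt ^ 24 = (zt ^ 8) ^ 3 := by ring
    rw [this, zt_8]; norm_num

theorem zt_ver {k l : ℕ} (h : k + l = 16) : zt ^ k * zt ^ l = 1 := by
  rw [← pow_add, h]
  have : zt ^ 16 = (zt ^ 8) ^ 2 := by ring
  rw [this, zt_8]; norm_num

theorem zt_up {k l : ℕ} (h : k + l = 12) : zt ^ k * zt ^ l = -I := by
  rw [← pow_add, h]
  have : zt ^ 12 = zt ^ 8 * zt ^ 4 := by ring
  rw [this, zt_8, zt_4]; ring

theorem zt_down {k l : ℕ} (h : k + l = 4 ∨ k + l = 20) : zt ^ k * zt ^ l = I := by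
  rw [← pow_add]
  rcases h with h | h <;> rw [h]
  · exact zt_4
  · have : zt ^ 20 = (zt ^ 8) ^ 2 * zt ^ 4 := by ring
    rw [this, zt_8, zt_4]; ring

theorem orient_ver {a b v w : ℂ} (hab : a ≠ b) (h1 : conj (b - a) = -(b - a))
    (h2 : w * conj (v - a) = -(v - a)) (h3 : w * conj (v - b) = -(v - b)) : w = 1 := by
  have hne : b - a ≠ 0 := sub_ne_zero.mpr hab.symm
  have : (w - 1) * (b - a) = 0 := by
    simp only [map_sub] at h1 h2 h3
    linear_combination h3 - h2 + w * h1
  exact sub_eq_zero.mp ((mul_eq_zero.mp this).resolve_right hne)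

theorem orient_hor {a b v w : ℂ} (hab : a ≠ b) (h1 : conj (b - a) = b - a)
    (h2 : w * conj (v - a) = v - a) (h3 : w * conj (v - b) = v - b) : w = 1 := by
  have hne : b - a ≠ 0 := sub_ne_zero.mpr hab.symm
  have : (w - 1) * (b - a) = 0 := by
    simp only [map_sub] at h1 h2 h3
    linear_combination h2 - h3 - w * h1
  exact sub_eq_zero.mp ((mul_eq_zero.mp this).resolve_right hne)

theorem sq_algebra {w U Ub r s q : ℂ} (hN : w * I * (Ub + r) = U + r)
    (hR : w * I * (Ub - r) = -(U - r)) (hI : w * (Ub - s) = U - s)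
    (hS : w * (Ub - q) = -(U - q)) : s * q = r ^ 2 := by
  have hII := I_mul_I
  have e1 : w * I * Ub = r := by linear_combination (1 / 2 : ℂ) * hN + (1 / 2 : ℂ) * hR
  have e2 : U = w * I * r := by linear_combination (-1 / 2 : ℂ) * hN + (1 / 2 : ℂ) * hR
  have e0 : w * Ub = -I * r := by linear_combination (-I) * e1 + (w * Ub) * hII
  have e3 : w * (s + I * r) = s - I * r := by linear_combination -hI + e0 - e2
  have e4 : w * (q - I * r) = -(q + I * r) := by linear_combination -hS + e0 + e2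
  have e5 : 2 * (s * q) = 2 * r ^ 2 := by
    linear_combination (q - I * r) * (-e3) + (s + I * r) * e4 - 2 * r ^ 2 * hII
  linear_combination (1 / 2 : ℂ) * e5

theorem im_eq_of_conj {c : ℂ} (h : conj c = c) : c.im = 0 := by
  have := congrArg Complex.im h
  rw [Complex.conj_im] at this
  linarith

theorem re_eq_of_conj {c : ℂ} (h : conj c = -c) : c.re = 0 := by
  have := congrArg Complex.re h
  rw [Complex.conj_re, Complex.neg_re] at this
  linarith

/-- What a drawing of the net gives: an abscissa for every column. -/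
theorem net_sound {Γ : List Gt} (hd : HasLombardiDrawing (rot (netN Γ) (net Γ))) :
    ∃ X : ℕ → ℝ, ∀ g ∈ Γ,
      (g.1 = false → 2 * X (g.col 1) = X (g.col 0) + X (g.col 2) ∧ X (g.col 0) ≠ X (g.col 2)) ∧
      (g.1 = true → ∀ x0 : ℝ, X (g.col 3) - x0 = -(X (g.col 1) - x0) →
        (X (g.col 0) - x0) * (X (g.col 2) - x0) = (X (g.col 1) - x0) ^ 2) := by
  have hP := portGraph_net Γ
  obtain ⟨z, w, hw, hz, hrel⟩ := rot_sound hP hd
  obtain ⟨Z, W, hZ, hR, hO⟩ := chart_sound (n := netN Γ) (E := net Γ) (by unfold netN; omega) hw hz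
    (fun p q h => by
      have := lk_bd (mem_net.mp h)
      exact ⟨this.1, this.2.2.1⟩)
    (fun u k v l h => hrel u k v l (mem_symE.mpr (Or.inl h)))
  have hne : ∀ u v, 0 < u → 0 < v → u < netN Γ → v < netN Γ → u ≠ v → Z u ≠ Z v :=
    fun u v h1 h2 h3 h4 h5 h6 => h5 (hZ u v h1 h2 h3 h4 h6)
  have rel : ∀ {u k v l : ℕ}, Lk Γ (u, k) (v, l) → 0 < u → 0 < v →
      W u * W v * (zt ^ k * zt ^ l) * conj (Z v - Z u) = -(Z v - Z u) := by
    intro u k v l h h1 h2
    have := hR u k v l (mem_net.mpr h) h1 h2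
    linear_combination this
  have pO : ∀ r, 0 < vO r := fun r => by unfold vO; omega
  have pE : ∀ r, 0 < vE r := fun r => by unfold vE; omega
  have pV : ∀ r, 0 < vV r := fun r => by unfold vV; omega
  have pP : ∀ r, 0 < vP r := fun r => by unfold vP; omega
  have pU : ∀ r, 0 < vU r := fun r => by unfold vU; omega
  -- the first reference line
  have cO : ∀ r, r < numRows Γ → (W (vO r) = 1 ∧
      conj (Z (vO r) - Z (vO 0)) = -(Z (vO r) - Z (vO 0))) ∧
      (r + 1 < numRows Γ → W (vO (r + 1)) = 1 ∧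
        conj (Z (vO (r + 1)) - Z (vO 0)) = -(Z (vO (r + 1)) - Z (vO 0))) := by
    intro r
    induction r with
    | zero =>
      intro h
      have w0 := hO _ _ _ (mem_net.mpr (Lk.b1 (Γ := Γ))) (pO 0) (zt_ver (by norm_num))
      have w1 := hO _ _ _ (mem_net.mpr (Lk.b3 (Γ := Γ))) (pO 1) (zt_ver (by norm_num))
      refine ⟨⟨w0, by simp⟩, fun h1 => ⟨w1, ?_⟩⟩
      have := rel (Lk.o1 0 h1) (pO 0) (pO 1)
      rw [zt_ver (by norm_num), w0, w1] at this
      linear_combination this
    | succ r ih =>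
      intro h
      obtain ⟨⟨a1, a2⟩, h2⟩ := ih (by omega)
      obtain ⟨a3, a4⟩ := h2 h
      refine ⟨⟨a3, a4⟩, fun h3 => ?_⟩
      have e1 := rel (Lk.o1 (r + 1) h3) (pO _) (pO _)
      have e2 := rel (Lk.o2 r (by omega)) (pO _) (pO _)
      rw [zt_ver (by norm_num), a3] at e1
      rw [zt_ver (by norm_num), a1] at e2
      have hab : Z (vO r) ≠ Z (vO (r + 1)) := hne _ _ (pO _) (pO _) (by unfold vO netN; omega)
        (by unfold vO netN; omega) (by unfold vO; omega)
      have hv : conj (Z (vO (r + 1)) - Z (vO r)) = -(Z (vO (r + 1)) - Z (vO r)) := by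
        simp only [map_sub] at a2 a4 ⊢
        linear_combination a4 - a2
      rw [show r + 1 + 1 = r + 2 from rfl] at e1 ⊢
      have hw1 : W (vO (r + 2)) = 1 := orient_ver (v := Z (vO (r + 2))) hab hv
        (by linear_combination e2) (by linear_combination e1)
      refine ⟨hw1, ?_⟩
      rw [hw1] at e1
      simp only [map_sub] at a4 e1 ⊢
      linear_combination a4 + e1
  have cO' : ∀ r, r < numRows Γ → W (vO r) = 1 ∧
      conj (Z (vO r) - Z (vO 0)) = -(Z (vO r) - Z (vO 0)) := fun r hr => (cO r hr).1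
  -- the second reference line
  have cE : ∀ r, r < numRows Γ → (W (vE r) = 1 ∧
      conj (Z (vE r) - Z (vE 0)) = -(Z (vE r) - Z (vE 0))) ∧
      (r + 1 < numRows Γ → W (vE (r + 1)) = 1 ∧
        conj (Z (vE (r + 1)) - Z (vE 0)) = -(Z (vE (r + 1)) - Z (vE 0))) := by
    intro r
    induction r with
    | zero =>
      intro h
      have w0 := hO _ _ _ (mem_net.mpr (Lk.b2 (Γ := Γ))) (pE 0) (zt_ver (by norm_num))
      have w1 := hO _ _ _ (mem_net.mpr (Lk.b4 (Γ := Γ))) (pE 1) (zt_ver (by norm_num))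
      refine ⟨⟨w0, by simp⟩, fun h1 => ⟨w1, ?_⟩⟩
      have := rel (Lk.e1 0 h1) (pE 0) (pE 1)
      rw [zt_ver (by norm_num), w0, w1] at this
      linear_combination this
    | succ r ih =>
      intro h
      obtain ⟨⟨a1, a2⟩, h2⟩ := ih (by omega)
      obtain ⟨a3, a4⟩ := h2 h
      refine ⟨⟨a3, a4⟩, fun h3 => ?_⟩
      have e1 := rel (Lk.e1 (r + 1) h3) (pE _) (pE _)
      have e2 := rel (Lk.e2 r (by omega)) (pE _) (pE _)
      rw [zt_ver (by norm_num), a3] at e1
      rw [zt_ver (by norm_num), a1] at e2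
      have hab : Z (vE r) ≠ Z (vE (r + 1)) := hne _ _ (pE _) (pE _) (by unfold vE netN; omega)
        (by unfold vE netN; omega) (by unfold vE; omega)
      have hv : conj (Z (vE (r + 1)) - Z (vE r)) = -(Z (vE (r + 1)) - Z (vE r)) := by
        simp only [map_sub] at a2 a4 ⊢
        linear_combination a4 - a2
      rw [show r + 1 + 1 = r + 2 from rfl] at e1 ⊢
      have hw1 : W (vE (r + 2)) = 1 := orient_ver (v := Z (vE (r + 2))) hab hv
        (by linear_combination e2) (by linear_combination e1)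
      refine ⟨hw1, ?_⟩
      rw [hw1] at e1
      simp only [map_sub] at a4 e1 ⊢
      linear_combination a4 + e1
  -- the vertices of the columns
  have cV : ∀ r, r < numRows Γ → W (vV r) = 1 := by
    intro r hr
    have w1 := (cO' r hr).1
    have w2 := ((cE r hr).1).1
    have e1 := rel (Lk.oe r hr) (pO _) (pE _)
    have e2 := rel (Lk.ov r hr) (pO _) (pV _)
    have e3 := rel (Lk.ev r hr) (pE _) (pV _)
    rw [zt_hor (by norm_num), w1, w2] at e1
    rw [zt_hor (by norm_num), w1] at e2
    rw [zt_hor (by norm_num), w2] at e3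
    have hab : Z (vO r) ≠ Z (vE r) := hne _ _ (pO _) (pE _) (by unfold vO netN; omega)
      (by unfold vE netN; omega) (by unfold vO vE; omega)
    exact orient_hor (v := Z (vV r)) hab (by linear_combination -e1) (by linear_combination -e2)
      (by linear_combination -e3)
  have cC : ∀ c k, c < colBound Γ → k < rowsPer Γ →
      (Z (vV (c * rowsPer Γ + k))).re = (Z (vV (c * rowsPer Γ))).re := by
    intro c k hc
    induction k with
    | zero => intro _; rfl
    | succ k ih =>
      intro hk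
      have h1 := ih (by omega)
      have e1 := rel (Lk.vv c k hc hk) (pV _) (pV _)
      rw [zt_ver (by norm_num), cV _ (row_lt hc (by omega)),
        cV (c * rowsPer Γ + k + 1) (row_lt (k := k + 1) hc hk)] at e1
      have h2 := re_eq_of_conj (c := Z (vV (c * rowsPer Γ + k + 1)) - Z (vV (c * rowsPer Γ + k)))
        (by linear_combination e1)
      rw [Complex.sub_re] at h2
      rw [← Nat.add_assoc]
      linarith
  set X : ℕ → ℝ := fun c => (Z (vV (c * rowsPer Γ))).re with hX
  have cP : ∀ i g j, Γ[i]? = some g → j < 4 → W (vP (4 * i + j)) = 1 ∧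
      (Z (vP (4 * i + j))).re = X (g.col j) := by
    intro i g j hg hj
    have hc := col_lt (j := j) hg
    have hk : 4 * i + j + 1 < rowsPer Γ := by have := idx_lt hg; unfold rowsPer; omega
    have r1 := row_lt hc (by omega : 4 * i + j < rowsPer Γ)
    have r2 := row_lt hc hk
    have e1 := rel (Lk.vp i j g hg hj) (pV _) (pP _)
    have e2 := rel (Lk.vq i j g hg hj) (pV _) (pP _)
    have e3 := rel (Lk.vv (g.col j) (4 * i + j) hc hk) (pV _) (pV _)
    rw [zt_ver (by norm_num), cV _ r1] at e1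
    rw [zt_ver (by norm_num), cV _ (by simpa [Nat.add_assoc] using r2)] at e2
    rw [zt_ver (by norm_num), cV _ r1, cV _ (by simpa [Nat.add_assoc] using r2)] at e3
    have hab : Z (vV (g.col j * rowsPer Γ + (4 * i + j))) ≠
        Z (vV (g.col j * rowsPer Γ + (4 * i + j) + 1)) := hne _ _ (pV _) (pV _)
      (by unfold vV netN; omega) (by unfold vV netN; omega) (by unfold vV; omega)
    have hw1 : W (vP (4 * i + j)) = 1 := orient_ver (v := Z (vP (4 * i + j))) hab
      (by linear_combination e3) (by linear_combination e1) (by linear_combination e2)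
    refine ⟨hw1, ?_⟩
    rw [hw1] at e1
    have h2 := re_eq_of_conj (c := Z (vP (4 * i + j)) -
      Z (vV (g.col j * rowsPer Γ + (4 * i + j)))) (by linear_combination e1)
    rw [Complex.sub_re, cC _ _ hc (by omega)] at h2
    simp only [hX]
    linarith
  refine ⟨X, fun g hg => ?_⟩
  obtain ⟨i, hi, hgi⟩ := List.getElem_of_mem hg
  have hgi' : Γ[i]? = some g := by rw [List.getElem?_eq_getElem hi, hgi]
  obtain ⟨w0, x0⟩ := cP i g 0 hgi' (by norm_num)
  obtain ⟨w1, x1⟩ := cP i g 1 hgi' (by norm_num)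
  obtain ⟨w2, x2⟩ := cP i g 2 hgi' (by norm_num)
  obtain ⟨w3, x3⟩ := cP i g 3 hgi' (by norm_num)
  rw [Nat.add_zero] at w0 x0
  constructor
  · intro hs
    have e1 := rel (Lk.m1 i g hgi' hs) (pP _) (pP _)
    have e2 := rel (Lk.m2 i g hgi' hs) (pP _) (pP _)
    have e3 := rel (Lk.m3 i g hgi' hs) (pP _) (pP _)
    rw [zt_up (by norm_num), w0, w1] at e1
    rw [zt_down (by norm_num), w2, w1] at e2
    rw [zt_hor (by norm_num), w0, w2] at e3
    have f1 := congrArg Complex.re e1
    have f2 := congrArg Complex.re e2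
    have f3 := im_eq_of_conj (c := Z (vP (4 * i + 2)) - Z (vP (4 * i))) (by linear_combination -e3)
    simp [Complex.mul_re] at f1 f2
    rw [Complex.sub_im] at f3
    have hab : Z (vP (4 * i)) ≠ Z (vP (4 * i + 2)) := hne _ _ (pP _) (pP _)
      (by unfold vP netN; omega) (by unfold vP netN; omega) (by unfold vP; omega)
    refine ⟨by rw [← x0, ← x1, ← x2]; linarith, fun hcon => hab ?_⟩
    refine Complex.ext (by rw [x0, x2, hcon]) (by linarith)
  · intro hs t hN
    have e1 := rel (Lk.s1 i g hgi' hs) (pP _) (pP _)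
    have e2 := rel (Lk.s2 i g hgi' hs) (pP _) (pP _)
    have e3 := rel (Lk.s3 i g hgi' hs) (pP _) (pP _)
    have e4 := rel (Lk.s4 i g hgi' hs) (pP _) (pU _)
    have e5 := rel (Lk.s5 i g hgi' hs) (pP _) (pU _)
    have e6 := rel (Lk.s6 i g hgi' hs) (pP _) (pU _)
    have e7 := rel (Lk.s7 i g hgi' hs) (pP _) (pU _)
    rw [zt_hor (by norm_num), w0, w1] at e1
    rw [zt_hor (by norm_num), w1, w2] at e2
    rw [zt_hor (by norm_num), w2, w3] at e3
    rw [zt_hor (by norm_num), w0] at e4
    rw [zt_up (by norm_num), w3] at e5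
    rw [zt_ver (by norm_num), w2] at e6
    rw [zt_down (by norm_num), w1] at e7
    have f1 := im_eq_of_conj (c := Z (vP (4 * i + 1)) - Z (vP (4 * i))) (by linear_combination -e1)
    have f2 := im_eq_of_conj (c := Z (vP (4 * i + 2)) - Z (vP (4 * i + 1)))
      (by linear_combination -e2)
    have f3 := im_eq_of_conj (c := Z (vP (4 * i + 3)) - Z (vP (4 * i + 2)))
      (by linear_combination -e3)
    rw [Complex.sub_im] at f1 f2 f3
    set h : ℝ := (Z (vP (4 * i))).im with hh
    have z0 : Z (vP (4 * i)) = (X (g.col 0) : ℂ) + h * I := by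
      apply Complex.ext <;> simp [x0, hh]
    have z1 : Z (vP (4 * i + 1)) = (X (g.col 1) : ℂ) + h * I := by
      apply Complex.ext <;> simp [x1]; linarith
    have z2 : Z (vP (4 * i + 2)) = (X (g.col 2) : ℂ) + h * I := by
      apply Complex.ext <;> simp [x2]; linarith
    have z3 : Z (vP (4 * i + 3)) = (X (g.col 3) : ℂ) + h * I := by
      apply Complex.ext <;> simp [x3]; linarith
    rw [z0] at e4
    rw [z3] at e5
    rw [z2] at e6
    rw [z1] at e7
    simp only [map_sub, map_add, map_mul, Complex.conj_ofReal, Complex.conj_I] at e4 e5 e6 e7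
    have hNC : ((X (g.col 3) : ℝ) : ℂ) - t = -(X (g.col 1) - t) := by exact_mod_cast hN
    have key := sq_algebra (w := W (vU i)) (U := Z (vU i) - (t + h * I))
      (Ub := conj (Z (vU i)) - (t - h * I)) (r := X (g.col 1) - t) (s := X (g.col 0) - t)
      (q := X (g.col 2) - t)
      (by linear_combination -e5 + (W (vU i) * I - 1) * hNC)
      (by linear_combination e7) (by linear_combination -e4) (by linear_combination e6)
    exact_mod_cast key

end Pool.Agent.Lib.MP_235cc9_lc
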