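import Pool.Agent.Lib.MP_235cc9_lc.Net

/-!
# The links form a simple graph
-/

set_option linter.unusedSimpArgs false

namespace Pool.Agent.Lib.MP_235cc9_lc

@[simp] theorem vO_mod (r : ℕ) : vO r % 6 = 1 := by unfold vO; omega
@[simp] theorem vO_div (r : ℕ) : vO r / 6 = r := by unfold vO; omega
@[simp] theorem vE_mod (r : ℕ) : vE r % 6 = 2 := by unfold vE; omega
@[simp] theorem vE_div (r : ℕ) : vE r / 6 = r := by unfold vE; omega
@[simp] theorem vV_mod (r : ℕ) : vV r % 6 = 3 := by unfold vV; omega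
@[simp] theorem vV_div (r : ℕ) : vV r / 6 = r := by unfold vV; omega
@[simp] theorem vP_mod (r : ℕ) : vP r % 6 = 4 := by unfold vP; omega
@[simp] theorem vP_div (r : ℕ) : vP r / 6 = r := by unfold vP; omega
@[simp] theorem vU_mod (r : ℕ) : vU r % 6 = 5 := by unfold vU; omega
@[simp] theorem vU_div (r : ℕ) : vU r / 6 = r := by unfold vU; omega

/-- The column of a vertex of a gate. -/
def colOf (Γ : List Gt) (k : ℕ) : ℕ := ((Γ[k / 4]?).map (fun g => g.col (k % 4))).getD 0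

/-- The kind of the gate of a vertex. -/
def isSq (Γ : List Gt) (k : ℕ) : Bool := ((Γ[k / 4]?).map (fun g => g.1)).getD false

/-- The partner of a port. -/
def mate (Γ : List Gt) (p : Port) : Port :=
  match p.1 % 6, p.2 with
  | 0, 7 => (vO 0, 9)
  | 0, 15 => (vE 0, 1)
  | 0, 5 => (vO 1, 11)
  | 0, 1 => (vE 1, 15)
  | 1, 9 => (0, 7)
  | 1, 11 => (0, 5)
  | 1, 5 => (vE (p.1 / 6), 3)
  | 1, 7 => (vV (p.1 / 6), 1)
  | 1, 1 => (vO (p.1 / 6 + 1), 15)
  | 1, 15 => (vO (p.1 / 6 - 1), 1)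
  | 1, 3 => (vO (p.1 / 6 + 2), 13)
  | 1, 13 => (vO (p.1 / 6 - 2), 3)
  | 2, 1 => (0, 15)
  | 2, 15 => (0, 1)
  | 2, 3 => (vO (p.1 / 6), 5)
  | 2, 13 => (vV (p.1 / 6), 11)
  | 2, 5 => (vE (p.1 / 6 + 1), 11)
  | 2, 11 => (vE (p.1 / 6 - 1), 5)
  | 2, 7 => (vE (p.1 / 6 + 2), 9)
  | 2, 9 => (vE (p.1 / 6 - 2), 7)
  | 3, 1 => (vO (p.1 / 6), 7)
  | 3, 11 => (vE (p.1 / 6), 13)
  | 3, 3 => (vV (p.1 / 6 + 1), 13)
  | 3, 13 => (vV (p.1 / 6 - 1), 3)
  | 3, 5 => (vP (p.1 / 6 % rowsPer Γ), 11)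
  | 3, 7 => (vP (p.1 / 6 % rowsPer Γ - 1), 9)
  | 4, 11 => (vV (colOf Γ (p.1 / 6) * rowsPer Γ + p.1 / 6), 5)
  | 4, 9 => (vV (colOf Γ (p.1 / 6) * rowsPer Γ + p.1 / 6 + 1), 7)
  | 4, l =>
    match isSq Γ (p.1 / 6), p.1 / 6 % 4, l with
    | false, 0, 5 => (vP (p.1 / 6 + 1), 7)
    | false, 0, 3 => (vP (p.1 / 6 + 2), 5)
    | false, 1, 7 => (vP (p.1 / 6 - 1), 5)
    | false, 1, 3 => (vP (p.1 / 6 + 1), 1)
    | false, 2, 1 => (vP (p.1 / 6 - 1), 3)
    | false, 2, 5 => (vP (p.1 / 6 - 2), 3)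
    | true, 0, 3 => (vP (p.1 / 6 + 1), 5)
    | true, 0, 7 => (vU (p.1 / 6 / 4), 1)
    | true, 1, 5 => (vP (p.1 / 6 - 1), 3)
    | true, 1, 1 => (vP (p.1 / 6 + 1), 7)
    | true, 1, 13 => (vU (p.1 / 6 / 4), 7)
    | true, 2, 7 => (vP (p.1 / 6 - 1), 1)
    | true, 2, 3 => (vP (p.1 / 6 + 1), 5)
    | true, 2, 13 => (vU (p.1 / 6 / 4), 3)
    | true, 3, 5 => (vP (p.1 / 6 - 1), 3)
    | true, 3, 7 => (vU (p.1 / 6 / 4), 5)
    | _, _, _ => (0, 0)
  | 5, 1 => (vP (4 * (p.1 / 6)), 7)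
  | 5, 5 => (vP (4 * (p.1 / 6) + 3), 7)
  | 5, 3 => (vP (4 * (p.1 / 6) + 2), 13)
  | 5, 7 => (vP (4 * (p.1 / 6) + 1), 13)
  | _, _ => (0, 0)

/-- The port used for a given neighbour. -/
def lab (Γ : List Gt) (u v : ℕ) : ℕ :=
  match u % 6, v % 6 with
  | 0, 1 => if v / 6 = 0 then 7 else 5
  | 0, 2 => if v / 6 = 0 then 15 else 1
  | 1, 0 => if u / 6 = 0 then 9 else 11
  | 2, 0 => if u / 6 = 0 then 1 else 15
  | 1, 2 => 5
  | 2, 1 => 3
  | 1, 3 => 7
  | 3, 1 => 1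
  | 2, 3 => 13
  | 3, 2 => 11
  | 1, 1 => if v / 6 = u / 6 + 1 then 1 else if u / 6 = v / 6 + 1 then 15 else
      if v / 6 = u / 6 + 2 then 3 else 13
  | 2, 2 => if v / 6 = u / 6 + 1 then 5 else if u / 6 = v / 6 + 1 then 11 else
      if v / 6 = u / 6 + 2 then 7 else 9
  | 3, 3 => if v / 6 = u / 6 + 1 then 3 else 13
  | 3, 4 => if u / 6 % rowsPer Γ = v / 6 then 5 else 7
  | 4, 3 => if v / 6 % rowsPer Γ = u / 6 then 11 else 9
  | 4, 4 =>
    match isSq Γ (u / 6), u / 6 % 4, v / 6 % 4 with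
    | false, 0, 1 => 5
    | false, 1, 0 => 7
    | false, 2, 1 => 1
    | false, 1, 2 => 3
    | false, 0, 2 => 3
    | false, 2, 0 => 5
    | true, 0, 1 => 3
    | true, 1, 0 => 5
    | true, 1, 2 => 1
    | true, 2, 1 => 7
    | true, 2, 3 => 3
    | true, 3, 2 => 5
    | _, _, _ => 0
  | 4, 5 => match u / 6 % 4 with
    | 0 => 7
    | 3 => 7
    | _ => 13
  | 5, 4 => match v / 6 % 4 with
    | 0 => 1
    | 1 => 7
    | 2 => 3
    | _ => 5
  | _, _ => 0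

theorem lk_mate {Γ : List Gt} {p q : Port} (h : Lk Γ p q) : mate Γ p = q ∧ mate Γ q = p := by
  have a0 : ∀ i : ℕ, 4 * i % 4 = 0 := by omega
  have a1 : ∀ i : ℕ, (4 * i + 1) % 4 = 1 := by omega
  have a2 : ∀ i : ℕ, (4 * i + 2) % 4 = 2 := by omega
  have a3 : ∀ i : ℕ, (4 * i + 3) % 4 = 3 := by omega
  have b0 : ∀ i : ℕ, 4 * i / 4 = i := by omega
  have b1 : ∀ i : ℕ, (4 * i + 1) / 4 = i := by omega
  have b2 : ∀ i : ℕ, (4 * i + 2) / 4 = i := by omega
  have b3 : ∀ i : ℕ, (4 * i + 3) / 4 = i := by omega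
  have hK : ∀ c k : ℕ, k < rowsPer Γ → (c * rowsPer Γ + k) % rowsPer Γ = k := fun c k hk => by
    rw [Nat.add_comm, Nat.add_mul_mod_self_right, Nat.mod_eq_of_lt hk]
  cases h with
  | vp i j g hg hj =>
    have h1 : 4 * i + j < rowsPer Γ := by have := idx_lt hg; unfold rowsPer; omega
    have h2 : (4 * i + j) / 4 = i := by omega
    have h3 : (4 * i + j) % 4 = j := by omega
    simp [mate, colOf, hK _ _ h1, h2, h3, hg]
  | vq i j g hg hj =>
    have h1 : 4 * i + j + 1 < rowsPer Γ := by have := idx_lt hg; unfold rowsPer; omega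
    have h2 : (4 * i + j) / 4 = i := by omega
    have h3 : (4 * i + j) % 4 = j := by omega
    simp [mate, colOf, Nat.add_assoc, hK _ _ (by simpa [Nat.add_assoc] using h1), h2, h3, hg]
  | s1 i g hg hs => simp [mate, isSq, a0, a1, a2, a3, b0, b1, b2, b3, hg, hs]
  | s2 i g hg hs => simp [mate, isSq, a0, a1, a2, a3, b0, b1, b2, b3, hg, hs]
  | s3 i g hg hs => simp [mate, isSq, a0, a1, a2, a3, b0, b1, b2, b3, hg, hs]
  | s4 i g hg hs => simp [mate, isSq, a0, a1, a2, a3, b0, b1, b2, b3, hg, hs]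
  | s5 i g hg hs => simp [mate, isSq, a0, a1, a2, a3, b0, b1, b2, b3, hg, hs]
  | s6 i g hg hs => simp [mate, isSq, a0, a1, a2, a3, b0, b1, b2, b3, hg, hs]
  | s7 i g hg hs => simp [mate, isSq, a0, a1, a2, a3, b0, b1, b2, b3, hg, hs]
  | m1 i g hg hs => simp [mate, isSq, a0, a1, a2, a3, b0, b1, b2, b3, hg, hs]
  | m2 i g hg hs => simp [mate, isSq, a0, a1, a2, a3, b0, b1, b2, b3, hg, hs]
  | m3 i g hg hs => simp [mate, isSq, a0, a1, a2, a3, b0, b1, b2, b3, hg, hs]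
  | _ => simp [mate]

theorem lk_lab {Γ : List Gt} {p q : Port} (h : Lk Γ p q) :
    lab Γ p.1 q.1 = p.2 ∧ lab Γ q.1 p.1 = q.2 := by
  have a0 : ∀ i : ℕ, 4 * i % 4 = 0 := by omega
  have a1 : ∀ i : ℕ, (4 * i + 1) % 4 = 1 := by omega
  have a2 : ∀ i : ℕ, (4 * i + 2) % 4 = 2 := by omega
  have a3 : ∀ i : ℕ, (4 * i + 3) % 4 = 3 := by omega
  have b0 : ∀ i : ℕ, 4 * i / 4 = i := by omega
  have b1 : ∀ i : ℕ, (4 * i + 1) / 4 = i := by omega
  have b2 : ∀ i : ℕ, (4 * i + 2) / 4 = i := by omega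
  have b3 : ∀ i : ℕ, (4 * i + 3) / 4 = i := by omega
  have hK : ∀ c k : ℕ, k < rowsPer Γ → (c * rowsPer Γ + k) % rowsPer Γ = k := fun c k hk => by
    rw [Nat.add_comm, Nat.add_mul_mod_self_right, Nat.mod_eq_of_lt hk]
  cases h with
  | vp i j g hg hj =>
    have h1 : 4 * i + j < rowsPer Γ := by have := idx_lt hg; unfold rowsPer; omega
    simp [lab, hK _ _ h1]
  | vq i j g hg hj =>
    have h1 : 4 * i + j + 1 < rowsPer Γ := by have := idx_lt hg; unfold rowsPer; omega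
    simp [lab, Nat.add_assoc, hK _ _ (by simpa [Nat.add_assoc] using h1)]
  | s1 i g hg hs => simp [lab, isSq, a0, a1, a2, a3, b0, b1, b2, b3, hg, hs]
  | s2 i g hg hs => simp [lab, isSq, a0, a1, a2, a3, b0, b1, b2, b3, hg, hs]
  | s3 i g hg hs => simp [lab, isSq, a0, a1, a2, a3, b0, b1, b2, b3, hg, hs]
  | s4 i g hg hs => simp [lab, isSq, a0, a1, a2, a3, b0, b1, b2, b3, hg, hs]
  | s5 i g hg hs => simp [lab, isSq, a0, a1, a2, a3, b0, b1, b2, b3, hg, hs]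
  | s6 i g hg hs => simp [lab, isSq, a0, a1, a2, a3, b0, b1, b2, b3, hg, hs]
  | s7 i g hg hs => simp [lab, isSq, a0, a1, a2, a3, b0, b1, b2, b3, hg, hs]
  | m1 i g hg hs => simp [lab, isSq, a0, a1, a2, a3, b0, b1, b2, b3, hg, hs]
  | m2 i g hg hs => simp [lab, isSq, a0, a1, a2, a3, b0, b1, b2, b3, hg, hs]
  | m3 i g hg hs => simp [lab, isSq, a0, a1, a2, a3, b0, b1, b2, b3, hg, hs]
  | o1 r h => simp [lab, show ¬ (r = r + 1 + 1) by omega]
  | e1 r h => simp [lab, show ¬ (r = r + 1 + 1) by omega]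
  | o2 r h => simp [lab, show ¬ (r = r + 2 + 1) by omega, show ¬ (r = r + 2 + 2) by omega]
  | e2 r h => simp [lab, show ¬ (r = r + 2 + 1) by omega, show ¬ (r = r + 2 + 2) by omega]
  | vv c k hc hk =>
    simp [lab, show ¬ (c * rowsPer Γ + k = c * rowsPer Γ + k + 1 + 1) by omega]
  | _ => simp [lab]

theorem lk_ne {Γ : List Gt} {p q : Port} (h : Lk Γ p q) : p.1 ≠ q.1 := by
  cases h <;> simp only [vO, vE, vV, vP, vU] <;> omega

theorem lk_bd {Γ : List Gt} {p q : Port} (h : Lk Γ p q) :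
    p.1 < netN Γ ∧ p.2 < 16 ∧ q.1 < netN Γ ∧ q.2 < 16 := by
  cases h with
  | vv c k hc hk =>
    have := row_lt hc hk
    have := row_lt hc (by omega : k < rowsPer Γ)
    simp only [vV, netN]
    omega
  | vp i j g hg hj =>
    have h1 : 4 * i + j < rowsPer Γ := by have := idx_lt hg; unfold rowsPer; omega
    have := row_lt (col_lt (j := j) hg) h1
    have := idx_lt hg
    simp only [vV, vP, netN]
    omega
  | vq i j g hg hj =>
    have h1 : 4 * i + j + 1 < rowsPer Γ := by have := idx_lt hg; unfold rowsPer; omega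
    have := row_lt (col_lt (j := j) hg) h1
    have := idx_lt hg
    simp only [vV, vP, netN]
    omega
  | b1 => simp only [vO, netN]; omega
  | b2 => simp only [vE, netN]; omega
  | b3 => simp only [vO, netN]; omega
  | b4 => simp only [vE, netN]; omega
  | oe r h => simp only [vO, vE, netN]; omega
  | ov r h => simp only [vO, vV, netN]; omega
  | ev r h => simp only [vE, vV, netN]; omega
  | o1 r h => simp only [vO, netN]; omega
  | e1 r h => simp only [vE, netN]; omega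
  | o2 r h => simp only [vO, netN]; omega
  | e2 r h => simp only [vE, netN]; omega
  | s1 i g hg hs => have := idx_lt hg; simp only [vP, netN]; omega
  | s2 i g hg hs => have := idx_lt hg; simp only [vP, netN]; omega
  | s3 i g hg hs => have := idx_lt hg; simp only [vP, netN]; omega
  | s4 i g hg hs => have := idx_lt hg; simp only [vP, vU, netN]; omega
  | s5 i g hg hs => have := idx_lt hg; simp only [vP, vU, netN]; omega
  | s6 i g hg hs => have := idx_lt hg; simp only [vP, vU, netN]; omega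
  | s7 i g hg hs => have := idx_lt hg; simp only [vP, vU, netN]; omega
  | m1 i g hg hs => have := idx_lt hg; simp only [vP, netN]; omega
  | m2 i g hg hs => have := idx_lt hg; simp only [vP, netN]; omega
  | m3 i g hg hs => have := idx_lt hg; simp only [vP, netN]; omega

theorem portGraph_net (Γ : List Gt) : PortGraph (netN Γ) (net Γ) := by
  have hm : ∀ {p q : Port}, (p, q) ∈ symE (net Γ) → mate Γ p = q ∧ lab Γ p.1 q.1 = p.2 ∧
      p.1 ≠ q.1 ∧ p.1 < netN Γ ∧ p.2 < 16 := by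
    intro p q h
    rw [mem_symE, mem_net, mem_net] at h
    rcases h with h | h
    · exact ⟨(lk_mate h).1, (lk_lab h).1, lk_ne h, (lk_bd h).1, (lk_bd h).2.1⟩
    · exact ⟨(lk_mate h).2, (lk_lab h).2, (lk_ne h).symm, (lk_bd h).2.2.1, (lk_bd h).2.2.2⟩
  refine ⟨fun p q q' h h' => ?_, fun p q h => (hm h).2.2.1, fun p q p' q' h h' h1 h2 => ?_,
    fun p q h => (hm h).2.2.2⟩
  · rw [← (hm h).1, ← (hm h').1]
  · refine Prod.ext h1 ?_
    rw [← (hm h).2.1, ← (hm h').2.1, h1, h2]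

end Pool.Agent.Lib.MP_235cc9_lc
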