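import Pool.Agent.Lib.MP_235cc9_lc.NetComplete2
import Pool.Agent.Lib.MP_0f8b55_lc.PhaseA

/-!
# From addition and multiplication constraints to gates
-/

set_option linter.unusedSimpArgs false

namespace Pool.Agent.Lib.MP_235cc9_lc

open Pool.Agent.Lib.MP_0f8b55_lc

/-- The midpoint gate. -/
def mid (a m b : ℕ) : Gt := (false, a, m, b, a)

/-- The square gate. -/
def sqg (i r s n : ℕ) : Gt := (true, i, r, s, n)

/-- The column of an auxiliary number. -/
def ax (t : ℕ) : ℕ := 2 * t + 3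

/-- The column of a variable. -/
def vr (a : ℕ) : ℕ := 2 * a + 2

/-- The gates for `A + B = C`. -/
def addG (A B C t : ℕ) : List Gt :=
  [mid 0 (ax t) (ax (t + 1)), mid (ax (t + 1)) (ax (t + 2)) A, mid B (ax t) (ax (t + 3)),
   mid (ax (t + 3)) (ax (t + 2)) C]

/-- The gates for `A * B = C`. -/
def mulG (A B C t : ℕ) : List Gt :=
  addG A (ax (t + 28)) (ax (t + 29)) t ++ addG B (ax (t + 28)) (ax (t + 30)) (t + 4) ++
  addG (ax (t + 29)) B (ax (t + 31)) (t + 8) ++
  addG (ax (t + 39)) (ax (t + 36)) (ax (t + 40)) (t + 12) ++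
  addG (ax (t + 37)) (ax (t + 38)) (ax (t + 41)) (t + 16) ++
  addG C C (ax (t + 42)) (t + 20) ++
  addG (ax (t + 41)) (ax (t + 42)) (ax (t + 40)) (t + 24) ++
  [mid (ax (t + 32)) 0 (ax (t + 28)), mid (ax (t + 33)) 0 (ax (t + 29)),
   mid (ax (t + 34)) 0 (ax (t + 30)), mid (ax (t + 35)) 0 (ax (t + 31)),
   sqg 4 (ax (t + 28)) (ax (t + 36)) (ax (t + 32)), sqg 4 (ax (t + 29)) (ax (t + 37)) (ax (t + 33)),
   sqg 4 (ax (t + 30)) (ax (t + 38)) (ax (t + 34)), sqg 4 (ax (t + 31)) (ax (t + 39)) (ax (t + 35))]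

/-- The gates of a constraint. -/
def conG (e : Con × ℕ) : List Gt :=
  if e.1.1 = true then mulG (vr e.1.2.1) (vr e.1.2.2.1) (vr e.1.2.2.2) (64 * e.2)
  else addG (vr e.1.2.1) (vr e.1.2.2.1) (vr e.1.2.2.2) (64 * e.2)

/-- The gates of a system. -/
def gatesOf (L : List Con) : List Gt := mid 0 1 4 :: L.zipIdx.flatMap conG

theorem mem_gatesOf {L : List Con} {κ : ℕ} {e : Con} (he : L[κ]? = some e) {g : Gt}
    (hg : g ∈ conG (e, κ)) : g ∈ gatesOf L :=
  List.mem_cons_of_mem _ (List.mem_flatMap.mpr ⟨(e, κ), List.mk_mem_zipIdx_iff_getElem?.mpr he, hg⟩)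

/-! ### Soundness -/

theorem addG_sound {X : ℕ → ℝ} {A B C t : ℕ}
    (h : ∀ g ∈ addG A B C t, g.1 = false → 2 * X (g.col 1) = X (g.col 0) + X (g.col 2)) :
    (X A - X 0) + (X B - X 0) = X C - X 0 := by
  have h1 := h _ (by simp [addG] : mid 0 (ax t) (ax (t + 1)) ∈ addG A B C t) rfl
  have h2 := h _ (by simp [addG] : mid (ax (t + 1)) (ax (t + 2)) A ∈ addG A B C t) rfl
  have h3 := h _ (by simp [addG] : mid B (ax t) (ax (t + 3)) ∈ addG A B C t) rfl
  have h4 := h _ (by simp [addG] : mid (ax (t + 3)) (ax (t + 2)) C ∈ addG A B C t) rfl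
  simp only [mid, Gt.col] at h1 h2 h3 h4
  norm_num at h1 h2 h3 h4
  linarith

theorem mulG_sound {X : ℕ → ℝ} {A B C t : ℕ}
    (h : ∀ g ∈ mulG A B C t,
      (g.1 = false → 2 * X (g.col 1) = X (g.col 0) + X (g.col 2) ∧ X (g.col 0) ≠ X (g.col 2)) ∧
      (g.1 = true → ∀ x0 : ℝ, X (g.col 3) - x0 = -(X (g.col 1) - x0) →
        (X (g.col 0) - x0) * (X (g.col 2) - x0) = (X (g.col 1) - x0) ^ 2)) :
    (X 4 - X 0) * (X C - X 0) = (X A - X 0) * (X B - X 0) := by
  unfold mulG at h
  simp only [List.mem_append] at h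
  have a1 := addG_sound (X := X) (fun g hg hs =>
    ((h g (.inl (.inl (.inl (.inl (.inl (.inl (.inl hg)))))))).1 hs).1)
  have a2 := addG_sound (X := X) (fun g hg hs =>
    ((h g (.inl (.inl (.inl (.inl (.inl (.inl (.inr hg)))))))).1 hs).1)
  have a3 := addG_sound (X := X) (fun g hg hs =>
    ((h g (.inl (.inl (.inl (.inl (.inl (.inr hg))))))).1 hs).1)
  have a4 := addG_sound (X := X) (fun g hg hs =>
    ((h g (.inl (.inl (.inl (.inl (.inr hg)))))).1 hs).1)
  have a5 := addG_sound (X := X) (fun g hg hs => ((h g (.inl (.inl (.inl (.inr hg))))).1 hs).1)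
  have a6 := addG_sound (X := X) (fun g hg hs => ((h g (.inl (.inl (.inr hg)))).1 hs).1)
  have a7 := addG_sound (X := X) (fun g hg hs => ((h g (.inl (.inr hg))).1 hs).1)
  have neg : ∀ N r : ℕ, mid N 0 r ∈ [mid (ax (t + 32)) 0 (ax (t + 28)),
      mid (ax (t + 33)) 0 (ax (t + 29)), mid (ax (t + 34)) 0 (ax (t + 30)),
      mid (ax (t + 35)) 0 (ax (t + 31)),
      sqg 4 (ax (t + 28)) (ax (t + 36)) (ax (t + 32)),
      sqg 4 (ax (t + 29)) (ax (t + 37)) (ax (t + 33)),
      sqg 4 (ax (t + 30)) (ax (t + 38)) (ax (t + 34)),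
      sqg 4 (ax (t + 31)) (ax (t + 39)) (ax (t + 35))] → X N - X 0 = -(X r - X 0) := by
    intro N r hg
    have := ((h _ (.inr hg)).1 rfl).1
    simp only [mid, Gt.col] at this
    norm_num at this
    linarith
  have sq : ∀ r s n : ℕ, sqg 4 r s n ∈ [mid (ax (t + 32)) 0 (ax (t + 28)),
      mid (ax (t + 33)) 0 (ax (t + 29)), mid (ax (t + 34)) 0 (ax (t + 30)),
      mid (ax (t + 35)) 0 (ax (t + 31)),
      sqg 4 (ax (t + 28)) (ax (t + 36)) (ax (t + 32)),
      sqg 4 (ax (t + 29)) (ax (t + 37)) (ax (t + 33)),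
      sqg 4 (ax (t + 30)) (ax (t + 38)) (ax (t + 34)),
      sqg 4 (ax (t + 31)) (ax (t + 39)) (ax (t + 35))] → X n - X 0 = -(X r - X 0) →
      (X 4 - X 0) * (X s - X 0) = (X r - X 0) ^ 2 := by
    intro r s n hg hn
    have := (h _ (.inr hg)).2 rfl (X 0)
    simp only [sqg, Gt.col] at this
    norm_num at this
    exact this (by linarith)
  have s0 := sq (ax (t + 28)) (ax (t + 36)) (ax (t + 32)) (by simp) (neg _ _ (by simp))
  have s1 := sq (ax (t + 29)) (ax (t + 37)) (ax (t + 33)) (by simp) (neg _ _ (by simp))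
  have s2 := sq (ax (t + 30)) (ax (t + 38)) (ax (t + 34)) (by simp) (neg _ _ (by simp))
  have s3 := sq (ax (t + 31)) (ax (t + 39)) (ax (t + 35)) (by simp) (neg _ _ (by simp))
  generalize X 4 - X 0 = s at *
  generalize X A - X 0 = a at *
  generalize X B - X 0 = b at *
  generalize X C - X 0 = c at *
  generalize X (ax (t + 28)) - X 0 = g at *
  generalize X (ax (t + 29)) - X 0 = r1 at *
  generalize X (ax (t + 30)) - X 0 = r2 at *
  generalize X (ax (t + 31)) - X 0 = r3 at *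
  generalize X (ax (t + 36)) - X 0 = S0 at *
  generalize X (ax (t + 37)) - X 0 = S1 at *
  generalize X (ax (t + 38)) - X 0 = S2 at *
  generalize X (ax (t + 39)) - X 0 = S3 at *
  generalize X (ax (t + 40)) - X 0 = T1 at *
  generalize X (ax (t + 41)) - X 0 = T2 at *
  generalize X (ax (t + 42)) - X 0 = T3 at *
  have key : 2 * (s * c) = 2 * (a * b) := by
    linear_combination s * a6 + s * a7 - s * a4 + s * a5 + s3 + s0 - s1 - s2 -
      (r3 + r1 + b) * a3 - 2 * b * a1 + (r2 + b + g) * a2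
  linarith

theorem gates_sound {L : List Con} {X : ℕ → ℝ} (h : ∀ g ∈ gatesOf L,
      (g.1 = false → 2 * X (g.col 1) = X (g.col 0) + X (g.col 2) ∧ X (g.col 0) ≠ X (g.col 2)) ∧
      (g.1 = true → ∀ x0 : ℝ, X (g.col 3) - x0 = -(X (g.col 1) - x0) →
        (X (g.col 0) - x0) * (X (g.col 2) - x0) = (X (g.col 1) - x0) ^ 2)) :
    ∃ x : ℕ → ℝ, x 1 = 1 ∧ ∀ e ∈ L, e.holds x := by
  have h0 := (h (mid 0 1 4) (by simp [gatesOf])).1 rfl
  have hs : X 4 - X 0 ≠ 0 := by
    intro h1
    apply h0.2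
    simp only [mid, Gt.col]
    norm_num
    linarith
  refine ⟨fun a => (X (vr a) - X 0) / (X 4 - X 0), ?_, fun e he => ?_⟩
  · simp only [vr]
    exact div_self hs
  · obtain ⟨κ, hκ, hke⟩ := List.getElem_of_mem he
    have hk : L[κ]? = some e := by rw [List.getElem?_eq_getElem hκ, hke]
    obtain ⟨t, a, b, c⟩ := e
    cases t
    · have h1 := addG_sound (X := X) (A := vr a) (B := vr b) (C := vr c) (t := 64 * κ)
        (fun g hg hs' => ((h g (mem_gatesOf hk (by simpa [conG] using hg))).1 hs').1)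
      simp only [Con.holds]
      rw [← add_div, h1]
    · have h1 := mulG_sound (X := X) (A := vr a) (B := vr b) (C := vr c) (t := 64 * κ)
        (fun g hg => h g (mem_gatesOf hk (by simpa [conG] using hg)))
      simp only [Con.holds]
      field_simp
      linarith

/-! ### Completeness -/

/-- The auxiliary numbers of an addition are fine. -/
def AddOK (a b c m1 n1 m2 n2 : ℝ) : Prop :=
  (2 * m1 = 0 + n1 ∧ 0 ≠ n1) ∧ (2 * m2 = n1 + a ∧ n1 ≠ a) ∧ (2 * m1 = b + n2 ∧ b ≠ n2) ∧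
    (2 * m2 = n2 + c ∧ n2 ≠ c)

theorem exists_addOK {a b c : ℝ} (h : a + b = c) : ∃ m1 n1 m2 n2, AddOK a b c m1 n1 m2 n2 := by
  have hf : ({0, a / 2, b, (b + c) / 2} : Set ℝ).Finite := by simp
  obtain ⟨m, -, hm⟩ := (Set.infinite_univ.sdiff hf).nonempty
  simp only [Set.mem_insert_iff, Set.mem_singleton_iff, not_or] at hm
  obtain ⟨h1, h2, h3, h4⟩ := hm
  refine ⟨m, 2 * m, m + a / 2, 2 * m - b, ⟨by ring, fun h => h1 (by linarith)⟩,
    ⟨by ring, fun h => h2 (by linarith)⟩, ⟨by ring, fun h => h3 (by linarith)⟩,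
    ⟨by linarith, fun h => h4 (by linarith)⟩⟩

/-- The number can be squared by a gate. -/
def Good4 (r : ℝ) : Prop := r ≠ 0 ∧ r ^ 2 ≠ 1 ∧ r ^ 4 - 6 * r ^ 2 + 1 ≠ 0

theorem bad4_finite (s : ℝ) : {g : ℝ | ¬ Good4 (s + g)}.Finite := by
  have h1 : {r : ℝ | ¬ Good4 r}.Finite := by
    have f1 : ({0} : Set ℝ).Finite := Set.finite_singleton 0
    have f2 := quad_finite 1 0 (-1) (Or.inl one_ne_zero)
    have f3 := quad_finite 1 2 (-1) (Or.inl one_ne_zero)
    have f4 := quad_finite 1 (-2) (-1) (Or.inl one_ne_zero)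
    refine (f1.union (f2.union (f3.union f4))).subset (fun r hr => ?_)
    simp only [Set.mem_ofPred_eq, Set.mem_union, Set.mem_singleton_iff, Good4] at hr ⊢
    by_contra hcon
    push Not at hcon
    obtain ⟨c1, c2, c3, c4⟩ := hcon
    apply hr
    refine ⟨c1, fun h => c2 (by linarith), fun h => ?_⟩
    have : (1 * r ^ 2 + 2 * r + -1) * (1 * r ^ 2 + -2 * r + -1) = 0 := by linear_combination h
    exact mul_ne_zero c3 c4 this
  have h2 := h1.preimage (f := fun g : ℝ => s + g) (fun a _ b _ h => by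
    simpa using h)
  exact h2

/-- The auxiliary numbers of a constraint are fine. -/
def AuxOK (x : ℕ → ℝ) (e : Con) (α : ℕ → ℝ) : Prop :=
  if e.1 = true then
    AddOK (x e.2.1) (α 28) (α 29) (α 0) (α 1) (α 2) (α 3) ∧
    AddOK (x e.2.2.1) (α 28) (α 30) (α 4) (α 5) (α 6) (α 7) ∧
    AddOK (α 29) (x e.2.2.1) (α 31) (α 8) (α 9) (α 10) (α 11) ∧
    AddOK (α 39) (α 36) (α 40) (α 12) (α 13) (α 14) (α 15) ∧
    AddOK (α 37) (α 38) (α 41) (α 16) (α 17) (α 18) (α 19) ∧
    AddOK (x e.2.2.2) (x e.2.2.2) (α 42) (α 20) (α 21) (α 22) (α 23) ∧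
    AddOK (α 41) (α 42) (α 40) (α 24) (α 25) (α 26) (α 27) ∧
    (α 32 = -α 28 ∧ α 36 = α 28 ^ 2 ∧ Good4 (α 28)) ∧
    (α 33 = -α 29 ∧ α 37 = α 29 ^ 2 ∧ Good4 (α 29)) ∧
    (α 34 = -α 30 ∧ α 38 = α 30 ^ 2 ∧ Good4 (α 30)) ∧
    (α 35 = -α 31 ∧ α 39 = α 31 ^ 2 ∧ Good4 (α 31))
  else AddOK (x e.2.1) (x e.2.2.1) (x e.2.2.2) (α 0) (α 1) (α 2) (α 3)

theorem exists_auxOK {x : ℕ → ℝ} {e : Con} (he : e.holds x) : ∃ α : ℕ → ℝ, AuxOK x e α := by
  obtain ⟨t, a, b, c⟩ := e
  cases t
  · simp only [Con.holds] at he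
    obtain ⟨m1, n1, m2, n2, h⟩ := exists_addOK he
    refine ⟨fun j => [m1, n1, m2, n2].getD j 0, ?_⟩
    simp only [AuxOK, Bool.false_eq_true, if_false]
    exact h
  · simp only [Con.holds] at he
    have hf := ((bad4_finite 0).union (bad4_finite (x a))).union
      ((bad4_finite (x b)).union (bad4_finite (x a + x b)))
    obtain ⟨g, -, hg⟩ := (Set.infinite_univ.sdiff hf).nonempty
    simp only [Set.mem_union, Set.mem_ofPred_eq, not_or, not_not] at hg
    obtain ⟨⟨g1, g2⟩, g3, g4⟩ := hg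
    rw [zero_add] at g1
    set r1 := x a + g with hr1
    set r2 := x b + g with hr2
    set r3 := r1 + x b with hr3
    have g4' : Good4 r3 := by
      have : r3 = x a + x b + g := by rw [hr3, hr1]; ring
      rw [this]; exact g4
    obtain ⟨a0, a1, a2, a3, h0⟩ := exists_addOK hr1.symm
    obtain ⟨a4, a5, a6, a7, h1⟩ := exists_addOK hr2.symm
    obtain ⟨a8, a9, a10, a11, h2⟩ := exists_addOK hr3.symm
    obtain ⟨a12, a13, a14, a15, h3⟩ := exists_addOK (rfl : r3 ^ 2 + g ^ 2 = r3 ^ 2 + g ^ 2)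
    obtain ⟨a16, a17, a18, a19, h4⟩ := exists_addOK (rfl : r1 ^ 2 + r2 ^ 2 = r1 ^ 2 + r2 ^ 2)
    obtain ⟨a20, a21, a22, a23, h5⟩ := exists_addOK (rfl : x c + x c = x c + x c)
    obtain ⟨a24, a25, a26, a27, h6⟩ := exists_addOK (a := r1 ^ 2 + r2 ^ 2) (b := x c + x c)
      (c := r3 ^ 2 + g ^ 2) (by rw [← he, hr3, hr1, hr2]; ring)
    refine ⟨fun j => [a0, a1, a2, a3, a4, a5, a6, a7, a8, a9, a10, a11, a12, a13, a14, a15, a16,
      a17, a18, a19, a20, a21, a22, a23, a24, a25, a26, a27, g, r1, r2, r3, -g, -r1, -r2, -r3,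
      g ^ 2, r1 ^ 2, r2 ^ 2, r3 ^ 2, r3 ^ 2 + g ^ 2, r1 ^ 2 + r2 ^ 2, x c + x c].getD j 0, ?_⟩
    simp only [AuxOK, if_true]
    exact ⟨h0, h1, h2, h3, h4, h5, h6, ⟨rfl, rfl, g1⟩, ⟨rfl, rfl, g2⟩, ⟨rfl, rfl, g3⟩,
      ⟨rfl, rfl, g4'⟩⟩

/-- The numbers of the columns. -/
noncomputable def val (x : ℕ → ℝ) (A : ℕ → ℕ → ℝ) (c : ℕ) : ℝ :=
  if c = 0 then 0 else if c = 1 then 1 / 2 else if c % 2 = 0 then x (c / 2 - 1)
  else A ((c - 3) / 2 / 64) ((c - 3) / 2 % 64)

theorem val_vr (x : ℕ → ℝ) (A : ℕ → ℕ → ℝ) (a : ℕ) : val x A (vr a) = x a := by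
  have h1 : vr a ≠ 0 := by unfold vr; omega
  have h2 : vr a ≠ 1 := by unfold vr; omega
  have h3 : vr a % 2 = 0 := by unfold vr; omega
  have h4 : vr a / 2 - 1 = a := by unfold vr; omega
  simp [val, h1, h2, h3, h4]

theorem val_ax (x : ℕ → ℝ) (A : ℕ → ℕ → ℝ) (κ j : ℕ) (hj : j < 64) :
    val x A (ax (64 * κ + j)) = A κ j := by
  have h1 : ax (64 * κ + j) ≠ 0 := by unfold ax; omega
  have h2 : ax (64 * κ + j) ≠ 1 := by unfold ax; omega
  have h3 : ax (64 * κ + j) % 2 ≠ 0 := by unfold ax; omega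
  have h4 : (ax (64 * κ + j) - 3) / 2 / 64 = κ := by unfold ax; omega
  have h5 : (ax (64 * κ + j) - 3) / 2 % 64 = j := by unfold ax; omega
  simp only [val, h1, h2, h3, h4, h5, if_false]

/-- A gate is satisfied in general position. -/
def GG (x : ℕ → ℝ) (g : Gt) : Prop :=
  (g.1 = false → 2 * x (g.col 1) = x (g.col 0) + x (g.col 2) ∧ x (g.col 0) ≠ x (g.col 2)) ∧
  (g.1 = true → x (g.col 0) = 1 ∧ x (g.col 3) = -x (g.col 1) ∧
    x (g.col 2) = x (g.col 1) ^ 2 ∧ x (g.col 1) ≠ 0 ∧ x (g.col 1) ^ 2 ≠ 1 ∧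
    x (g.col 1) ^ 4 - 6 * x (g.col 1) ^ 2 + 1 ≠ 0)

theorem GG_mid {x : ℕ → ℝ} {a m b : ℕ} (h : 2 * x m = x a + x b ∧ x a ≠ x b) :
    GG x (mid a m b) := ⟨fun _ => h, fun h' => absurd h' (by simp [mid])⟩

theorem GG_sq {x : ℕ → ℝ} {i r s n : ℕ} (h1 : x i = 1) (h2 : x n = -x r ∧ x s = x r ^ 2 ∧
    Good4 (x r)) : GG x (sqg i r s n) :=
  ⟨fun h' => absurd h' (by simp [sqg]), fun _ => ⟨h1, h2.1, h2.2.1, h2.2.2.1, h2.2.2.2.1,
    h2.2.2.2.2⟩⟩

theorem addG_complete {x : ℕ → ℝ} {A B C t : ℕ} (h0 : x 0 = 0)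
    (h : AddOK (x A) (x B) (x C) (x (ax t)) (x (ax (t + 1))) (x (ax (t + 2))) (x (ax (t + 3)))) :
    ∀ g ∈ addG A B C t, GG x g := by
  obtain ⟨h1, h2, h3, h4⟩ := h
  intro g hg
  simp only [addG, List.mem_cons, List.not_mem_nil, or_false] at hg
  rcases hg with rfl | rfl | rfl | rfl
  · exact GG_mid (by rw [h0]; exact h1)
  · exact GG_mid h2
  · exact GG_mid h3
  · exact GG_mid h4

theorem gates_complete {L : List Con} {x : ℕ → ℝ} (h1 : x 1 = 1) (hx : ∀ e ∈ L, e.holds x) :
    ∃ y : ℕ → ℝ, GoodX (gatesOf L) y := by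
  have hA : ∀ κ : ℕ, ∃ α : ℕ → ℝ, ∀ e : Con, L[κ]? = some e → AuxOK x e α := by
    intro κ
    rcases he : L[κ]? with _ | e
    · exact ⟨fun _ => 0, fun e he' => by simp at he'⟩
    · obtain ⟨α, hα⟩ := exists_auxOK (hx e (List.mem_of_getElem? he))
      exact ⟨α, fun e' he' => by
        simp only [Option.some.injEq] at he'
        rw [← he']; exact hα⟩
  choose A hA using hA
  have v0 : val x A 0 = 0 := by simp [val]
  have v4 : val x A 4 = 1 := by
    have := val_vr x A 1
    rw [← h1, ← this]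
    rfl
  have key : ∀ g ∈ gatesOf L, GG (val x A) g := by
    intro g hg
    simp only [gatesOf, List.mem_cons, List.mem_flatMap] at hg
    rcases hg with rfl | ⟨⟨e, κ⟩, he, hg⟩
    · refine GG_mid ?_
      rw [v0, v4]
      simp [val]
    · have hk := List.mk_mem_zipIdx_iff_getElem?.mp he
      have hα := hA κ e hk
      obtain ⟨t, a, b, c⟩ := e
      have va : ∀ j < 64, val x A (ax (64 * κ + j)) = A κ j := fun j hj => val_ax x A κ j hj
      have va0 : val x A (ax (64 * κ)) = A κ 0 := by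
        have := va 0 (by norm_num)
        rwa [Nat.add_zero] at this
      cases t
      · simp only [conG, Bool.false_eq_true, if_false] at hg
        simp only [AuxOK, Bool.false_eq_true, if_false] at hα
        refine addG_complete v0 ?_ g hg
        rw [val_vr, val_vr, val_vr, va0, va 1 (by norm_num), va 2 (by norm_num),
          va 3 (by norm_num)]
        exact hα
      · simp only [conG, if_true, mulG, List.mem_append] at hg
        simp only [AuxOK, if_true] at hα
        obtain ⟨p1, p2, p3, p4, p5, p6, p7, q0, q1, q2, q3⟩ := hα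
        have vs : ∀ i j : ℕ, i + j < 64 → val x A (ax (64 * κ + i + j)) = A κ (i + j) := by
          intro i j hij
          rw [Nat.add_assoc]
          exact va _ hij
        rcases hg with (((((((hg | hg) | hg) | hg) | hg) | hg) | hg) | hg)
        · refine addG_complete v0 ?_ g hg
          rw [val_vr, va 28 (by norm_num), va 29 (by norm_num), va0, va 1 (by norm_num),
            va 2 (by norm_num), va 3 (by norm_num)]
          exact p1
        · refine addG_complete v0 ?_ g hg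
          rw [val_vr, va 28 (by norm_num), va 30 (by norm_num), va 4 (by norm_num),
            vs 4 1 (by norm_num), vs 4 2 (by norm_num), vs 4 3 (by norm_num)]
          exact p2
        · refine addG_complete v0 ?_ g hg
          rw [val_vr, va 29 (by norm_num), va 31 (by norm_num), va 8 (by norm_num),
            vs 8 1 (by norm_num), vs 8 2 (by norm_num), vs 8 3 (by norm_num)]
          exact p3
        · refine addG_complete v0 ?_ g hg
          rw [va 39 (by norm_num), va 36 (by norm_num), va 40 (by norm_num), va 12 (by norm_num),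
            vs 12 1 (by norm_num), vs 12 2 (by norm_num), vs 12 3 (by norm_num)]
          exact p4
        · refine addG_complete v0 ?_ g hg
          rw [va 37 (by norm_num), va 38 (by norm_num), va 41 (by norm_num), va 16 (by norm_num),
            vs 16 1 (by norm_num), vs 16 2 (by norm_num), vs 16 3 (by norm_num)]
          exact p5
        · refine addG_complete v0 ?_ g hg
          rw [val_vr, va 42 (by norm_num), va 20 (by norm_num),
            vs 20 1 (by norm_num), vs 20 2 (by norm_num), vs 20 3 (by norm_num)]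
          exact p6
        · refine addG_complete v0 ?_ g hg
          rw [va 41 (by norm_num), va 42 (by norm_num), va 40 (by norm_num), va 24 (by norm_num),
            vs 24 1 (by norm_num), vs 24 2 (by norm_num), vs 24 3 (by norm_num)]
          exact p7
        · have mm : ∀ {n r : ℝ}, n = -r → Good4 r → 2 * (0 : ℝ) = n + r ∧ n ≠ r := by
            intro n r h h'
            refine ⟨by rw [h]; ring, fun h'' => h'.1 (by linarith)⟩
          simp only [List.mem_cons, List.not_mem_nil, or_false] at hg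
          rcases hg with rfl | rfl | rfl | rfl | rfl | rfl | rfl | rfl
          · refine GG_mid ?_
            rw [v0, va 28 (by norm_num), va 32 (by norm_num)]
            exact mm q0.1 q0.2.2
          · refine GG_mid ?_
            rw [v0, va 29 (by norm_num), va 33 (by norm_num)]
            exact mm q1.1 q1.2.2
          · refine GG_mid ?_
            rw [v0, va 30 (by norm_num), va 34 (by norm_num)]
            exact mm q2.1 q2.2.2
          · refine GG_mid ?_
            rw [v0, va 31 (by norm_num), va 35 (by norm_num)]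
            exact mm q3.1 q3.2.2
          · refine GG_sq v4 ?_
            rw [va 28 (by norm_num), va 32 (by norm_num), va 36 (by norm_num)]
            exact q0
          · refine GG_sq v4 ?_
            rw [va 29 (by norm_num), va 33 (by norm_num), va 37 (by norm_num)]
            exact q1
          · refine GG_sq v4 ?_
            rw [va 30 (by norm_num), va 34 (by norm_num), va 38 (by norm_num)]
            exact q2
          · refine GG_sq v4 ?_
            rw [va 31 (by norm_num), va 35 (by norm_num), va 39 (by norm_num)]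
            exact q3
  exact ⟨val x A, ⟨fun g hg hs => (key g hg).1 hs, fun g hg hs => (key g hg).2 hs⟩⟩

/-- The rotation system of a token sequence. -/
def rotOf (l : List Tok) : List (List ℕ) :=
  rot (netN (gatesOf (consOf l))) (net (gatesOf (consOf l)))

theorem rotOf_iff (φ : Fml) :
    (∃ x : ℕ → ℝ, φ.Holds x) ↔ HasLombardiDrawing (rotOf φ.toks) := by
  constructor
  · intro h
    obtain ⟨x, hx1, hx⟩ := phaseA_complete φ h
    obtain ⟨y, hy⟩ := gates_complete hx1 hx
    exact net_complete hy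
  · intro h
    obtain ⟨X, hX⟩ := net_sound h
    obtain ⟨x, hx1, hx⟩ := gates_sound hX
    exact phaseA_sound φ ⟨x, by rw [hx1]; exact one_ne_zero, hx⟩

end Pool.Agent.Lib.MP_235cc9_lc
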