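import Pool.Agent.Lib.MP_235cc9_lc.Num
import Pool.Agent.Lib.MP_0f8b55_lc.PTProofs

/-!
# The reduction is computable in polynomial time
-/

namespace Pool.Agent.Lib.MP_235cc9_lc

open Pool.Agent.Lib.PolyTime Pool.Agent.Lib.MP_0f8b55_lc

variable {α : Type} [Enc α]

theorem pt_lk {u v : α → ℕ} (hu : PT u) (k : ℕ) (hv : PT v) (l : ℕ) :
    PT (fun a => (((u a, k), (v a, l)) : Link)) :=
  (hu.pair (PT.const k)).pair (hv.pair (PT.const l))

theorem pt_vO {f : α → ℕ} (hf : PT f) : PT (fun a => vO (f a)) := (hf.mulConst 6).addConst 1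
theorem pt_vE {f : α → ℕ} (hf : PT f) : PT (fun a => vE (f a)) := (hf.mulConst 6).addConst 2
theorem pt_vV {f : α → ℕ} (hf : PT f) : PT (fun a => vV (f a)) := (hf.mulConst 6).addConst 3
theorem pt_vP {f : α → ℕ} (hf : PT f) : PT (fun a => vP (f a)) := (hf.mulConst 6).addConst 4
theorem pt_vU {f : α → ℕ} (hf : PT f) : PT (fun a => vU (f a)) := (hf.mulConst 6).addConst 5

theorem pt_rowsPer : PT rowsPer := ((PT.length PT.id).mulConst 4).addConst 1

theorem pt_colBound : PT colBound := by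
  refine PT.length (PT.flatMap (g := fun (_ : List Gt) g =>
    List.range (g.2.1 + g.2.2.1 + g.2.2.2.1 + g.2.2.2.2 + 1)) PT.id (PT.range ?_))
  have h : PT (fun x : List Gt × Gt => x.2) := PT.snd
  exact (((h.snd'.fst'.add h.snd'.snd'.fst').add h.snd'.snd'.snd'.fst').add
    h.snd'.snd'.snd'.snd').addConst 1

theorem pt_numRows : PT numRows := pt_colBound.mul pt_rowsPer

theorem pt_netN : PT netN :=
  ((pt_numRows.add ((PT.length PT.id).mulConst 4)).addConst 2).mulConst 6

theorem pt_rowL : PT rowL := by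
  have h : PT (fun r : ℕ => r) := PT.id
  exact PT.cons (pt_lk (pt_vO h) 5 (pt_vE h) 3) (PT.cons (pt_lk (pt_vO h) 7 (pt_vV h) 1)
    (PT.cons (pt_lk (pt_vE h) 13 (pt_vV h) 11) (PT.const [])))

theorem pt_ver1 : PT ver1 := by
  have h : PT (fun r : ℕ => r) := PT.id
  exact PT.cons (pt_lk (pt_vO h) 1 (pt_vO (h.addConst 1)) 15)
    (PT.cons (pt_lk (pt_vE h) 5 (pt_vE (h.addConst 1)) 11) (PT.const []))

theorem pt_ver2 : PT ver2 := by
  have h : PT (fun r : ℕ => r) := PT.id
  exact PT.cons (pt_lk (pt_vO h) 3 (pt_vO (h.addConst 2)) 13)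
    (PT.cons (pt_lk (pt_vE h) 7 (pt_vE (h.addConst 2)) 9) (PT.const []))

theorem pt_colL : PT colL := by
  have h : PT (fun r : ℕ => r) := PT.id
  exact pt_lk (pt_vV h) 3 (pt_vV (h.addConst 1)) 13

theorem pt_useL {K c k : α → ℕ} (hK : PT K) (hc : PT c) (hk : PT k) :
    PT (fun a => useL (K a) (c a) (k a)) :=
  PT.cons (pt_lk (pt_vV ((hc.mul hK).add hk)) 5 (pt_vP hk) 11)
    (PT.cons (pt_lk (pt_vV (((hc.mul hK).add hk).addConst 1)) 7 (pt_vP hk) 9) (PT.const []))

theorem pt_gateL : PT gateL := by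
  have h : PT (fun x : Gt × ℕ => x.2) := PT.snd
  have p : ∀ j, PT (fun x : Gt × ℕ => vP (4 * x.2 + j)) := fun j => pt_vP ((h.mulConst 4).addConst j)
  have p0 : PT (fun x : Gt × ℕ => vP (4 * x.2)) := pt_vP (h.mulConst 4)
  have u : PT (fun x : Gt × ℕ => vU x.2) := pt_vU h
  have hb : PT (fun x : Gt × ℕ => x.1.1) := PT.fst.fst'
  refine PT.ite (c := fun x : Gt × ℕ => x.1.1 = true) ?_ ?_ ?_
  · exact hb.congr (fun x => by cases x.1.1 <;> rfl)
  · exact PT.cons (pt_lk p0 3 (p 1) 5) (PT.cons (pt_lk (p 1) 1 (p 2) 7)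
      (PT.cons (pt_lk (p 2) 3 (p 3) 5) (PT.cons (pt_lk p0 7 u 1) (PT.cons (pt_lk (p 3) 7 u 5)
      (PT.cons (pt_lk (p 2) 13 u 3) (PT.cons (pt_lk (p 1) 13 u 7) (PT.const [])))))))
  · exact PT.cons (pt_lk p0 5 (p 1) 7) (PT.cons (pt_lk (p 2) 1 (p 1) 3)
      (PT.cons (pt_lk p0 3 (p 2) 5) (PT.const [])))

theorem pt_col {g : α → Gt} {j : α → ℕ} (hg : PT g) (hj : PT j) :
    PT (fun a => (g a).col (j a)) := by
  have e : ∀ i : ℕ, PT (fun a => decide (j a = i)) := fun i => (PT.eqConst i).comp hj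
  exact PT.ite (e 0) hg.snd'.fst' (PT.ite (e 1) hg.snd'.snd'.fst'
    (PT.ite (e 2) hg.snd'.snd'.snd'.fst' hg.snd'.snd'.snd'.snd'))

theorem pt_net : PT net := by
  have hn : PT (fun Γ : List Gt => numRows Γ) := pt_numRows
  have hr : PT (fun Γ : List Gt => rowsPer Γ) := pt_rowsPer
  have hz : PT (fun Γ : List Gt => Γ.zipIdx) := PT.zipIdx PT.id
  have a1 : PT (fun Γ : List Gt => (List.range (numRows Γ)).flatMap rowL) :=
    PT.flatMap (g := fun (_ : List Gt) r => rowL r) (PT.range hn) (pt_rowL.comp PT.snd)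
  have a2 : PT (fun Γ : List Gt => (List.range (numRows Γ - 1)).flatMap ver1) :=
    PT.flatMap (g := fun (_ : List Gt) r => ver1 r) (PT.range (hn.sub (PT.const 1)))
      (pt_ver1.comp PT.snd)
  have a3 : PT (fun Γ : List Gt => (List.range (numRows Γ - 2)).flatMap ver2) :=
    PT.flatMap (g := fun (_ : List Gt) r => ver2 r) (PT.range (hn.sub (PT.const 2)))
      (pt_ver2.comp PT.snd)
  have a4 : PT (fun Γ : List Gt => (List.range (colBound Γ)).flatMap (fun c =>
      (List.range (rowsPer Γ - 1)).map (fun k => colL (c * rowsPer Γ + k)))) := by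
    refine PT.flatMap (g := fun (Γ : List Gt) c =>
      (List.range (rowsPer Γ - 1)).map (fun k => colL (c * rowsPer Γ + k)))
      (PT.range pt_colBound) ?_
    have r1 : PT (fun x : List Gt × ℕ => rowsPer x.1) := pt_rowsPer.comp PT.fst
    refine PT.map (g := fun (x : List Gt × ℕ) k => colL (x.2 * rowsPer x.1 + k))
      (PT.range (r1.sub (PT.const 1))) ?_
    exact pt_colL.comp ((PT.fst.snd'.mul (r1.comp PT.fst)).add PT.snd)
  have a5 : PT (fun Γ : List Gt => Γ.zipIdx.flatMap (fun x => (List.range 4).flatMap (fun j =>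
      useL (rowsPer Γ) (x.1.col j) (4 * x.2 + j)))) := by
    refine PT.flatMap (g := fun (Γ : List Gt) (x : Gt × ℕ) => (List.range 4).flatMap (fun j =>
      useL (rowsPer Γ) (x.1.col j) (4 * x.2 + j))) hz ?_
    refine PT.flatMap (g := fun (y : List Gt × (Gt × ℕ)) j =>
      useL (rowsPer y.1) (y.2.1.col j) (4 * y.2.2 + j)) (PT.const (List.range 4)) ?_
    have r1 : PT (fun x : (List Gt × (Gt × ℕ)) × ℕ => rowsPer x.1.1) := pt_rowsPer.comp PT.fst.fst'
    have r2 : PT (fun x : (List Gt × (Gt × ℕ)) × ℕ => x.1.2) := PT.fst.snd'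
    exact pt_useL r1 (pt_col r2.fst' PT.snd) ((r2.snd'.mulConst 4).add PT.snd)
  have a6 : PT (fun Γ : List Gt => Γ.zipIdx.flatMap gateL) :=
    PT.flatMap (g := fun (_ : List Gt) x => gateL x) hz (pt_gateL.comp PT.snd)
  exact PT.append (PT.append (PT.append (PT.append (PT.append (PT.append (PT.const baseL) a1) a2)
    a3) a4) a5) a6

/-! ### The rotation system -/

theorem pt_look : PT (fun x : List Link × Port => look x.1 x.2) := by
  have hE : PT (fun x : List Link × Port => x.1) := PT.fst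
  have hsw : PT (fun x : List Link × Port => x.1.map Prod.swap) :=
    PT.map (g := fun (_ : List Link × Port) (e : Link) => e.swap) hE
      (PT.snd.snd'.pair PT.snd.fst')
  have hs : PT (fun x : List Link × Port => symE x.1) := PT.append hE hsw
  have hf : PT (fun x : List Link × Port => ((symE x.1).filter (fun e => e.1 = x.2)).head?) := by
    refine PT.head? (PT.filter (p := fun (x : List Link × Port) e => decide (e.1 = x.2)) hs ?_)
    exact PT.eq PT.snd.fst' PT.fst.snd'
  refine (PT.optCases (f := fun x : List Link × Port =>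
    ((symE x.1).filter (fun e => e.1 = x.2)).head?) (g := fun _ => (none : Option ℕ))
    (h := fun _ e => some e.2.1) hf (PT.const _) (PT.some PT.snd.snd'.fst')).congr ?_
  intro x
  unfold look
  cases ((symE x.1).filter (fun e => e.1 = x.2)).head? <;> rfl

theorem pt_nb {E : α → List Link} {u k : α → ℕ} (hE : PT E) (hu : PT u) (hk : PT k) :
    PT (fun a => nb (E a) (u a) (k a)) := by
  refine (PT.optCases (f := fun a => look (E a) (u a, k a)) (g := fun a => 17 * u a + 1 + k a)
    (h := fun _ v => 17 * v) (pt_look.comp (hE.pair (hu.pair hk)))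
    (((hu.mulConst 17).addConst 1).add hk) (PT.snd.mulConst 17)).congr ?_
  intro a
  unfold nb
  cases look (E a) (u a, k a) <;> rfl

theorem range_seventeen (n : ℕ) : List.range (17 * n) =
    (List.range n).flatMap (fun u => (List.range 17).map (fun i => 17 * u + i)) := by
  induction n with
  | zero => rfl
  | succ n ih =>
    rw [Nat.mul_succ, List.range_add, ih, show List.range (n + 1) = List.range n ++ [n] from
      List.range_succ, List.flatMap_append]
    simp

theorem rot_eq (n : ℕ) (E : List Link) : rot n E = (List.range n).flatMap (fun u =>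
    (List.range 16).map (fun k => nb E u k) ::
      (List.range 16).map (fun k => if look E (u, k) = none then [17 * u] else [])) := by
  unfold rot
  rw [range_seventeen, List.map_flatMap]
  congr 1
  funext u
  rw [List.map_map]
  have h17 : List.range 17 = 0 :: (List.range 16).map (fun k => k + 1) := by decide
  rw [h17, List.map_cons, List.map_map]
  congr 1
  · simpa using row_real E u
  · apply List.map_congr_left
    intro k hk
    rw [List.mem_range] at hk
    have := row_leaf E u k hk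
    simp only [Function.comp]
    rw [← this, show 17 * u + (k + 1) = 17 * u + 1 + k by ring]

theorem pt_rot : PT (fun x : ℕ × List Link => rot x.1 x.2) := by
  refine (PT.flatMap (f := fun x : ℕ × List Link => List.range x.1) (g := fun x u =>
    (List.range 16).map (fun k => nb x.2 u k) ::
      (List.range 16).map (fun k => if look x.2 (u, k) = none then [17 * u] else []))
    (PT.range PT.fst) ?_).congr (fun x => (rot_eq x.1 x.2).symm)
  refine PT.cons ?_ ?_
  · exact PT.map (g := fun (y : (ℕ × List Link) × ℕ) k => nb y.1.2 y.2 k)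
      (PT.const (List.range 16)) (pt_nb PT.fst.fst'.snd' PT.fst.snd' PT.snd)
  · refine PT.map (g := fun (y : (ℕ × List Link) × ℕ) k =>
      if look y.1.2 (y.2, k) = none then [17 * y.2] else []) (PT.const (List.range 16)) ?_
    refine PT.ite (c := fun z : ((ℕ × List Link) × ℕ) × ℕ => look z.1.1.2 (z.1.2, z.2) = none)
      ?_ (PT.list1 (PT.fst.snd'.mulConst 17)) (PT.const [])
    exact (PT.eqConst none).comp (pt_look.comp (PT.fst.fst'.snd'.pair (PT.fst.snd'.pair PT.snd)))

/-! ### The gates -/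

theorem pt_mid {a m b : α → ℕ} (ha : PT a) (hm : PT m) (hb : PT b) :
    PT (fun x => mid (a x) (m x) (b x)) :=
  (PT.const false).pair (ha.pair (hm.pair (hb.pair ha)))

theorem pt_sqg {i r s n : α → ℕ} (hi : PT i) (hr : PT r) (hs : PT s) (hn : PT n) :
    PT (fun x => sqg (i x) (r x) (s x) (n x)) :=
  (PT.const true).pair (hi.pair (hr.pair (hs.pair hn)))

theorem pt_ax {f : α → ℕ} (hf : PT f) : PT (fun a => ax (f a)) := (hf.mulConst 2).addConst 3
theorem pt_vr {f : α → ℕ} (hf : PT f) : PT (fun a => vr (f a)) := (hf.mulConst 2).addConst 2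

theorem pt_addG {A B C t : α → ℕ} (hA : PT A) (hB : PT B) (hC : PT C) (ht : PT t) :
    PT (fun x => addG (A x) (B x) (C x) (t x)) := by
  have h0 : PT (fun x => ax (t x)) := pt_ax ht
  have h : ∀ j, PT (fun x => ax (t x + j)) := fun j => pt_ax (ht.addConst j)
  exact PT.cons (pt_mid (PT.const 0) h0 (h 1)) (PT.cons (pt_mid (h 1) (h 2) hA)
    (PT.cons (pt_mid hB h0 (h 3)) (PT.cons (pt_mid (h 3) (h 2) hC) (PT.const []))))

theorem pt_mulG {A B C t : α → ℕ} (hA : PT A) (hB : PT B) (hC : PT C) (ht : PT t) :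
    PT (fun x => mulG (A x) (B x) (C x) (t x)) := by
  have h : ∀ j, PT (fun x => ax (t x + j)) := fun j => pt_ax (ht.addConst j)
  have s : ∀ j, PT (fun x => t x + j) := fun j => ht.addConst j
  have z : PT (fun _ : α => 0) := PT.const 0
  have f : PT (fun _ : α => 4) := PT.const 4
  refine PT.append (PT.append (PT.append (PT.append (PT.append (PT.append (PT.append
    (pt_addG hA (h 28) (h 29) ht) (pt_addG hB (h 28) (h 30) (s 4)))
    (pt_addG (h 29) hB (h 31) (s 8))) (pt_addG (h 39) (h 36) (h 40) (s 12)))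
    (pt_addG (h 37) (h 38) (h 41) (s 16))) (pt_addG hC hC (h 42) (s 20)))
    (pt_addG (h 41) (h 42) (h 40) (s 24))) ?_
  exact PT.cons (pt_mid (h 32) z (h 28)) (PT.cons (pt_mid (h 33) z (h 29))
    (PT.cons (pt_mid (h 34) z (h 30)) (PT.cons (pt_mid (h 35) z (h 31))
    (PT.cons (pt_sqg f (h 28) (h 36) (h 32)) (PT.cons (pt_sqg f (h 29) (h 37) (h 33))
    (PT.cons (pt_sqg f (h 30) (h 38) (h 34)) (PT.cons (pt_sqg f (h 31) (h 39) (h 35))
    (PT.const []))))))))

theorem pt_conG : PT conG := by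
  have ha : PT (fun e : Con × ℕ => vr e.1.2.1) := pt_vr PT.fst.snd'.fst'
  have hb : PT (fun e : Con × ℕ => vr e.1.2.2.1) := pt_vr PT.fst.snd'.snd'.fst'
  have hc : PT (fun e : Con × ℕ => vr e.1.2.2.2) := pt_vr PT.fst.snd'.snd'.snd'
  have ht : PT (fun e : Con × ℕ => 64 * e.2) := PT.snd.mulConst 64
  have h0 : PT (fun e : Con × ℕ => e.1.1) := PT.fst.fst'
  refine PT.ite (c := fun e : Con × ℕ => e.1.1 = true) ?_ (pt_mulG ha hb hc ht)
    (pt_addG ha hb hc ht)
  exact h0.congr (fun x => by cases x.1.1 <;> rfl)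

theorem pt_gatesOf : PT gatesOf :=
  PT.cons (PT.const _) (PT.flatMap (g := fun (_ : List Con) q => conG q) (PT.zipIdx PT.id)
    (pt_conG.comp PT.snd))

theorem pt_rotOf : PT (fun φ : Fml => rotOf φ.toks) := by
  have h0 : PT (fun φ : Fml => φ.toks) := PT.of_enc_eq (fun _ => rfl)
  have h1 : PT (fun Γ : List Gt => rot (netN Γ) (net Γ)) :=
    PT.comp (g := fun x : ℕ × List Link => rot x.1 x.2) (f := fun Γ : List Gt => (netN Γ, net Γ))
      pt_rot (pt_netN.pair pt_net)
  have h2 : PT rotOf := PT.comp (g := fun Γ : List Gt => rot (netN Γ) (net Γ))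
    (f := fun l : List Tok => gatesOf (consOf l)) h1
    (PT.comp (g := gatesOf) (f := consOf) pt_gatesOf pt_consOf)
  exact PT.comp (g := rotOf) (f := fun φ : Fml => φ.toks) h2 h0

theorem rot_code (L : List (List ℕ)) : codeList (codeList codeNat) L = code L :=
  codeList_eq (codeList_eq codeNat_eq) _

theorem reduces_of_pt {Δ : ℕ} {f : Fml → List (List ℕ)} (hf : PT f)
    (hp : ∀ φ, IsRotationSystem (f φ) ∧ ∀ l ∈ f φ, l.length ≤ Δ)
    (h : ∀ φ : Fml, (∃ x : ℕ → ℝ, φ.Holds x) ↔ HasLombardiDrawing (f φ)) :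
    Reduces ETR (lombardi Δ) := by
  let g : Fml → {L : List (List ℕ) // IsRotationSystem L ∧ ∀ l ∈ L, l.length ≤ Δ} :=
    fun φ => ⟨f φ, hp φ⟩
  have hg : PT g := PT.congr_enc (g := f) hf (fun _ => rfl)
  refine ⟨g, ?_, h⟩
  have e1 : ETR.enc = (code : Fml → List Bool) := funext fml_code
  have e2 : (lombardi Δ).enc = (code : {L : List (List ℕ) // IsRotationSystem L ∧
    ∀ l ∈ L, l.length ≤ Δ} → List Bool) := funext (fun L => rot_code L.1)
  rw [e1, e2]
  exact hg.computable

/-- The reduction from the existential theory of the reals. -/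
theorem reduces_lombardi {Δ : ℕ} (h : 16 ≤ Δ) : Reduces ETR (lombardi Δ) :=
  reduces_of_pt pt_rotOf
    (fun _ => ⟨isRotationSystem_rot (portGraph_net _), fun l hl => (degree_rot _ _ l hl).trans h⟩)
    rotOf_iff

end Pool.Agent.Lib.MP_235cc9_lc
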