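import Pool.Agent.Lib.MP_235cc9_lc.Curve

/-!
# From links between ports to rotation systems

A link joins the port `k` of the vertex `u` and the port `l` of the vertex `v` (`k, l < 16`). The
ports that are not used get a leaf.
-/

namespace Pool.Agent.Lib.MP_235cc9_lc

open Complex ComplexConjugate

/-- A port: a vertex and a number `< 16`. -/
abbrev Port : Type := ℕ × ℕ

/-- A link between two ports. -/
abbrev Link : Type := Port × Port

/-- The links in both directions. -/
def symE (E : List Link) : List Link := E ++ E.map Prod.swap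

/-- The vertex linked to a port. -/
def look (E : List Link) (p : Port) : Option ℕ :=
  (((symE E).filter (fun e => e.1 = p)).head?).map (fun e => e.2.1)

/-- The neighbour of the vertex `17 u` at the port `k`. -/
def nb (E : List Link) (u k : ℕ) : ℕ :=
  match look E (u, k) with
  | some v => 17 * v
  | none => 17 * u + 1 + k

/-- The rotation of the vertex `i`. -/
def row (E : List Link) (i : ℕ) : List ℕ :=
  if i % 17 = 0 then (List.range 16).map (nb E (i / 17))
  else if look E (i / 17, i % 17 - 1) = none then [17 * (i / 17)] else []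

/-- The rotation system. -/
def rot (n : ℕ) (E : List Link) : List (List ℕ) := (List.range (17 * n)).map (row E)

/-- The links describe a simple graph on the vertices `0, …, n - 1`, and every port is used at most
once. -/
structure PortGraph (n : ℕ) (E : List Link) : Prop where
  func : ∀ p q q' : Port, (p, q) ∈ symE E → (p, q') ∈ symE E → q = q'
  loop : ∀ p q : Port, (p, q) ∈ symE E → p.1 ≠ q.1
  par : ∀ p q p' q' : Port, (p, q) ∈ symE E → (p', q') ∈ symE E → p.1 = p'.1 → q.1 = q'.1 → p = p'
  bd : ∀ p q : Port, (p, q) ∈ symE E → p.1 < n ∧ p.2 < 16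

theorem mem_symE {E : List Link} {p q : Port} : (p, q) ∈ symE E ↔ (p, q) ∈ E ∨ (q, p) ∈ E := by
  simp [symE]

theorem symE_symm {E : List Link} {p q : Port} (h : (p, q) ∈ symE E) : (q, p) ∈ symE E := by
  rw [mem_symE] at h ⊢
  exact h.symm

theorem look_some {n : ℕ} {E : List Link} (h : PortGraph n E) {p q : Port} (hq : (p, q) ∈ symE E) :
    look E p = some q.1 := by
  unfold look
  rcases hf : ((symE E).filter (fun e => e.1 = p)).head? with _ | e
  · exfalso
    rw [List.head?_eq_none_iff] at hf
    have : (p, q) ∈ (symE E).filter (fun e => e.1 = p) := by simp [hq]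
    rw [hf] at this
    simp at this
  · have he := List.mem_of_mem_head? (Option.mem_def.mpr hf)
    rw [List.mem_filter] at he
    obtain ⟨h1, h2⟩ := he
    obtain ⟨p', q'⟩ := e
    simp only [decide_eq_true_eq] at h2
    subst h2
    rw [h.func p' q q' hq h1, hf]
    rfl

theorem of_look_some {E : List Link} {p : Port} {v : ℕ} (h : look E p = some v) :
    ∃ l, (p, (v, l)) ∈ symE E := by
  unfold look at h
  rcases hf : ((symE E).filter (fun e => e.1 = p)).head? with _ | e
  · rw [hf] at h; simp at h
  · have he := List.mem_of_mem_head? (Option.mem_def.mpr hf)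
    rw [List.mem_filter] at he
    obtain ⟨h1, h2⟩ := he
    obtain ⟨p', v', l'⟩ := e
    simp only [decide_eq_true_eq] at h2
    rw [hf] at h
    simp only [Option.map_some, Option.some.injEq] at h
    subst h2 h
    exact ⟨l', h1⟩

theorem length_rot (n : ℕ) (E : List Link) : (rot n E).length = 17 * n := by simp [rot]

theorem getElem?_rot {n : ℕ} {E : List Link} {i : ℕ} (hi : i < 17 * n) :
    (rot n E)[i]? = some (row E i) := by
  simp [rot, hi]

theorem nbrs_rot {n : ℕ} {E : List Link} {i : ℕ} (hi : i < 17 * n) : nbrs (rot n E) i = row E i := by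
  rw [nbrs, List.getD_eq_getElem?_getD, getElem?_rot hi]
  rfl

theorem row_real (E : List Link) (u : ℕ) : row E (17 * u) = (List.range 16).map (nb E u) := by
  have h1 : 17 * u % 17 = 0 := by omega
  have h2 : 17 * u / 17 = u := by omega
  simp [row, h1, h2]

theorem row_leaf (E : List Link) (u k : ℕ) (hk : k < 16) : row E (17 * u + 1 + k) =
    if look E (u, k) = none then [17 * u] else [] := by
  have h1 : (17 * u + 1 + k) % 17 = k + 1 := by omega
  have h2 : (17 * u + 1 + k) / 17 = u := by omega
  have h3 : k + 1 ≠ 0 := by omega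
  simp [row, h1, h2]

theorem nb_inj {n : ℕ} {E : List Link} (h : PortGraph n E) {u k k' : ℕ} (hk : k < 16) (hk' : k' < 16)
    (he : nb E u k = nb E u k') : k = k' := by
  unfold nb at he
  rcases h1 : look E (u, k) with _ | v <;> rcases h2 : look E (u, k') with _ | v' <;>
    simp only [h1, h2] at he
  · omega
  · omega
  · omega
  · obtain ⟨l, hl⟩ := of_look_some h1
    obtain ⟨l', hl'⟩ := of_look_some h2
    have := h.par _ _ _ _ hl hl' rfl (by simp only; omega)
    simpa using this

theorem row_real_nodup {n : ℕ} {E : List Link} (h : PortGraph n E) (u : ℕ) :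
    (row E (17 * u)).Nodup := by
  rw [row_real]
  refine List.Nodup.map_on (fun k hk k' hk' he => ?_) List.nodup_range
  exact nb_inj h (List.mem_range.mp hk) (List.mem_range.mp hk') he

theorem idxOf_row {n : ℕ} {E : List Link} (h : PortGraph n E) (u : ℕ) {k : ℕ} (hk : k < 16) :
    (row E (17 * u)).idxOf (nb E u k) = k := by
  have hn := row_real_nodup h u
  have hl : k < (row E (17 * u)).length := by rw [row_real]; simpa using hk
  have h1 := hn.idxOf_getElem k hl
  have h2 : (row E (17 * u))[k] = nb E u k := by
    simp only [row_real, List.getElem_map, List.getElem_range]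
  rwa [h2] at h1

theorem isRotationSystem_rot {n : ℕ} {E : List Link} (h : PortGraph n E) :
    IsRotationSystem (rot n E) := by
  intro i l hi
  have hlt : i < 17 * n := by
    by_contra hcon
    rw [List.getElem?_eq_none (by rw [length_rot]; omega)] at hi
    simp at hi
  rw [getElem?_rot hlt] at hi
  simp only [Option.some.injEq] at hi
  subst hi
  obtain ⟨u, j, hj, rfl⟩ : ∃ u j, j < 17 ∧ i = 17 * u + j := ⟨i / 17, i % 17, by omega, by omega⟩
  rcases Nat.eq_zero_or_pos j with rfl | hj0
  · rw [Nat.add_zero] at *
    refine ⟨row_real_nodup h u, fun v hv => ?_⟩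
    rw [row_real, List.mem_map] at hv
    obtain ⟨k, hk, rfl⟩ := hv
    rw [List.mem_range] at hk
    unfold nb
    rcases hl : look E (u, k) with _ | v
    · simp only
      refine ⟨by omega, row E (17 * u + 1 + k), getElem?_rot (by omega), ?_⟩
      rw [row_leaf E u k hk, if_pos hl]
      simp
    · simp only
      obtain ⟨l, hl'⟩ := of_look_some hl
      have h1 := h.loop _ _ hl'
      have h2 := h.bd _ _ (symE_symm hl')
      simp only at h1 h2
      refine ⟨by omega, row E (17 * v), getElem?_rot (by omega), ?_⟩
      rw [row_real, List.mem_map]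
      refine ⟨l, List.mem_range.mpr h2.2, ?_⟩
      unfold nb
      rw [look_some h (symE_symm hl')]
  · obtain ⟨k, rfl⟩ : ∃ k, j = 1 + k := ⟨j - 1, by omega⟩
    rw [← Nat.add_assoc] at *
    rw [row_leaf E u k (by omega)]
    split_ifs with hl
    · refine ⟨by simp, fun v hv => ?_⟩
      rw [List.mem_singleton] at hv
      subst hv
      refine ⟨by omega, row E (17 * u), getElem?_rot (by omega), ?_⟩
      rw [row_real, List.mem_map]
      refine ⟨k, List.mem_range.mpr (by omega), ?_⟩
      unfold nb
      rw [hl]
    · simp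

theorem degree_rot (n : ℕ) (E : List Link) : ∀ l ∈ rot n E, l.length ≤ 16 := by
  intro l hl
  rw [rot, List.mem_map] at hl
  obtain ⟨i, -, rfl⟩ := hl
  unfold row
  split_ifs <;> simp

/-! ### The directions of the edges -/

/-- The basic root of unity. -/
noncomputable def zt : ℂ := exp (((2 * Real.pi / 16 : ℝ) : ℂ) * I)

theorem zt_pow (k : ℕ) : zt ^ k = exp (((2 * Real.pi * k / 16 : ℝ) : ℂ) * I) := by
  rw [zt, ← Complex.exp_nat_mul]
  congr 1
  push_cast
  ring

theorem norm_zt_pow (k : ℕ) : ‖zt ^ k‖ = 1 := by
  rw [zt_pow, Complex.norm_exp_ofReal_mul_I]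

theorem edgeDir_port {n : ℕ} {E : List Link} (h : PortGraph n E) (θ : ℕ → ℝ) {u k : ℕ} (hu : u < n)
    (hk : k < 16) : edgeDir (rot n E) θ (17 * u) (nb E u k) = exp (θ (17 * u) * I) * zt ^ k := by
  have h2 : (row E (17 * u)).length = 16 := by rw [row_real]; simp
  rw [edgeDir, nbrs_rot (by omega : 17 * u < 17 * n), idxOf_row h u hk, h2, zt_pow, ← Complex.exp_add]
  congr 1
  push_cast
  ring

theorem edgeDir_leaf {n : ℕ} {E : List Link} (θ : ℕ → ℝ) {u k : ℕ} (hu : u < n)
    (hk : k < 16) (hl : look E (u, k) = none) :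
    edgeDir (rot n E) θ (17 * u + 1 + k) (17 * u) = exp (θ (17 * u + 1 + k) * I) := by
  rw [edgeDir, nbrs_rot (by omega : 17 * u + 1 + k < 17 * n), row_leaf E u k hk, if_pos hl]
  simp

/-- What a drawing gives. -/
theorem rot_sound {n : ℕ} {E : List Link} (h : PortGraph n E) (hd : HasLombardiDrawing (rot n E)) :
    ∃ z w : ℕ → ℂ, (∀ u, ‖w u‖ = 1) ∧ (∀ u v, u < n → v < n → z u = z v → u = v) ∧
      ∀ u k v l, ((u, k), (v, l)) ∈ symE E →
        (w u * zt ^ k) * (w v * zt ^ l) * conj (z v - z u) = -(z v - z u) := by
  obtain ⟨z, θ, h1, h2⟩ := hd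
  rw [length_rot] at h1 h2
  refine ⟨fun u => z (17 * u), fun u => exp (θ (17 * u) * I), fun u => norm_exp_ofReal_mul_I _,
    fun u v hu hv he => ?_, ?_⟩
  · have := h1 _ _ (by omega) (by omega) he
    omega
  · have key : ∀ u k v l, ((u, k), (v, l)) ∈ symE E → u < v →
        (exp (θ (17 * u) * I) * zt ^ k) * (exp (θ (17 * v) * I) * zt ^ l) *
          conj (z (17 * v) - z (17 * u)) = -(z (17 * v) - z (17 * u)) := by
      intro u k v l he huv
      have b1 := h.bd _ _ he
      have b2 := h.bd _ _ (symE_symm he)
      simp only at b1 b2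
      have e1 : nb E u k = 17 * v := by unfold nb; rw [look_some h he]
      have e2 : nb E v l = 17 * u := by unfold nb; rw [look_some h (symE_symm he)]
      obtain ⟨S, hS, -⟩ := h2 (17 * u) (17 * v) (by omega) (by omega) (by
        rw [nbrs_rot (by omega), row_real, List.mem_map]
        exact ⟨k, List.mem_range.mpr b1.2, e1⟩)
      have h3 := hS.rel.2.2
      have d1 := edgeDir_port h θ b1.1 b1.2
      have d2 := edgeDir_port h θ b2.1 b2.2
      rw [e1] at d1
      rw [e2] at d2
      rwa [d1, d2] at h3
    intro u k v l he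
    rcases lt_trichotomy u v with huv | huv | huv
    · exact key u k v l he huv
    · exact absurd huv (h.loop _ _ he)
    · have := key v l u k (symE_symm he) huv
      simp only [map_sub] at this ⊢
      linear_combination -this

end Pool.Agent.Lib.MP_235cc9_lc
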