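import Pool.Agent.Lib.MP_235cc9_lc.Rot
import Mathlib.RingTheory.RootsOfUnity.Complex
import Mathlib.Algebra.Polynomial.Roots

/-!
# Placing the leaves
-/

set_option linter.unusedSimpArgs false

namespace Pool.Agent.Lib.MP_235cc9_lc

open Complex ComplexConjugate Filter Topology

theorem quad_finite (A B C : ℝ) (h : A ≠ 0 ∨ B ≠ 0 ∨ C ≠ 0) :
    {t : ℝ | A * t ^ 2 + B * t + C = 0}.Finite := by
  set p : Polynomial ℝ := Polynomial.C A * Polynomial.X ^ 2 + Polynomial.C B * Polynomial.X +
    Polynomial.C C with hp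
  have hp0 : p ≠ 0 := by
    intro h0
    have c2 : p.coeff 2 = A := by simp [hp, Polynomial.coeff_X, Polynomial.coeff_C]
    have c1 : p.coeff 1 = B := by simp [hp, Polynomial.coeff_X_pow, Polynomial.coeff_C]
    have c0 : p.coeff 0 = C := by simp [hp]
    rw [h0] at c2 c1 c0
    simp only [Polynomial.coeff_zero] at c2 c1 c0
    rcases h with h | h | h
    · exact h c2.symm
    · exact h c1.symm
    · exact h c0.symm
  refine (Polynomial.finite_setOfPred_isRoot hp0).subset (fun t ht => ?_)
  simp only [Set.mem_ofPred_eq, hp, Polynomial.IsRoot.def, Polynomial.eval_add, Polynomial.eval_mul,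
    Polynomial.eval_C, Polynomial.eval_pow, Polynomial.eval_X] at ht ⊢
  exact ht

theorem eventually_quad (A B C : ℝ) (h : A ≠ 0 ∨ B ≠ 0 ∨ C ≠ 0) :
    ∀ᶠ t in 𝓝[>] (0 : ℝ), A * t ^ 2 + B * t + C ≠ 0 := by
  have h1 : 𝓝[>] (0 : ℝ) ≤ cofinite := (nhdsGT_le_nhdsNE 0).trans (nhdsNE_le_cofinite 0)
  exact h1 (quad_finite A B C h).compl_mem_cofinite

theorem zt_pow_inj {k k' : ℕ} (hk : k < 16) (hk' : k' < 16) (h : zt ^ k = zt ^ k') : k = k' := by
  have h1 : IsPrimitiveRoot zt 16 := by
    have := Complex.isPrimitiveRoot_exp 16 (by norm_num)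
    have e : zt = exp (2 * Real.pi * I / ((16 : ℕ) : ℂ)) := by
      rw [zt]; congr 1; push_cast; ring
    rwa [e]
  exact h1.pow_inj hk hk' h

theorem exp_arg {w : ℂ} (hw : ‖w‖ = 1) : exp (arg w * I) = w := by
  have h := Complex.norm_mul_exp_arg_mul_I w
  rwa [hw, Complex.ofReal_one, one_mul] at h

/-- How to get a drawing. -/
theorem rot_complete {n : ℕ} {E : List Link} (h : PortGraph n E) {z w : ℕ → ℂ}
    (hw : ∀ u, ‖w u‖ = 1) (hz : ∀ u v, u < n → v < n → z u = z v → u = v)
    (hrel : ∀ u k v l, ((u, k), (v, l)) ∈ E →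
      (w u * zt ^ k) * (w v * zt ^ l) * conj (z v - z u) = -(z v - z u))
    (hk : ∀ u k v l, ((u, k), (v, l)) ∈ E → curv (z u) (w u * zt ^ k) (z v) ≠ 0)
    (ha : ∀ u k v l, ((u, k), (v, l)) ∈ E → ∀ x < n, x ≠ u → x ≠ v →
      curv (z u) (w u * zt ^ k) (z x) ≠ curv (z u) (w u * zt ^ k) (z v)) :
    HasLombardiDrawing (rot n E) := by
  -- the choice of `ε`
  obtain ⟨ε, hε0, hε1, hε2⟩ : ∃ ε : ℝ, 0 < ε ∧ (∀ u < n, ∀ v < n, u ≠ v → 2 * ε < ‖z u - z v‖) ∧
      (∀ e ∈ E, ∀ x < n, ∀ j < 16, ((z x + ε * (w x * zt ^ j) - z e.1.1) *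
        conj (w e.1.1 * zt ^ e.1.2)).im ≠ curv (z e.1.1) (w e.1.1 * zt ^ e.1.2) (z e.2.1) *
        normSq (z x + ε * (w x * zt ^ j) - z e.1.1)) := by
    have h1 : ∀ᶠ ε in 𝓝[>] (0 : ℝ), 0 < ε := eventually_mem_nhdsWithin
    have h2 : ∀ᶠ ε : ℝ in 𝓝[>] (0 : ℝ), ∀ u ∈ Finset.range n, ∀ v ∈ Finset.range n, u ≠ v →
        2 * ε < ‖z u - z v‖ := by
      rw [Filter.eventually_all_finset]
      intro u hu
      rw [Filter.eventually_all_finset]
      intro v hv
      by_cases huv : u = v
      · exact Filter.Eventually.of_forall (fun ε hne => absurd huv hne)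
      · have hpos : 0 < ‖z u - z v‖ := by
          rw [norm_pos_iff, sub_ne_zero]
          exact fun he => huv (hz u v (Finset.mem_range.mp hu) (Finset.mem_range.mp hv) he)
        have : ∀ᶠ ε in 𝓝 (0 : ℝ), 2 * ε < ‖z u - z v‖ := by
          have hc : ContinuousAt (fun ε : ℝ => 2 * ε) 0 := by fun_prop
          refine hc.eventually_lt_const ?_
          simpa using hpos
        have h' : ∀ᶠ ε in 𝓝[>] (0 : ℝ), 2 * ε < ‖z u - z v‖ := nhdsWithin_le_nhds this
        exact h'.mono (fun ε h _ => h)
    have h3 : ∀ᶠ ε : ℝ in 𝓝[>] (0 : ℝ), ∀ e ∈ E.toFinset, ∀ x ∈ Finset.range n,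
        ∀ j ∈ Finset.range 16, ((z x + (ε : ℂ) * (w x * zt ^ j) - z e.1.1) *
        conj (w e.1.1 * zt ^ e.1.2)).im ≠ curv (z e.1.1) (w e.1.1 * zt ^ e.1.2) (z e.2.1) *
        normSq (z x + ε * (w x * zt ^ j) - z e.1.1) := by
      rw [Filter.eventually_all_finset]
      intro e he
      rw [Filter.eventually_all_finset]
      intro x _
      rw [Filter.eventually_all_finset]
      intro j _
      obtain ⟨⟨u, k⟩, v, l⟩ := e
      have hκ := hk u k v l (List.mem_toFinset.mp he)
      simp only
      set κ := curv (z u) (w u * zt ^ k) (z v)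
      set σ := w u * zt ^ k
      set η := w x * zt ^ j with hη
      have hη1 : η.re ^ 2 + η.im ^ 2 = 1 := by
        have h1 : ‖η‖ = 1 := by rw [hη, norm_mul, hw, norm_zt_pow, one_mul]
        have h2 := Complex.normSq_eq_norm_sq η
        rw [h1, Complex.normSq_apply] at h2
        linarith
      have hq := eventually_quad κ (2 * κ * ((z x - z u).re * η.re + (z x - z u).im * η.im) -
        (η * conj σ).im) (κ * normSq (z x - z u) - ((z x - z u) * conj σ).im) (Or.inl hκ)
      refine hq.mono (fun ε hε he => hε ?_)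
      simp only [Complex.normSq_apply, Complex.add_re, Complex.add_im, Complex.sub_re,
        Complex.sub_im, Complex.mul_im, Complex.mul_re, Complex.conj_re, Complex.conj_im,
        Complex.ofReal_re, Complex.ofReal_im, zero_mul, sub_zero, add_zero] at he ⊢
      linear_combination -he - κ * ε ^ 2 * (hη1)
    obtain ⟨ε, e1, e2, e3⟩ := (h1.and (h2.and h3)).exists
    exact ⟨ε, e1, fun u hu v hv => e2 u (Finset.mem_range.mpr hu) v (Finset.mem_range.mpr hv),
      fun e he x hx j hj => e3 e (List.mem_toFinset.mpr he) x (Finset.mem_range.mpr hx) j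
        (Finset.mem_range.mpr hj)⟩
  have hεC : (ε : ℂ) ≠ 0 := by exact_mod_cast hε0.ne'
  have hη : ∀ u k, ‖w u * zt ^ k‖ = 1 := fun u k => by rw [norm_mul, hw, norm_zt_pow, one_mul]
  have hη0 : ∀ u k, w u * zt ^ k ≠ 0 := fun u k => by
    rw [← norm_ne_zero_iff, hη]; exact one_ne_zero
  set Z : ℕ → ℂ := fun i => if i % 17 = 0 then z (i / 17) else
    z (i / 17) + ε * (w (i / 17) * zt ^ (i % 17 - 1)) with hZ
  set Θ : ℕ → ℝ := fun i => if i % 17 = 0 then arg (w (i / 17)) else
    arg (-(w (i / 17) * zt ^ (i % 17 - 1))) with hΘ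
  have Z0 : ∀ u, Z (17 * u) = z u := fun u => by
    have h1 : 17 * u % 17 = 0 := by omega
    have h2 : 17 * u / 17 = u := by omega
    simp only [hZ, h1, h2, if_true]
  have Z1 : ∀ u k, k < 16 → Z (17 * u + 1 + k) = z u + ε * (w u * zt ^ k) := fun u k hk => by
    have h1 : (17 * u + 1 + k) % 17 = k + 1 := by omega
    have h2 : (17 * u + 1 + k) / 17 = u := by omega
    have h3 : k + 1 ≠ 0 := by omega
    simp only [hZ, h1, h2, h3, if_false, Nat.add_sub_cancel]
  have T0 : ∀ u, exp (Θ (17 * u) * I) = w u := fun u => by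
    have h1 : 17 * u % 17 = 0 := by omega
    have h2 : 17 * u / 17 = u := by omega
    simp only [hΘ, h1, h2, if_true]
    exact exp_arg (hw u)
  have T1 : ∀ u k, k < 16 → exp (Θ (17 * u + 1 + k) * I) = -(w u * zt ^ k) := fun u k hk => by
    have h1 : (17 * u + 1 + k) % 17 = k + 1 := by omega
    have h2 : (17 * u + 1 + k) / 17 = u := by omega
    have h3 : k + 1 ≠ 0 := by omega
    simp only [hΘ, h1, h2, h3, if_false, Nat.add_sub_cancel]
    exact exp_arg (by rw [norm_neg, hη])
  have hdec : ∀ i < 17 * n, ∃ u < n, i = 17 * u ∨ ∃ k < 16, i = 17 * u + 1 + k := by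
    intro i hi
    refine ⟨i / 17, by omega, ?_⟩
    rcases Nat.eq_zero_or_pos (i % 17) with h0 | h0
    · left; omega
    · right
      exact ⟨i % 17 - 1, by omega, by omega⟩
  have near : ∀ u j, (j = 17 * u ∨ ∃ k < 16, j = 17 * u + 1 + k) → ‖Z j - z u‖ ≤ ε := by
    rintro u j (rfl | ⟨k, hk, rfl⟩)
    · rw [Z0, sub_self, norm_zero]; exact hε0.le
    · rw [Z1 u k hk, add_sub_cancel_left, norm_mul, hη, Complex.norm_real, Real.norm_eq_abs,
        abs_of_pos hε0, mul_one]
  refine ⟨Z, Θ, ?_, ?_⟩
  · -- injectivity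
    rw [length_rot]
    intro i i' hi hi' he
    obtain ⟨u, hu, h1⟩ := hdec i hi
    obtain ⟨u', hu', h1'⟩ := hdec i' hi'
    by_cases huu : u = u'
    · subst huu
      rcases h1 with rfl | ⟨k, hk', rfl⟩ <;> rcases h1' with rfl | ⟨k', hk'', rfl⟩
      · rfl
      · rw [Z0, Z1 _ _ hk''] at he
        exfalso
        have : (ε : ℂ) * (w u * zt ^ k') = 0 := by linear_combination -he
        exact mul_ne_zero hεC (hη0 _ _) this
      · rw [Z0, Z1 _ _ hk'] at he
        exfalso
        have : (ε : ℂ) * (w u * zt ^ k) = 0 := by linear_combination he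
        exact mul_ne_zero hεC (hη0 _ _) this
      · rw [Z1 _ _ hk', Z1 _ _ hk''] at he
        have h2 := mul_left_cancel₀ hεC (add_left_cancel he)
        have hw0 : w u ≠ 0 := by rw [← norm_ne_zero_iff, hw]; exact one_ne_zero
        rw [zt_pow_inj hk' hk'' (mul_left_cancel₀ hw0 h2)]
    · exfalso
      have n1 := near u i h1
      have n2 := near u' i' h1'
      have n3 := hε1 u hu u' hu' huu
      rw [← he] at n2
      have : z u - z u' = (Z i - z u') - (Z i - z u) := by ring
      rw [this] at n3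
      have := norm_sub_le (Z i - z u') (Z i - z u)
      linarith
  · -- the edges
    rw [length_rot]
    have key : ∀ u k v l, ((u, k), (v, l)) ∈ E → ∃ S : Set ℂ,
        IsCurve (z u) (z v) (w u * zt ^ k) (w v * zt ^ l) S ∧
          ∀ x, x < 17 * n → x ≠ 17 * u → x ≠ 17 * v → Z x ∉ S := by
      intro u k v l he
      have hE : ((u, k), (v, l)) ∈ symE E := mem_symE.mpr (Or.inl he)
      have hun := (h.bd _ _ hE).1
      have hvn := (h.bd _ _ (symE_symm hE)).1
      have hne := h.loop _ _ hE
      simp only at hun hvn hne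
      have hab : z u ≠ z v := fun h' => hne (hz u v hun hvn h')
      obtain ⟨S, hS, hS'⟩ := exists_curve hab (hη u k) (hrel u k v l he) (hk u k v l he)
      refine ⟨S, hS, fun x hx hxu hxv hxS => ?_⟩
      obtain ⟨y, hy, h1⟩ := hdec x hx
      rcases h1 with rfl | ⟨j, hj, rfl⟩
      · rw [Z0] at hxS
        have hyu : y ≠ u := fun h' => hxu (by rw [h'])
        have hyv : y ≠ v := fun h' => hxv (by rw [h'])
        exact ha u k v l he y hy hyu hyv (hS' _ hxS (fun h' => hyu (hz y u hy hun h')))
      · rw [Z1 _ _ hj] at hxS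
        have hne' : z y + ε * (w y * zt ^ j) ≠ z u := by
          intro h'
          by_cases hyu : y = u
          · subst hyu
            have : (ε : ℂ) * (w y * zt ^ j) = 0 := by linear_combination h'
            exact mul_ne_zero hεC (hη0 _ _) this
          · have n3 := hε1 y hy u hun hyu
            have : z y - z u = -(ε * (w y * zt ^ j)) := by linear_combination h'
            rw [this, norm_neg, norm_mul, hη, Complex.norm_real, Real.norm_eq_abs,
              abs_of_pos hε0] at n3
            linarith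
        have h2 := hS' _ hxS hne'
        rw [curv_eq_iff hne'] at h2
        exact hε2 _ he y hy j hj h2
    intro i i' hii' hi' hmem
    obtain ⟨u, hu, h1⟩ := hdec i (by omega)
    rw [nbrs_rot (by omega)] at hmem
    rcases h1 with rfl | ⟨k, hk', rfl⟩
    · rw [row_real, List.mem_map] at hmem
      obtain ⟨k, hk', rfl⟩ := hmem
      rw [List.mem_range] at hk'
      have d1 := edgeDir_port h Θ hu hk'
      rw [d1, T0]
      rcases hl : look E (u, k) with _ | v
      · -- a leaf
        have e1 : nb E u k = 17 * u + 1 + k := by unfold nb; rw [hl]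
        rw [e1, edgeDir_leaf Θ hu hk' hl, T1 _ _ hk', Z0, Z1 _ _ hk']
        have hne : z u ≠ z u + ε * (w u * zt ^ k) := by
          intro h'
          have : (ε : ℂ) * (w u * zt ^ k) = 0 := by linear_combination -h'
          exact mul_ne_zero hεC (hη0 _ _) this
        have hseg := IsCurve.segment _ _ hne
        rw [add_sub_cancel_left, norm_mul, hη, Complex.norm_real, Real.norm_eq_abs,
          abs_of_pos hε0, mul_one, mul_div_cancel_left₀ _ hεC] at hseg
        have e2 : (z u - (z u + ε * (w u * zt ^ k))) = ε * (-(w u * zt ^ k)) := by ring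
        rw [e2, norm_mul, norm_neg, hη, Complex.norm_real, Real.norm_eq_abs,
          abs_of_pos hε0, mul_one, mul_div_cancel_left₀ _ hεC] at hseg
        refine ⟨_, hseg, ?_⟩
        rintro x hx hxu hxl ⟨t, ht0, ht1, hxt⟩
        obtain ⟨y, hy, h1⟩ := hdec x hx
        have hd : ‖Z x - z u‖ < ε := by
          rw [hxt, add_sub_cancel_left, norm_mul, norm_mul, hη, Complex.norm_real,
            Complex.norm_real, Real.norm_eq_abs, Real.norm_eq_abs, abs_of_pos hε0, abs_of_pos ht0,
            mul_one]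
          nlinarith
        by_cases hyu : y = u
        · subst hyu
          rcases h1 with rfl | ⟨j, hj, rfl⟩
          · exact hxu rfl
          · rw [Z1 _ _ hj, add_sub_cancel_left, norm_mul, hη, Complex.norm_real,
              Real.norm_eq_abs, abs_of_pos hε0, mul_one] at hd
            exact lt_irrefl _ hd
        · have n1 := near y x h1
          have n3 := hε1 y hy u hu hyu
          have : z y - z u = (Z x - z u) - (Z x - z y) := by ring
          rw [this] at n3
          have := norm_sub_le (Z x - z u) (Z x - z y)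
          linarith
      · -- a link
        have e1 : nb E u k = 17 * v := by unfold nb; rw [hl]
        obtain ⟨l, hE⟩ := of_look_some hl
        have b2 := h.bd _ _ (symE_symm hE)
        simp only at b2
        have e2 : nb E v l = 17 * u := by unfold nb; rw [look_some h (symE_symm hE)]
        have d2 := edgeDir_port h Θ b2.1 b2.2
        rw [e2] at d2
        rw [e1, d2, T0, Z0, Z0]
        rcases mem_symE.mp hE with hE' | hE'
        · obtain ⟨S, hS, hS'⟩ := key u k v l hE'
          exact ⟨S, hS, fun x hx h1 h2 => hS' x hx h1 h2⟩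
        · obtain ⟨S, hS, hS'⟩ := key v l u k hE'
          exact ⟨S, hS.symm, fun x hx h1 h2 => hS' x hx h2 h1⟩
    · rw [row_leaf E u k hk'] at hmem
      split_ifs at hmem with hl
      · rw [List.mem_singleton] at hmem
        omega
      · simp at hmem

end Pool.Agent.Lib.MP_235cc9_lc
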